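import Pool.Agent.Lib.MP_90787a_nt.Points

set_option autoImplicit false
set_option linter.unusedSectionVars false

/-!
Energy gain when the points avoid an annulus around an invariant disc.
-/

namespace Pool.Agent.UBC90787a

open Polynomial Finset

section coeffs

variable {L : Type*} [NormedField L] [IsUltrametricDist L]

/-- Roots outside the disc of radius `ρ`: the constant coefficient dominates. -/
lemma coeff_lt_of_roots_gt {ρ : ℝ} (hρ : 0 < ρ) (s : Multiset L) (hs : ∀ b ∈ s, ρ < ‖b‖) :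
    0 < ‖((s.map (fun b => X - C b)).prod).coeff 0‖ ∧
    ∀ e, 1 ≤ e → ‖((s.map (fun b => X - C b)).prod).coeff e‖ * ρ ^ e <
      ‖((s.map (fun b => X - C b)).prod).coeff 0‖ := by
  induction s using Multiset.induction_on with
  | empty =>
    refine ⟨by simp, fun e he => ?_⟩
    simp [coeff_one, show e ≠ 0 by omega]
  | cons a s ih =>
    obtain ⟨ih1, ih2⟩ := ih (fun b hb => hs b (Multiset.mem_cons_of_mem hb))
    have ha : ρ < ‖a‖ := hs a (Multiset.mem_cons_self a s)
    rw [Multiset.map_cons, Multiset.prod_cons]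
    set q := (s.map (fun b => X - C b)).prod with hq
    have h0 : ((X - C a) * q).coeff 0 = - (a * q.coeff 0) := by
      rw [mul_coeff_zero, coeff_sub, coeff_X_zero, coeff_C_zero]
      ring
    have hpos : 0 < ‖a‖ * ‖q.coeff 0‖ := mul_pos (hρ.trans ha) ih1
    refine ⟨by rw [h0, norm_neg, norm_mul]; exact hpos, fun e he => ?_⟩
    obtain ⟨e', rfl⟩ : ∃ e', e = e' + 1 := ⟨e - 1, by omega⟩
    have h1 : ((X - C a) * q).coeff (e' + 1) = q.coeff e' - a * q.coeff (e' + 1) := by
      rw [sub_mul, coeff_sub, coeff_X_mul, coeff_C_mul]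
    rw [h0, h1, norm_neg, norm_mul]
    have h2 : ‖q.coeff e' - a * q.coeff (e' + 1)‖ ≤
        max ‖q.coeff e'‖ (‖a‖ * ‖q.coeff (e' + 1)‖) := by
      rw [sub_eq_add_neg]
      refine (IsUltrametricDist.norm_add_le_max _ _).trans ?_
      rw [norm_neg, norm_mul]
    have h3 : ‖q.coeff e'‖ * ρ ^ (e' + 1) < ‖a‖ * ‖q.coeff 0‖ := by
      have h4 : ‖q.coeff e'‖ * ρ ^ e' ≤ ‖q.coeff 0‖ := by
        rcases Nat.eq_zero_or_pos e' with rfl | h
        · simp
        · exact (ih2 e' h).le
      calc ‖q.coeff e'‖ * ρ ^ (e' + 1) = ρ * (‖q.coeff e'‖ * ρ ^ e') := by ring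
        _ ≤ ρ * ‖q.coeff 0‖ := by gcongr
        _ < ‖a‖ * ‖q.coeff 0‖ := by gcongr
    have h5 : ‖a‖ * ‖q.coeff (e' + 1)‖ * ρ ^ (e' + 1) < ‖a‖ * ‖q.coeff 0‖ := by
      have := ih2 (e' + 1) (by omega)
      calc ‖a‖ * ‖q.coeff (e' + 1)‖ * ρ ^ (e' + 1) = ‖a‖ * (‖q.coeff (e' + 1)‖ * ρ ^ (e' + 1)) := by
            ring
        _ < ‖a‖ * ‖q.coeff 0‖ := by
          have : 0 < ‖a‖ := hρ.trans ha
          gcongr
    rcases max_cases ‖q.coeff e'‖ (‖a‖ * ‖q.coeff (e' + 1)‖) with ⟨hm, _⟩ | ⟨hm, _⟩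
    · rw [hm] at h2
      exact lt_of_le_of_lt (by gcongr) h3
    · rw [hm] at h2
      exact lt_of_le_of_lt (by gcongr) h5

/-- Roots inside the disc of radius `ρ`: the leading coefficient dominates. -/
lemma coeff_le_of_roots_le' {ρ : ℝ} (hρ : 0 ≤ ρ) (s : Multiset L) (hs : ∀ b ∈ s, ‖b‖ ≤ ρ) :
    ∀ e, e ≤ s.card → ‖((s.map (fun b => X - C b)).prod).coeff e‖ ≤ ρ ^ (s.card - e) := by
  induction s using Multiset.induction_on with
  | empty =>
    intro e he
    simp only [Multiset.card_zero, Nat.le_zero] at he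
    subst he
    simp
  | cons a s ih =>
    intro e he
    have ih' := ih (fun b hb => hs b (Multiset.mem_cons_of_mem hb))
    have ha : ‖a‖ ≤ ρ := hs a (Multiset.mem_cons_self a s)
    rw [Multiset.map_cons, Multiset.prod_cons]
    set q := (s.map (fun b => X - C b)).prod with hq
    rw [Multiset.card_cons] at he ⊢
    have hdeg : q.natDegree = s.card := by
      rw [hq, natDegree_multiset_prod_X_sub_C_eq_card]
    rcases Nat.eq_zero_or_pos e with rfl | he0
    · rw [mul_coeff_zero, coeff_sub, coeff_X_zero, coeff_C_zero, zero_sub, norm_mul, norm_neg,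
        Nat.sub_zero, pow_succ, mul_comm]
      have := ih' 0 (Nat.zero_le _)
      rw [Nat.sub_zero] at this
      exact mul_le_mul this ha (norm_nonneg _) (by positivity)
    · obtain ⟨e', rfl⟩ : ∃ e', e = e' + 1 := ⟨e - 1, by omega⟩
      have h1 : ((X - C a) * q).coeff (e' + 1) = q.coeff e' - a * q.coeff (e' + 1) := by
        rw [sub_mul, coeff_sub, coeff_X_mul, coeff_C_mul]
      rw [h1]
      have h2 : ‖q.coeff e' - a * q.coeff (e' + 1)‖ ≤
          max ‖q.coeff e'‖ (‖a‖ * ‖q.coeff (e' + 1)‖) := by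
        rw [sub_eq_add_neg]
        refine (IsUltrametricDist.norm_add_le_max _ _).trans ?_
        rw [norm_neg, norm_mul]
      refine h2.trans (max_le ?_ ?_)
      · have := ih' e' (by omega)
        rwa [Nat.add_sub_add_right]
      · rcases Nat.lt_or_ge s.card (e' + 1) with h | h
        · rw [coeff_eq_zero_of_natDegree_lt (by rw [hdeg]; exact h), norm_zero, mul_zero]
          positivity
        · have := ih' (e' + 1) h
          calc ‖a‖ * ‖q.coeff (e' + 1)‖ ≤ ρ * ρ ^ (s.card - (e' + 1)) := by gcongr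
            _ = ρ ^ (s.card + 1 - (e' + 1)) := by
              rw [← pow_succ']
              congr 1
              omega

variable [IsAlgClosed L]

lemma eq_C_mul_prod (p : L[X]) : p = C p.leadingCoeff * (p.roots.map (fun b => X - C b)).prod :=
  (IsAlgClosed.splits p).eq_prod_roots

lemma exists_root_le {p : L[X]} {ρ : ℝ} (hρ : 0 < ρ) {e : ℕ} (he : 1 ≤ e)
    (hp : p ≠ 0) (h : ‖p.coeff 0‖ ≤ ‖p.coeff e‖ * ρ ^ e) : ∃ b ∈ p.roots, ‖b‖ ≤ ρ := by
  by_contra hcon
  push Not at hcon
  have h1 := (coeff_lt_of_roots_gt hρ p.roots hcon).2 e he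
  have h2 : ∀ i, ‖p.coeff i‖ = ‖p.leadingCoeff‖ *
      ‖((p.roots.map (fun b => X - C b)).prod).coeff i‖ := by
    intro i
    conv_lhs => rw [eq_C_mul_prod p]
    rw [coeff_C_mul, norm_mul]
  rw [h2, h2] at h
  have hlc : 0 < ‖p.leadingCoeff‖ := norm_pos_iff.mpr (leadingCoeff_ne_zero.mpr hp)
  have h3 : ‖p.leadingCoeff‖ * (‖((p.roots.map (fun b => X - C b)).prod).coeff e‖ * ρ ^ e) <
      ‖p.leadingCoeff‖ * ‖((p.roots.map (fun b => X - C b)).prod).coeff 0‖ := by gcongr
  linarith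

lemma coeff_le_of_forall_root_le {p : L[X]} {ρ : ℝ} (hρ : 0 ≤ ρ)
    (h : ∀ b ∈ p.roots, ‖b‖ ≤ ρ) {e : ℕ} (he : e ≤ p.natDegree) :
    ‖p.coeff e‖ ≤ ‖p.leadingCoeff‖ * ρ ^ (p.natDegree - e) := by
  have hcard : p.roots.card = p.natDegree := IsAlgClosed.card_roots_eq_natDegree
  have h1 := coeff_le_of_roots_le' hρ p.roots h e (by rw [hcard]; exact he)
  rw [hcard] at h1
  conv_lhs => rw [eq_C_mul_prod p]
  rw [coeff_C_mul, norm_mul]
  gcongr

end coeffs

section annulus

variable {L : Type*} [NormedField L] [IsUltrametricDist L] [IsAlgClosed L]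

open Classical in
lemma count_disc_ge {g : L[X]} (hd2 : 2 ≤ g.natDegree) {A r : ℝ} (hA : 0 < A)
    (hAa : A ^ (g.natDegree - 1) = ‖g.leadingCoeff‖) (hr : IsRadius g r) {w : L}
    (hw : ‖w‖ * A ≤ (r * A) ^ g.natDegree) {ρ0 : ℝ} (hρ0 : 0 < ρ0) {e : ℕ} (he2 : 2 ≤ e)
    (he : ‖g.coeff e‖ * ρ0 ^ e = ρ0) (h0 : ‖g.coeff 0‖ ≤ ρ0) (j : ℕ) :
    ∀ (n : ℕ) (s : ℝ), 0 ≤ s → j + 1 ≤ n → r ≤ ρ0 * Real.exp (2 ^ j * s) →
      g.natDegree ^ (n - j) ≤
        Multiset.countP (fun b => ‖b‖ ≤ ρ0 * Real.exp s) (preim g w n) := by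
  induction j with
  | zero =>
    intro n s hs hn hrs
    obtain ⟨n', rfl⟩ : ∃ n', n = n' + 1 := ⟨n - 1, by omega⟩
    rw [Nat.sub_zero, ← card_preim (g := g) (w := w) (n' + 1)]
    refine le_of_eq (Eq.symm (Multiset.countP_eq_card.mpr ?_))
    intro y hy
    have := norm_preim_le hd2 hA hAa hr hw n' y hy
    refine this.trans (hrs.trans_eq ?_)
    simp
  | succ j ih =>
    intro n s hs hn hrs
    obtain ⟨n', rfl⟩ : ∃ n', n = n' + 1 := ⟨n - 1, by omega⟩
    have ih' := ih n' (2 * s) (by positivity) (by omega) (by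
      refine hrs.trans_eq ?_
      congr 2
      ring)
    rw [countP_preim_succ]
    have e1 : n' + 1 - (j + 1) = n' - j := by omega
    rw [e1]
    refine ih'.trans (countP_le_sum_map _ _ _ (fun y hy hyn => ?_))
    rw [Nat.one_le_iff_ne_zero, Ne, Multiset.countP_eq_zero]
    push Not
    have hne : g - C y ≠ 0 := by
      intro h
      have := natDegree_sub_C (p := g) (a := y)
      rw [h, natDegree_zero] at this
      omega
    refine exists_root_le (by positivity) (by omega : 1 ≤ e) hne ?_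
    have e2 : (g - C y).coeff e = g.coeff e := by
      rw [coeff_sub, coeff_C, if_neg (by omega), sub_zero]
    have e3 : (g - C y).coeff 0 = g.coeff 0 - y := by
      rw [coeff_sub, coeff_C_zero]
    rw [e2, e3, mul_pow, ← mul_assoc, he, ← Real.exp_nat_mul]
    have h1 : ‖g.coeff 0 - y‖ ≤ ρ0 * Real.exp (2 * s) := by
      rw [sub_eq_add_neg]
      refine (IsUltrametricDist.norm_add_le_max _ _).trans (max_le ?_ ?_)
      · exact h0.trans (le_mul_of_one_le_right hρ0.le (Real.one_le_exp (by positivity)))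
      · rw [norm_neg]
        exact hyn
    refine h1.trans ?_
    gcongr
    exact_mod_cast he2

open Classical in
lemma count_disc_le {g : L[X]} (hd2 : 2 ≤ g.natDegree) {w : L} {ρ0 τ : ℝ} (hρ0 : 0 < ρ0)
    (hτ : 0 < τ) {e : ℕ} (hed : e < g.natDegree)
    (he : ‖g.coeff e‖ * ρ0 ^ e = ρ0) (hle : ∀ i, ‖g.coeff i‖ * ρ0 ^ i ≤ ρ0)
    (htop : ‖g.leadingCoeff‖ * ρ0 ^ g.natDegree ≤ ρ0 * Real.exp (-τ)) (he1 : 1 ≤ e) (j : ℕ) :
    ∀ (n : ℕ) (s : ℝ), 0 ≤ s → j ≤ n → g.natDegree ^ j * s ≤ τ →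
      Multiset.countP (fun b => ‖b‖ ≤ ρ0 * Real.exp s) (preim g w n) ≤
        (g.natDegree - 1) ^ j * g.natDegree ^ (n - j) := by
  induction j with
  | zero =>
    intro n s hs hn hrs
    rw [pow_zero, one_mul, Nat.sub_zero, ← card_preim (g := g) (w := w) n]
    exact Multiset.countP_le_card _ _
  | succ j ih =>
    intro n s hs hn hrs
    obtain ⟨n', rfl⟩ : ∃ n', n = n' + 1 := ⟨n - 1, by omega⟩
    set d := g.natDegree with hd
    have hd0 : (0 : ℝ) < d := by exact_mod_cast (by omega : 0 < d)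
    have ih' := ih n' (d * s) (by positivity) (by omega) (by
      refine le_trans (le_of_eq ?_) hrs
      ring)
    rw [countP_preim_succ]
    have e1 : n' + 1 - (j + 1) = n' - j := by omega
    rw [e1, pow_succ, mul_comm ((d - 1) ^ j) (d - 1), mul_assoc]
    refine (sum_map_le_countP _ (fun y => ‖y‖ ≤ ρ0 * Real.exp (d * s)) _ (d - 1)
      (fun y hy => ?_)).trans (Nat.mul_le_mul_left _ ih')
    have hne : g - C y ≠ 0 := by
      intro h
      have := natDegree_sub_C (p := g) (a := y)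
      rw [h, natDegree_zero] at this
      omega
    have hcard : (g - C y).roots.card = d := roots_sub_card g y
    by_cases hq : ‖y‖ ≤ ρ0 * Real.exp (d * s)
    · rw [if_pos hq]
      by_contra hlt
      push Not at hlt
      have h1 : Multiset.countP (fun b => ‖b‖ ≤ ρ0 * Real.exp s) (g - C y).roots =
          (g - C y).roots.card := by
        refine le_antisymm (Multiset.countP_le_card _ _) ?_
        rw [hcard]
        omega
      rw [Multiset.countP_eq_card] at h1
      have h2 := coeff_le_of_forall_root_le (p := g - C y) (by positivity) h1 (e := e)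
        (by rw [natDegree_sub_C]; exact hed.le)
      rw [leadingCoeff_sub_C' (by omega), natDegree_sub_C] at h2
      have e2 : (g - C y).coeff e = g.coeff e := by
        rw [coeff_sub, coeff_C, if_neg (by omega), sub_zero]
      rw [e2] at h2
      have h3 : ρ0 ≤ ρ0 * Real.exp (-τ) * Real.exp ((d - e : ℕ) * s) := by
        calc ρ0 = ‖g.coeff e‖ * ρ0 ^ e := he.symm
          _ ≤ (‖g.leadingCoeff‖ * (ρ0 * Real.exp s) ^ (d - e)) * ρ0 ^ e := by gcongr
          _ = (‖g.leadingCoeff‖ * (ρ0 ^ (d - e) * ρ0 ^ e)) * (Real.exp s) ^ (d - e) := by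
              rw [mul_pow]; ring
          _ = (‖g.leadingCoeff‖ * ρ0 ^ d) * Real.exp ((d - e : ℕ) * s) := by
              rw [← pow_add, Real.exp_nat_mul, Nat.sub_add_cancel hed.le]
          _ ≤ ρ0 * Real.exp (-τ) * Real.exp ((d - e : ℕ) * s) := by gcongr
      have h4 : Real.exp (-τ + (d - e : ℕ) * s) < 1 := by
        rw [Real.exp_lt_one_iff]
        have h5 : ((d - e : ℕ) : ℝ) * s ≤ (d - 1) * s := by
          have : ((d - e : ℕ) : ℝ) ≤ (d : ℝ) - 1 := by
            rw [Nat.cast_sub hed.le]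
            have : (1 : ℝ) ≤ e := by exact_mod_cast he1
            linarith
          gcongr
        have h6 : (d : ℝ) * s ≤ (d : ℝ) ^ (j + 1) * s := by
          have : (d : ℝ) ≤ (d : ℝ) ^ (j + 1) := by
            calc (d : ℝ) = (d : ℝ) ^ 1 := (pow_one _).symm
              _ ≤ (d : ℝ) ^ (j + 1) := pow_le_pow_right₀ (by exact_mod_cast (by omega : 1 ≤ d))
                  (by omega)
          gcongr
        rcases hs.eq_or_lt with h7 | h7
        · rw [← h7]
          simp only [mul_zero, add_zero]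
          linarith
        · nlinarith
      rw [mul_assoc, ← Real.exp_add] at h3
      have h8 : ρ0 * Real.exp (-τ + (d - e : ℕ) * s) < ρ0 * 1 := by gcongr
      linarith
    · rw [if_neg hq, Nat.le_zero, Multiset.countP_eq_zero]
      intro b hb hbs
      apply hq
      rw [← eval_of_mem_roots (by omega) hb, eval_eq_sum_range]
      refine IsUltrametricDist.norm_sum_le_of_forall_le_of_nonneg (by positivity) ?_
      intro i hi
      rw [Finset.mem_range] at hi
      rw [norm_mul, norm_pow]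
      calc ‖g.coeff i‖ * ‖b‖ ^ i ≤ ‖g.coeff i‖ * (ρ0 * Real.exp s) ^ i := by gcongr
        _ = (‖g.coeff i‖ * ρ0 ^ i) * Real.exp (i * s) := by
            rw [mul_pow, Real.exp_nat_mul]; ring
        _ ≤ ρ0 * Real.exp (d * s) := by
            have := hle i
            gcongr
            exact_mod_cast (by omega : i ≤ d)

end annulus

end Pool.Agent.UBC90787a
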