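import Pool.Agent.Lib.MP_90787a_nt.Annulus

set_option autoImplicit false
set_option linter.unusedSectionVars false

/-!
Energy gain when the points avoid an annulus around an invariant disc: the estimate.
-/

namespace Pool.Agent.UBC90787a

open Polynomial Finset

universe u

open Classical in
theorem ultra_annulus (d m : ℕ) (hd2 : 2 ≤ d) : ∃ δ C : ℝ, 0 < δ ∧ 0 ≤ C ∧
    ∀ (L : Type u) [NormedField L] [IsUltrametricDist L] [IsAlgClosed L] {c0 : L}
      (_ : 1 < ‖c0‖) {g : L[X]} (_ : g.natDegree = d) {A r h ρ0 : ℝ} (_ : 0 < A)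
      (_ : A ^ (d - 1) = ‖g.leadingCoeff‖) (_ : IsRadius g r) (_ : 0 < h) (_ : 0 < ρ0)
      {e : ℕ} (_ : 2 ≤ e) (_ : e < d) (_ : ‖g.coeff e‖ * ρ0 ^ e = ρ0)
      (_ : ∀ i, ‖g.coeff i‖ * ρ0 ^ i ≤ ρ0)
      (_ : ‖g.leadingCoeff‖ * ρ0 ^ d ≤ ρ0 * Real.exp (-(h / d)))
      (_ : r ≤ ρ0 * Real.exp (m * h)) (_ : Real.exp (-(m * h)) ≤ A * ρ0) (Y : Finset L)
      (_ : ∀ x ∈ Y, ∀ j, ‖(fun z => g.eval z)^[j] x‖ ≤ r)
      (_ : ∀ x ∈ Y, ‖x‖ ≤ ρ0 ∨ ρ0 * Real.exp (h / d) ≤ ‖x‖),
      logEnergy (fun x => ‖x‖) A Y ≤ h * (- δ * (Y.card : ℝ) ^ 2 + C * Y.card) := by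
  have hdR : (2 : ℝ) ≤ d := by exact_mod_cast hd2
  have hd0 : (0 : ℝ) < d := by linarith
  set j1 : ℕ := 2 * d * m with hj1
  have hj1b : (2 * d * m : ℝ) ≤ 2 ^ j1 := by
    have : 2 * d * m ≤ 2 ^ j1 := Nat.lt_two_pow_self.le
    exact_mod_cast this
  set c2 : ℝ := (1 / d) ^ j1 with hc2
  have hc2pos : 0 < c2 := by positivity
  have hq : (1 - 1 / (d : ℝ)) < 1 := by
    have : 0 < 1 / (d : ℝ) := by positivity
    linarith
  have hq0 : 0 ≤ (1 - 1 / (d : ℝ)) := by
    have : 1 / (d : ℝ) ≤ 1 := by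
      rw [div_le_one hd0]; linarith
    linarith
  obtain ⟨j2, hj2⟩ := exists_pow_lt_of_lt_one (show 0 < c2 / 2 by positivity) hq
  set δ0 : ℝ := (c2 / 4) ^ 2 * (1 / (2 * d * d ^ j2)) with hδ0
  have hδ0pos : 0 < δ0 := by positivity
  obtain ⟨n0, hn0⟩ := pow_unbounded_of_one_lt (16 * m / δ0) (show (1 : ℝ) < d by linarith)
  set n : ℕ := n0 + j1 + j2 + 1 with hn
  have hnb : 4 * (m : ℝ) / d ^ n ≤ δ0 / 4 := by
    rw [div_le_div_iff₀ (by positivity) (by norm_num)]
    have h1 : (16 * m : ℝ) < d ^ n0 * δ0 := by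
      rwa [div_lt_iff₀ hδ0pos] at hn0
    have h2 : (d : ℝ) ^ n0 ≤ d ^ n := pow_le_pow_right₀ (by linarith) (by omega)
    have h3 : (d : ℝ) ^ n0 * δ0 ≤ d ^ n * δ0 := by gcongr
    linarith
  obtain ⟨T0, hT0⟩ := exists_nat_gt (4 * (d * n * m) / δ0 : ℝ)
  set T : ℕ := T0 + 1 with hT
  have hT1 : 1 ≤ T := by omega
  have hTR : (0 : ℝ) < T := by exact_mod_cast hT1
  have hTb : (d * n * m : ℝ) / T ≤ δ0 / 4 := by
    rw [div_le_div_iff₀ hTR (by norm_num)]
    rw [div_lt_iff₀ hδ0pos] at hT0
    have : (T : ℝ) = T0 + 1 := by rw [hT]; push_cast; ring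
    rw [this]
    nlinarith
  have hn1 : (1 : ℝ) ≤ n := by exact_mod_cast (by omega : 1 ≤ n)
  refine ⟨δ0 / 2, d * n * m, by positivity, by positivity, ?_⟩
  intro L _ _ _ c0 hc0 g hgd A r h ρ0 hA hAa hr hh hρ0 e he2 hed he hle htop hrρ hAρ Y hY hgapY
  subst hgd
  set d : ℕ := g.natDegree with hd
  rcases Finset.eq_empty_or_nonempty Y with rfl | hYne
  · simp [logEnergy]
  have hN : (0 : ℝ) < Y.card := by exact_mod_cast hYne.card_pos
  have hrpos := hr.pos
  -- rA > 1
  have hAρ1 : (A * ρ0) ^ (d - 1) < 1 := by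
    have h1 : (A * ρ0) ^ (d - 1) * ρ0 = ‖g.leadingCoeff‖ * ρ0 ^ d := by
      rw [mul_pow, hAa, mul_assoc, ← pow_succ]
      congr 2
      omega
    have h2 : Real.exp (-(h / d)) < 1 := by
      rw [Real.exp_lt_one_iff]
      have : 0 < h / d := by positivity
      linarith
    have h3 : (A * ρ0) ^ (d - 1) * ρ0 < 1 * ρ0 := by
      rw [h1, one_mul]
      refine htop.trans_lt ?_
      exact mul_lt_of_lt_one_right hρ0 h2
    exact lt_of_mul_lt_mul_right h3 hρ0.le
  have hAρ1' : A * ρ0 < 1 := by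
    by_contra hlt
    push Not at hlt
    have := one_le_pow₀ (n := d - 1) hlt
    linarith
  have hrA1 : 1 ≤ r * A := by
    have h1 := hr.one_le
    rw [← hAa, ← mul_pow] at h1
    by_contra hlt
    push Not at hlt
    have h2 : (A * r) ^ (d - 1) < 1 := by
      rw [mul_comm]
      exact pow_lt_one₀ (by positivity) hlt (by omega)
    linarith
  have hρr : ρ0 < r := by
    have h1 : A * ρ0 < A * r := by
      rw [mul_comm A r]
      linarith
    exact lt_of_mul_lt_mul_left h1 hA.le
  have hrA : 1 < r * A := by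
    by_contra hlt
    push Not at hlt
    have heq : r * A = 1 := le_antisymm hlt hrA1
    have h1 := hr.coeff_le e hed
    rw [← hAa] at h1
    have h2 : ‖g.coeff e‖ * ρ0 ^ (e - 1) = 1 := by
      have h3 : ‖g.coeff e‖ * ρ0 ^ (e - 1) * ρ0 = 1 * ρ0 := by
        rw [mul_assoc, ← pow_succ, one_mul]
        rw [show e - 1 + 1 = e by omega]
        exact he
      exact mul_right_cancel₀ hρ0.ne' h3
    have h4 : ‖g.coeff e‖ * r ^ (e - 1) ≤ 1 := by
      calc ‖g.coeff e‖ * r ^ (e - 1) ≤ (A ^ (d - 1) * r ^ (d - e)) * r ^ (e - 1) := by gcongr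
        _ = A ^ (d - 1) * r ^ (d - 1) := by
            rw [mul_assoc, ← pow_add]
            congr 2
            omega
        _ = (r * A) ^ (d - 1) := by rw [mul_pow, mul_comm]
        _ = 1 := by rw [heq, one_pow]
    have hce : 0 < ‖g.coeff e‖ := by
      rcases (norm_nonneg (g.coeff e)).eq_or_lt with h5 | h5
      · rw [← h5, zero_mul] at h2
        norm_num at h2
      · exact h5
    have h6 : ‖g.coeff e‖ * ρ0 ^ (e - 1) < ‖g.coeff e‖ * r ^ (e - 1) := by
      have : ρ0 ^ (e - 1) < r ^ (e - 1) := pow_lt_pow_left₀ hρr hρ0.le (by omega)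
      gcongr
    linarith
  have hlamle : Real.log (r * A) ≤ m * h := by
    rw [← Real.log_exp (m * h)]
    apply Real.log_le_log (by positivity)
    calc r * A ≤ (ρ0 * Real.exp (m * h)) * A := by gcongr
      _ = (A * ρ0) * Real.exp (m * h) := by ring
      _ ≤ 1 * Real.exp (m * h) := by gcongr
      _ = Real.exp (m * h) := one_mul _
  set lam : ℝ := Real.log (r * A) with hlam
  have hlampos : 0 < lam := Real.log_pos hrA
  have hexplam : Real.exp lam = r * A := Real.exp_log (by positivity)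
  obtain ⟨w, hw1, hw2, hw3⟩ := exists_points hc0 hrpos hrA T
  have hwA : ∀ k, ‖w k‖ * A ≤ (r * A) ^ 2 := by
    intro k
    have := hw2 k
    calc ‖w k‖ * A ≤ (r * (r * A)) * A := by gcongr
      _ = (r * A) ^ 2 := by ring
  have hwAd : ∀ k, ‖w k‖ * A ≤ (r * A) ^ d := fun k =>
    (hwA k).trans (pow_le_pow_right₀ hrA.le hd2)
  have hΛ : ∀ k, Real.log (‖w k‖ * A) ≤ 2 * lam := by
    intro k
    have hwk : 0 < ‖w k‖ := hrpos.trans (hw1 k)
    calc Real.log (‖w k‖ * A) ≤ Real.log ((r * A) ^ 2) :=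
          Real.log_le_log (by positivity) (hwA k)
      _ = 2 * lam := by rw [Real.log_pow]; push_cast; rfl
  set E : ℝ := d * n * m * h with hE
  have hEE : Real.exp (-E) * (r * A) ^ ((d - 1) * n) ≤ r * A := by
    have h1 : Real.exp (-E) * (r * A) ^ ((d - 1) * n) ≤ 1 := by
      rw [← hexplam, ← Real.exp_nat_mul, ← Real.exp_add, Real.exp_le_one_iff]
      have h2 : (((d - 1) * n : ℕ) : ℝ) * lam ≤ (d * n) * (m * h) := by
        have : (((d - 1) * n : ℕ) : ℝ) ≤ d * n := by
          exact_mod_cast Nat.mul_le_mul_right n (Nat.sub_le d 1)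
        gcongr
      rw [hE]
      linarith
    exact h1.trans hrA.le
  have hlogρA : -(m * h) ≤ Real.log ρ0 + Real.log A := by
    rw [← Real.log_mul hρ0.ne' hA.ne', mul_comm ρ0 A, ← Real.log_exp (-(m * h))]
    exact Real.log_le_log (Real.exp_pos _) hAρ
  have hEm : m * h ≤ E := by
    have h1 : (1 : ℝ) ≤ d * n := by nlinarith
    have h2 : (0 : ℝ) ≤ m * h := by positivity
    calc (m * h : ℝ) = 1 * (m * h) := (one_mul _).symm
      _ ≤ (d * n) * (m * h) := by gcongr
      _ = E := by rw [hE]; ring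
  have ha0 : -E - Real.log A ≤ Real.log ρ0 := by linarith
  have hle0 : ‖g.coeff 0‖ ≤ ρ0 := by simpa using hle 0
  -- conclusion from a common lower bound
  have finish : ∀ len : ℝ, h * (1 / (2 * d * d ^ j2)) ≤ len →
      logEnergy (fun x => ‖x‖) A Y ≤ -(Y.card : ℝ) ^ 2 *
        ((c2 / 4) ^ 2 * len - 2 * (2 * lam) / (d : ℝ) ^ n - E / T) + Y.card * E →
      logEnergy (fun x => ‖x‖) A Y ≤
        h * (- (δ0 / 2) * (Y.card : ℝ) ^ 2 + d * n * m * Y.card) := by
    intro len hlen hmain
    refine hmain.trans ?_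
    have i1 : h * δ0 ≤ (c2 / 4) ^ 2 * len := by
      calc h * δ0 = (c2 / 4) ^ 2 * (h * (1 / (2 * d * d ^ j2))) := by rw [hδ0]; ring
        _ ≤ _ := by gcongr
    have i2 : 2 * (2 * lam) / (d : ℝ) ^ n ≤ h * (δ0 / 4) := by
      calc 2 * (2 * lam) / (d : ℝ) ^ n ≤ 2 * (2 * (m * h)) / (d : ℝ) ^ n := by gcongr
        _ = h * (4 * (m : ℝ) / d ^ n) := by ring
        _ ≤ h * (δ0 / 4) := by gcongr
    have i3 : E / T ≤ h * (δ0 / 4) := by
      calc E / T = h * ((d * n * m : ℝ) / T) := by rw [hE]; ring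
        _ ≤ h * (δ0 / 4) := by gcongr
    have i4 : h * (δ0 / 2) ≤ (c2 / 4) ^ 2 * len - 2 * (2 * lam) / (d : ℝ) ^ n - E / T := by
      linarith
    have i5 := mul_le_mul_of_nonneg_left i4 (sq_nonneg (Y.card : ℝ))
    have i6 : (Y.card : ℝ) * E = h * (d * n * m * Y.card) := by rw [hE]; ring
    rw [i6]
    linarith
  -- number of points in the inner disc
  set U0 : ℝ := ((Y.filter (fun x => ‖x‖ ≤ ρ0)).card : ℝ) with hU0
  have hUconst : ∀ s : ℝ, 0 ≤ s → s < h / d →
      ((Y.filter (fun x => ‖x - 0‖ ≤ ρ0 * Real.exp s)).card : ℝ) = U0 := by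
    intro s hs0 hs
    rw [hU0]
    congr 2
    ext x
    simp only [Finset.mem_filter, sub_zero]
    refine and_congr_right (fun hx => ?_)
    constructor
    · intro hxs
      rcases hgapY x hx with h1 | h1
      · exact h1
      · exfalso
        have : ρ0 * Real.exp s < ρ0 * Real.exp (h / d) := by gcongr
        linarith
    · intro hx1
      exact hx1.trans (le_mul_of_one_le_right hρ0.le (Real.one_le_exp hs0))
  have hsumdiv : ∀ (F : Fin T → ℝ) (c : ℝ), (∀ k, F k ≤ c * d ^ n) →
      (∑ k, F k) / (T * d ^ n) ≤ c := by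
    intro F c hF
    rw [div_le_iff₀ (by positivity)]
    have := Finset.sum_le_sum (s := (univ : Finset (Fin T))) (fun k _ => hF k)
    rw [Finset.sum_const, Finset.card_univ, Fintype.card_fin, nsmul_eq_mul] at this
    linarith
  have hsumdiv' : ∀ (F : Fin T → ℝ) (c : ℝ), (∀ k, c * d ^ n ≤ F k) →
      c ≤ (∑ k, F k) / (T * d ^ n) := by
    intro F c hF
    rw [le_div_iff₀ (by positivity)]
    have := Finset.sum_le_sum (s := (univ : Finset (Fin T))) (fun k _ => hF k)
    rw [Finset.sum_const, Finset.card_univ, Fintype.card_fin, nsmul_eq_mul] at this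
    linarith
  rcases le_or_gt (3 / 4 * c2) (U0 / Y.card) with hcase | hcase
  · -- many points in the inner disc
    refine finish (h / d / d ^ j2) ?_ ?_
    · have : h * (1 / (2 * d * d ^ j2)) = (h / d / d ^ j2) / 2 := by
        field_simp
      rw [this]
      have : 0 < h / d / (d : ℝ) ^ j2 := by positivity
      linarith
    · have hmain := local_energy hd2 hA hAa hr Y hYne hY (E := E) (Λ := 2 * lam)
        n T hT1 w hw1 hΛ hw3 hEE 0 (a := Real.log ρ0) (b := Real.log ρ0 + h / d / d ^ j2)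
        (η := c2 / 4) (by
          have : 0 < h / d / (d : ℝ) ^ j2 := by positivity
          linarith) (by positivity) ha0 ?_
      · refine hmain.trans (le_of_eq ?_)
        rw [add_sub_cancel_left]
      · intro t ht
        obtain ⟨s, hs⟩ : ∃ s, s = t - Real.log ρ0 := ⟨_, rfl⟩
        have hs0 : 0 ≤ s := by linarith [ht.1]
        have hs1 : s < h / d / d ^ j2 := by linarith [ht.2]
        have hts : Real.exp t = ρ0 * Real.exp s := by
          rw [hs, Real.exp_sub, Real.exp_log hρ0]
          field_simp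
        have hsd : s < h / d := by
          refine hs1.trans_le ?_
          exact div_le_self (by positivity) (one_le_pow₀ (by linarith))
        simp only [hts]
        rw [hUconst s hs0 hsd]
        refine le_trans ?_ (le_abs_self _)
        have hup : (∑ k, (Multiset.countP (fun b => ‖b - 0‖ ≤ ρ0 * Real.exp s)
            (preim g (w k) n) : ℝ)) / (T * d ^ n) ≤ c2 / 2 := by
          refine hsumdiv _ _ (fun k => ?_)
          simp only [sub_zero]
          have h1 := count_disc_le hd2 (w := w k) hρ0 (show 0 < h / d by positivity) hed he hle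
            htop (by omega) j2 n s hs0 (by omega) (by
              have : (d : ℝ) ^ j2 * s ≤ d ^ j2 * (h / d / d ^ j2) := by gcongr
              refine this.trans (le_of_eq ?_)
              field_simp)
          have h2 : ((Multiset.countP (fun b => ‖b‖ ≤ ρ0 * Real.exp s)
              (preim g (w k) n) : ℕ) : ℝ) ≤ ((d - 1) ^ j2 * d ^ (n - j2) : ℕ) := by
            exact_mod_cast h1
          refine h2.trans ?_
          push_cast
          rw [Nat.cast_sub (by omega : 1 ≤ d), Nat.cast_one]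
          have h3 : ((d : ℝ) - 1) ^ j2 * d ^ (n - j2) = (1 - 1 / (d : ℝ)) ^ j2 * d ^ n := by
            have h4 : (d : ℝ) ^ n = d ^ j2 * d ^ (n - j2) := by
              rw [← pow_add]
              congr 1
              omega
            rw [h4, ← mul_assoc, ← mul_pow]
            congr 2
            field_simp
          rw [h3]
          gcongr
        linarith
  · -- few points in the inner disc
    refine finish (h / d / 2) ?_ ?_
    · have h1 : h * (1 / (2 * d * d ^ j2)) = (h / d / 2) / d ^ j2 := by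
        field_simp
      rw [h1]
      exact div_le_self (by positivity) (one_le_pow₀ (by linarith))
    · have hmain := local_energy hd2 hA hAa hr Y hYne hY (E := E) (Λ := 2 * lam)
        n T hT1 w hw1 hΛ hw3 hEE 0 (a := Real.log ρ0 + h / d / 2) (b := Real.log ρ0 + h / d)
        (η := c2 / 4) (by
          have : 0 < h / d := by positivity
          linarith) (by positivity) (by
          have : 0 < h / d := by positivity
          linarith) ?_
      · refine hmain.trans (le_of_eq ?_)
        congr 3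
        ring
      · intro t ht
        obtain ⟨s, hs⟩ : ∃ s, s = t - Real.log ρ0 := ⟨_, rfl⟩
        have hs0 : h / d / 2 ≤ s := by linarith [ht.1]
        have hs1 : s < h / d := by linarith [ht.2]
        have hspos : 0 < h / d / 2 := by positivity
        have hts : Real.exp t = ρ0 * Real.exp s := by
          rw [hs, Real.exp_sub, Real.exp_log hρ0]
          field_simp
        simp only [hts]
        rw [hUconst s (by linarith) hs1, abs_sub_comm]
        refine le_trans ?_ (le_abs_self _)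
        have hlow : c2 ≤ (∑ k, (Multiset.countP (fun b => ‖b - 0‖ ≤ ρ0 * Real.exp s)
            (preim g (w k) n) : ℝ)) / (T * d ^ n) := by
          refine hsumdiv' _ _ (fun k => ?_)
          simp only [sub_zero]
          have h1 := count_disc_ge hd2 hA hAa hr (hwAd k) hρ0 he2 he hle0 j1 n s (by linarith)
            (by omega) (by
              refine hrρ.trans ?_
              have hx : (m * h : ℝ) ≤ 2 ^ j1 * s := by
                calc (m * h : ℝ) = (2 * d * m) * (h / d / 2) := by field_simp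
                  _ ≤ 2 ^ j1 * s := by gcongr
              exact mul_le_mul_of_nonneg_left (Real.exp_le_exp.mpr hx) hρ0.le)
          have h2 : ((d ^ (n - j1) : ℕ) : ℝ) ≤
              ((Multiset.countP (fun b => ‖b‖ ≤ ρ0 * Real.exp s) (preim g (w k) n) : ℕ) : ℝ) := by
            exact_mod_cast h1
          refine le_trans (le_of_eq ?_) h2
          push_cast
          have h4 : (d : ℝ) ^ n = d ^ j1 * d ^ (n - j1) := by
            rw [← pow_add]
            congr 1
            omega
          rw [h4, hc2, ← mul_assoc, ← mul_pow]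
          have : 1 / (d : ℝ) * d = 1 := by field_simp
          rw [this, one_pow, one_mul]
        linarith

end Pool.Agent.UBC90787a
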