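import Pool.Agent.Lib.MP_90787a_nt.Fekete

set_option autoImplicit false
set_option linter.unusedSectionVars false

/-!
Estimates valid over any normed field, used at the archimedean places.
-/

namespace Pool.Agent.UBC90787a

open Polynomial Finset

section radius

variable {L : Type*} [NormedField L]

lemma sum_quarter_le (d : ℕ) : ∑ i ∈ Finset.range d, (1 / 4 : ℝ) ^ (d - i) ≤ 1 / 3 := by
  induction d with
  | zero => norm_num
  | succ d ih =>
    rw [Finset.sum_range_succ]
    have h1 : ∑ i ∈ Finset.range d, (1 / 4 : ℝ) ^ (d + 1 - i) =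
        (1 / 4) * ∑ i ∈ Finset.range d, (1 / 4 : ℝ) ^ (d - i) := by
      rw [Finset.mul_sum]
      refine Finset.sum_congr rfl (fun i hi => ?_)
      rw [Finset.mem_range] at hi
      rw [← pow_succ']
      congr 1
      omega
    rw [h1]
    have h2 : d + 1 - d = 1 := by omega
    rw [h2]
    linarith

lemma IsRadius.lt_norm_eval_arch {g : L[X]} {r : ℝ} (h : IsRadius g r) (hd : 2 ≤ g.natDegree)
    {x : L} (hx : 4 * r < ‖x‖) : ‖x‖ < ‖g.eval x‖ := by
  have hrpos := h.pos
  have hxpos : 0 < ‖x‖ := by linarith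
  have hlc := h.lc_pos
  have htop : ‖g.coeff g.natDegree * x ^ g.natDegree‖ =
      ‖g.leadingCoeff‖ * ‖x‖ ^ g.natDegree := by
    rw [norm_mul, norm_pow]; rfl
  have hrest : ‖∑ i ∈ Finset.range g.natDegree, g.coeff i * x ^ i‖ ≤
      ‖g.leadingCoeff‖ * ‖x‖ ^ g.natDegree * (1 / 3) := by
    refine (norm_sum_le _ _).trans ?_
    have hb : ∀ i ∈ Finset.range g.natDegree, ‖g.coeff i * x ^ i‖ ≤
        ‖g.leadingCoeff‖ * ‖x‖ ^ g.natDegree * (1 / 4) ^ (g.natDegree - i) := by
      intro i hi
      rw [Finset.mem_range] at hi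
      rw [norm_mul, norm_pow]
      have h1 : r ^ (g.natDegree - i) ≤ (‖x‖ * (1 / 4)) ^ (g.natDegree - i) := by
        apply pow_le_pow_left₀ hrpos.le
        linarith
      calc ‖g.coeff i‖ * ‖x‖ ^ i ≤ (‖g.leadingCoeff‖ * r ^ (g.natDegree - i)) * ‖x‖ ^ i := by
            gcongr
            exact h.coeff_le i hi
        _ ≤ (‖g.leadingCoeff‖ * (‖x‖ * (1 / 4)) ^ (g.natDegree - i)) * ‖x‖ ^ i := by gcongr
        _ = ‖g.leadingCoeff‖ * (‖x‖ ^ (g.natDegree - i) * ‖x‖ ^ i) *
            (1 / 4) ^ (g.natDegree - i) := by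
            rw [mul_pow]; ring
        _ = _ := by
            rw [← pow_add, Nat.sub_add_cancel hi.le]
    refine (Finset.sum_le_sum hb).trans ?_
    rw [← Finset.mul_sum]
    have := sum_quarter_le g.natDegree
    gcongr
  have hge : ‖g.leadingCoeff‖ * ‖x‖ ^ g.natDegree * (2 / 3) ≤ ‖g.eval x‖ := by
    rw [eval_eq_sum_range, Finset.sum_range_succ]
    have h1 : ‖g.coeff g.natDegree * x ^ g.natDegree‖ ≤
        ‖∑ i ∈ Finset.range g.natDegree, g.coeff i * x ^ i +
          g.coeff g.natDegree * x ^ g.natDegree‖ +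
        ‖∑ i ∈ Finset.range g.natDegree, g.coeff i * x ^ i‖ := by
      have := norm_sub_le (∑ i ∈ Finset.range g.natDegree, g.coeff i * x ^ i +
          g.coeff g.natDegree * x ^ g.natDegree)
          (∑ i ∈ Finset.range g.natDegree, g.coeff i * x ^ i)
      simpa using this
    rw [htop] at h1
    linarith
  have h2 : 4 ≤ ‖g.leadingCoeff‖ * ‖x‖ ^ (g.natDegree - 1) := by
    calc (4 : ℝ) = 4 * 1 := by norm_num
      _ ≤ 4 * (‖g.leadingCoeff‖ * r ^ (g.natDegree - 1)) := by
          have := h.one_le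
          linarith
      _ ≤ 4 ^ (g.natDegree - 1) * (‖g.leadingCoeff‖ * r ^ (g.natDegree - 1)) := by
          have : (4 : ℝ) ≤ 4 ^ (g.natDegree - 1) := by
            calc (4 : ℝ) = 4 ^ 1 := (pow_one _).symm
              _ ≤ 4 ^ (g.natDegree - 1) := pow_le_pow_right₀ (by norm_num) (by omega)
          gcongr
      _ = ‖g.leadingCoeff‖ * (4 * r) ^ (g.natDegree - 1) := by rw [mul_pow]; ring
      _ ≤ ‖g.leadingCoeff‖ * ‖x‖ ^ (g.natDegree - 1) := by gcongr
  have h3 : ‖x‖ ^ g.natDegree = ‖x‖ ^ (g.natDegree - 1) * ‖x‖ := by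
    rw [← pow_succ]
    congr 1
    omega
  rw [h3] at hge
  have h4 : 4 * ‖x‖ ≤ ‖g.leadingCoeff‖ * ‖x‖ ^ (g.natDegree - 1) * ‖x‖ := by gcongr
  have h5 : ‖g.leadingCoeff‖ * (‖x‖ ^ (g.natDegree - 1) * ‖x‖) * (2 / 3) =
      (‖g.leadingCoeff‖ * ‖x‖ ^ (g.natDegree - 1) * ‖x‖) * (2 / 3) := by ring
  rw [h5] at hge
  linarith

lemma IsRadius.preper_le_arch {g : L[X]} {r : ℝ} (h : IsRadius g r) (hd : 2 ≤ g.natDegree)
    {x : L} (hx : Preper (fun z => g.eval z) x) : ‖x‖ ≤ 4 * r := by
  by_contra hlt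
  push Not at hlt
  refine not_preper_of_expanding (φ := fun z => g.eval z) (h := fun z => ‖z‖)
    (S := {z | 4 * r < ‖z‖}) ?_ ?_ hlt hx
  · intro y hy
    exact lt_trans hy (h.lt_norm_eval_arch hd hy)
  · intro y hy
    exact h.lt_norm_eval_arch hd hy

/-- The smallest admissible radius. -/
lemma exists_min_radius (g : L[X]) (hd : 2 ≤ g.natDegree) :
    ∃ r : ℝ, IsRadius g r ∧ (‖g.leadingCoeff‖ * r ^ (g.natDegree - 1) = 1 ∨
      ∃ i < g.natDegree, ‖g.coeff i‖ = ‖g.leadingCoeff‖ * r ^ (g.natDegree - i)) := by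
  have hg0 : g ≠ 0 := by
    rintro rfl
    rw [natDegree_zero] at hd
    omega
  have hlc : 0 < ‖g.leadingCoeff‖ := norm_pos_iff.mpr (leadingCoeff_ne_zero.mpr hg0)
  set d := g.natDegree with hdd
  set r0 : ℝ := (‖g.leadingCoeff‖⁻¹) ^ ((1 : ℝ) / ((d - 1 : ℕ) : ℝ)) with hr0
  set F : ℕ → ℝ := fun i => (‖g.coeff i‖ / ‖g.leadingCoeff‖) ^ ((1 : ℝ) / ((d - i : ℕ) : ℝ))
    with hF
  have hne : (Finset.range d).Nonempty := Finset.nonempty_range_iff.mpr (by omega)
  set r1 : ℝ := (Finset.range d).sup' hne F with hr1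
  have hr0pos : 0 < r0 := by positivity
  have hr0pow : ‖g.leadingCoeff‖ * r0 ^ (d - 1) = 1 := by
    rw [hr0, ← Real.rpow_natCast, ← Real.rpow_mul (by positivity), one_div,
      inv_mul_cancel₀ (by
        have : 0 < d - 1 := by omega
        positivity), Real.rpow_one]
    field_simp
  have hFpow : ∀ i < d, ‖g.coeff i‖ = ‖g.leadingCoeff‖ * (F i) ^ (d - i) := by
    intro i hi
    rw [hF]
    simp only
    rw [← Real.rpow_natCast, ← Real.rpow_mul (by positivity), one_div,
      inv_mul_cancel₀ (by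
        have : 0 < d - i := by omega
        positivity), Real.rpow_one]
    field_simp
  have hFnn : ∀ i, 0 ≤ F i := fun i => by
    simp only [hF]
    positivity
  have hFle : ∀ i < d, F i ≤ r1 := fun i hi => Finset.le_sup' F (Finset.mem_range.mpr hi)
  refine ⟨max r0 r1, ⟨lt_max_of_lt_left hr0pos, ?_, ?_⟩, ?_⟩
  · rw [← hr0pow]
    gcongr
    exact le_max_left _ _
  · intro i hi
    rw [hFpow i hi]
    have := hFnn i
    gcongr
    exact (hFle i hi).trans (le_max_right _ _)
  · rcases le_or_gt r1 r0 with h | h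
    · left
      rw [max_eq_left h]
      exact hr0pow
    · right
      obtain ⟨i, hi, hieq⟩ := Finset.exists_mem_eq_sup' hne F
      rw [Finset.mem_range] at hi
      refine ⟨i, hi, ?_⟩
      rw [max_eq_right h.le, hr1, hieq]
      exact hFpow i hi

end radius

section roots

variable {L : Type*} [NormedField L] [IsAlgClosed L]

lemma exists_root_ge {g : L[X]} {r : ℝ} (h : IsRadius g r) (hd : 2 ≤ g.natDegree)
    {i : ℕ} (hi : i < g.natDegree)
    (heq : ‖g.coeff i‖ = ‖g.leadingCoeff‖ * r ^ (g.natDegree - i)) :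
    ∃ α : L, g.eval α = 0 ∧ r / g.natDegree ≤ ‖α‖ := by
  classical
  have hg0 : g ≠ 0 := by
    rintro rfl
    rw [natDegree_zero] at hd
    omega
  have hlc := h.lc_pos
  have hrpos := h.pos
  have hd0 : (0 : ℝ) < g.natDegree := by exact_mod_cast (by omega : 0 < g.natDegree)
  by_contra hcon
  push Not at hcon
  have hroots : ∀ b ∈ g.roots, ‖b‖ < r / g.natDegree := by
    intro b hb
    rw [mem_roots hg0, IsRoot] at hb
    exact hcon b hb
  have hcard : g.roots.card = g.natDegree := IsAlgClosed.card_roots_eq_natDegree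
  -- largest root
  obtain ⟨ρ, hρ0, hρlt, hρ⟩ : ∃ ρ : ℝ, 0 ≤ ρ ∧ ρ < r / g.natDegree ∧ ∀ b ∈ g.roots, ‖b‖ ≤ ρ := by
    have hne : g.roots.toFinset.Nonempty := by
      rw [Multiset.toFinset_nonempty]
      intro h0
      rw [h0, Multiset.card_zero] at hcard
      omega
    refine ⟨g.roots.toFinset.sup' hne (fun b => ‖b‖), ?_, ?_, ?_⟩
    · obtain ⟨b, hb⟩ := hne
      exact (norm_nonneg b).trans (Finset.le_sup' (fun b => ‖b‖) hb)
    · rw [Finset.sup'_lt_iff]
      intro b hb
      exact hroots b (Multiset.mem_toFinset.mp hb)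
    · intro b hb
      exact Finset.le_sup' (fun b => ‖b‖) (Multiset.mem_toFinset.mpr hb)
  -- monic normalisation
  set p : L[X] := C (g.leadingCoeff⁻¹) * g with hp
  have hlc0 : g.leadingCoeff ≠ 0 := leadingCoeff_ne_zero.mpr hg0
  have hpm : p.Monic := by
    rw [hp, Monic, leadingCoeff_mul, leadingCoeff_C, inv_mul_cancel₀ hlc0]
  have hpd : p.natDegree = g.natDegree := by
    rw [hp, natDegree_C_mul (inv_ne_zero hlc0)]
  have hpr : p.roots = g.roots := roots_C_mul _ (inv_ne_zero hlc0)
  have hb := Polynomial.coeff_le_of_roots_le (p := p) (f := RingHom.id L) (B := ρ) i hpm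
    (IsAlgClosed.splits _) (by
      rw [Polynomial.map_id, hpr]
      exact hρ)
  rw [Polynomial.map_id, hpd] at hb
  have hc : ‖p.coeff i‖ = ‖g.coeff i‖ / ‖g.leadingCoeff‖ := by
    rw [hp, coeff_C_mul, norm_mul, norm_inv]
    ring
  rw [hc, heq] at hb
  have h1 : ‖g.leadingCoeff‖ * r ^ (g.natDegree - i) / ‖g.leadingCoeff‖ =
      r ^ (g.natDegree - i) := by field_simp
  rw [h1] at hb
  have h2 : ((g.natDegree.choose i : ℕ) : ℝ) ≤ (g.natDegree : ℝ) ^ (g.natDegree - i) := by
    rw [← Nat.choose_symm hi.le]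
    exact_mod_cast Nat.choose_le_pow g.natDegree (g.natDegree - i)
  have h3 : ρ ^ (g.natDegree - i) < (r / g.natDegree) ^ (g.natDegree - i) :=
    pow_lt_pow_left₀ hρlt hρ0 (by omega)
  have h4 : ρ ^ (g.natDegree - i) * (g.natDegree.choose i : ℝ) <
      r ^ (g.natDegree - i) := by
    calc ρ ^ (g.natDegree - i) * (g.natDegree.choose i : ℝ)
        ≤ ρ ^ (g.natDegree - i) * (g.natDegree : ℝ) ^ (g.natDegree - i) := by gcongr
      _ < (r / g.natDegree) ^ (g.natDegree - i) * (g.natDegree : ℝ) ^ (g.natDegree - i) := by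
          gcongr
      _ = r ^ (g.natDegree - i) := by
          rw [← mul_pow]
          congr 1
          field_simp
  linarith

lemma prod_preim {g : L[X]} (hg : 1 ≤ g.natDegree) {A : ℝ} (hA : 0 < A)
    (hAa : A ^ (g.natDegree - 1) = ‖g.leadingCoeff‖) {w : L} (n : ℕ) :
    ∀ y : L, ((preim g w n).map (fun b => ‖y - b‖)).prod * A ^ (g.natDegree ^ n) =
      ‖(fun z => g.eval z)^[n] y - w‖ * A := by
  induction n with
  | zero =>
    intro y
    simp [preim_zero]
  | succ n ih =>
    intro y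
    rw [preim_succ, Multiset.map_bind, Multiset.prod_bind, Function.iterate_succ_apply, ← ih]
    have h1 : (preim g w n).map (fun z => ((g - C z).roots.map (fun b => ‖y - b‖)).prod) =
        (preim g w n).map (fun z => ‖g.eval y - z‖ * (‖g.leadingCoeff‖)⁻¹) := by
      refine Multiset.map_congr rfl (fun z _ => ?_)
      have hlc : 0 < ‖g.leadingCoeff‖ := by rw [← hAa]; positivity
      rw [norm_eval_sub_eq hg]
      field_simp
    rw [h1, Multiset.prod_map_mul, Multiset.map_const', Multiset.prod_replicate, card_preim,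
      ← hAa]
    have h2 : g.natDegree ^ (n + 1) = (g.natDegree - 1) * g.natDegree ^ n + g.natDegree ^ n := by
      obtain ⟨e, he⟩ : ∃ e, g.natDegree = e + 1 := ⟨g.natDegree - 1, by omega⟩
      rw [he]
      simp only [Nat.add_sub_cancel]
      ring
    have h3 : ((A ^ (g.natDegree - 1))⁻¹) ^ g.natDegree ^ n *
        (A ^ (g.natDegree - 1)) ^ g.natDegree ^ n = 1 := by
      rw [← mul_pow, inv_mul_cancel₀ (by positivity), one_pow]
    rw [h2, pow_add, pow_mul]
    calc ((preim g w n).map (fun z => ‖g.eval y - z‖)).prod *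
          ((A ^ (g.natDegree - 1))⁻¹) ^ g.natDegree ^ n *
          ((A ^ (g.natDegree - 1)) ^ g.natDegree ^ n * A ^ g.natDegree ^ n)
        = (((A ^ (g.natDegree - 1))⁻¹) ^ g.natDegree ^ n *
          (A ^ (g.natDegree - 1)) ^ g.natDegree ^ n) *
          (((preim g w n).map (fun z => ‖g.eval y - z‖)).prod * A ^ g.natDegree ^ n) := by ring
      _ = _ := by rw [h3, one_mul]

end roots

section gap

variable {L : Type*} [NormedField L] [IsAlgClosed L]

/-- Energy gain when a set of preperiodic points stays away from a preperiodic point, for a large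
escape radius. -/
theorem arch_gap {g : L[X]} {d : ℕ} (hgd : g.natDegree = d) (hd2 : 2 ≤ d) {A r : ℝ}
    (hA : 0 < A) (hAa : A ^ (d - 1) = ‖g.leadingCoeff‖) (hr : IsRadius g r)
    (hbig : 4096 * (d : ℝ) ^ 4 ≤ r * A) (h0 : Preper (fun z => g.eval z) 0) (Y : Finset L)
    (hY : ∀ x ∈ Y, Preper (fun z => g.eval z) x) {z : L} (hz : Preper (fun z => g.eval z) z)
    (hgap : ∀ x ∈ Y, r / (2 * d) ≤ ‖x - z‖) :
    logEnergy (fun x => ‖x‖) A Y ≤ Real.log (r * A) *
      (- (Y.card : ℝ) ^ 2 / (2 * d ^ 2) + 6 * d ^ 2 * Y.card) +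
      2 * (Y.card * (1 + Real.log Y.card)) := by
  classical
  have hgd2 : 2 ≤ g.natDegree := by omega
  have hrpos := hr.pos
  have hdR : (2 : ℝ) ≤ d := by exact_mod_cast hd2
  have hd0 : (0 : ℝ) < d := by linarith
  rcases Finset.eq_empty_or_nonempty Y with rfl | hYne
  · simp [logEnergy]
  have hN : (0 : ℝ) < Y.card := by exact_mod_cast hYne.card_pos
  have hrApos : 0 < r * A := by positivity
  have hd4 : (1 : ℝ) ≤ (d : ℝ) ^ 4 := one_le_pow₀ (by linarith)
  have hrA1 : 1 < r * A := by linarith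
  set lam : ℝ := Real.log (r * A) with hlam
  have hlampos : 0 < lam := Real.log_pos hrA1
  have hexplam : Real.exp lam = r * A := Real.exp_log hrApos
  have hlog4 : Real.log 4 ≤ lam := by
    apply Real.log_le_log (by norm_num)
    linarith
  -- preimages of zero
  set s : Multiset L := preim g 0 2 with hs
  set δ : ℝ := r / (4 * d) with hδ
  have hδpos : 0 < δ := by positivity
  have hscard : s.card = d ^ 2 := by rw [hs, card_preim, hgd]
  have hnear : 2 ≤ Multiset.countP (fun b => ‖z - b‖ ≤ δ) s := by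
    have h1 : d ≤ Multiset.countP (fun b => ‖z - b‖ ≤ δ) s := by
      rw [hs, countP_preim_succ]
      have hcard : d = Multiset.countP (fun _ => True) (preim g 0 1) := by
        rw [Multiset.countP_True, card_preim, hgd, pow_one]
      conv_lhs => rw [hcard]
      refine countP_le_sum_map _ _ _ (fun y hy _ => ?_)
      rw [Nat.one_le_iff_ne_zero, Ne, Multiset.countP_eq_zero]
      push Not
      by_contra hcon
      push Not at hcon
      rw [preim_succ, preim_zero, Multiset.singleton_bind] at hy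
      have hy0 : g.eval y = 0 := eval_of_mem_roots (by omega) hy
      have hypre : Preper (fun z => g.eval z) y := by
        obtain ⟨i, j, hij, he⟩ := h0
        refine ⟨i + 1, j + 1, by omega, ?_⟩
        rw [Function.iterate_succ_apply, Function.iterate_succ_apply]
        show (fun z => g.eval z)^[i] (g.eval y) = (fun z => g.eval z)^[j] (g.eval y)
        rw [hy0]
        exact he
      have hy4 := hr.preper_le_arch hgd2 hypre
      have hz4 := hr.preper_le_arch hgd2 hz.apply
      have h2 : ‖g.eval z - y‖ ≤ 8 * r := by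
        refine (norm_sub_le _ _).trans ?_
        have : ‖g.eval z‖ ≤ 4 * r := hz4
        linarith
      have h3 := norm_eval_sub_eq (g := g) (by omega) z y
      have h4 : δ ^ d ≤ ((g - C y).roots.map (fun b => ‖z - b‖)).prod := by
        have hc : (g - C y).roots.card = d := by rw [roots_sub_card, hgd]
        rw [← hc]
        have hcon' : ∀ b ∈ (g - C y).roots, δ ≤ ‖z - b‖ := fun b hb => (hcon b hb).le
        revert hcon'
        generalize (g - C y).roots = t
        induction t using Multiset.induction_on with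
        | empty => intro _; simp
        | cons a t ih =>
          intro ht
          rw [Multiset.card_cons, pow_succ, Multiset.map_cons, Multiset.prod_cons, mul_comm]
          exact mul_le_mul (ht a (Multiset.mem_cons_self a t))
            (ih (fun b hb => ht b (Multiset.mem_cons_of_mem hb))) (by positivity) (norm_nonneg _)
      have h4' : δ ^ d < ((g - C y).roots.map (fun b => ‖z - b‖)).prod ∨
          δ ^ d = ((g - C y).roots.map (fun b => ‖z - b‖)).prod := lt_or_eq_of_le h4
      have h5 : 16 * r ≤ ‖g.leadingCoeff‖ * δ ^ d := by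
        rw [← hAa, hδ, div_pow]
        have h6 : 16 * (4 * (d : ℝ)) ^ d ≤ (r * A) ^ (d - 1) := by
          calc 16 * (4 * (d : ℝ)) ^ d ≤ 16 ^ (d - 1) * (4 * (d : ℝ)) ^ (4 * (d - 1)) := by
                have e1 : (16 : ℝ) ≤ 16 ^ (d - 1) := by
                  calc (16 : ℝ) = 16 ^ 1 := (pow_one _).symm
                    _ ≤ 16 ^ (d - 1) := pow_le_pow_right₀ (by norm_num) (by omega)
                have e2 : (4 * (d : ℝ)) ^ d ≤ (4 * (d : ℝ)) ^ (4 * (d - 1)) :=
                  pow_le_pow_right₀ (by linarith) (by omega)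
                gcongr
            _ = (4096 * (d : ℝ) ^ 4) ^ (d - 1) := by
                rw [pow_mul, ← mul_pow]
                congr 1
                ring
            _ ≤ (r * A) ^ (d - 1) := by gcongr
        have h7 : A ^ (d - 1) * (r ^ d / (4 * (d : ℝ)) ^ d) =
            (r * A) ^ (d - 1) * r / (4 * (d : ℝ)) ^ d := by
          obtain ⟨e, rfl⟩ : ∃ e, d = e + 1 := ⟨d - 1, by omega⟩
          simp only [Nat.add_sub_cancel]
          rw [mul_pow]
          ring
        rw [h7, le_div_iff₀ (by positivity)]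
        calc 16 * r * (4 * (d : ℝ)) ^ d = (16 * (4 * (d : ℝ)) ^ d) * r := by ring
          _ ≤ (r * A) ^ (d - 1) * r := by gcongr
      have hlc := hr.lc_pos
      have h8 : ‖g.leadingCoeff‖ * δ ^ d ≤ ‖g.eval z - y‖ := by
        rw [h3]
        gcongr
      linarith
    omega
  set near : Multiset L := s.filter (fun b => ‖z - b‖ ≤ δ) with hneardef
  set far : Multiset L := s.filter (fun b => ¬ ‖z - b‖ ≤ δ) with hfardef
  have hsplit : near + far = s := Multiset.filter_add_not _ _
  have hnearcard : 2 ≤ near.card := by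
    rw [hneardef, ← Multiset.countP_eq_card_filter]
    exact hnear
  set P : L[X] := (far.map (fun b => X - C b)).prod with hP
  have hPm : P.Monic := monic_multiset_prod_of_monic _ _ (fun b _ => monic_X_sub_C b)
  have hPd : P.natDegree = far.card := natDegree_multiset_prod_X_sub_C_eq_card far
  have hPeval : ∀ x, ‖P.eval x‖ = (far.map (fun b => ‖x - b‖)).prod := by
    intro x
    rw [hP, eval_multiset_prod, norm_multiset_prod, Multiset.map_map, Multiset.map_map]
    congr 1
    refine Multiset.map_congr rfl (fun b _ => ?_)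
    simp
  have hcards : near.card + far.card = d ^ 2 := by
    rw [← hscard, ← hsplit, Multiset.card_add]
  have hPbound : ∀ x ∈ Y, ‖P.eval x‖ * A ^ P.natDegree ≤ Real.exp (-(lam / 2)) := by
    intro x hx
    have h1 := prod_preim (g := g) (by omega) hA (hgd ▸ hAa) (w := 0) 2 x
    rw [sub_zero, hgd, ← hs, ← hsplit, Multiset.map_add, Multiset.prod_add] at h1
    have h2 : ‖(fun z => g.eval z)^[2] x‖ ≤ 4 * r := hr.preper_le_arch hgd2 ((hY x hx).iterate 2)
    have h3 : δ ^ near.card ≤ (near.map (fun b => ‖x - b‖)).prod := by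
      have h4 : ∀ b ∈ near, δ ≤ ‖x - b‖ := by
        intro b hb
        have hb' : ‖z - b‖ ≤ δ := (Multiset.mem_filter.mp hb).2
        have h5 := hgap x hx
        have h6 : ‖x - z‖ ≤ ‖x - b‖ + ‖z - b‖ := by
          have : x - z = (x - b) - (z - b) := by ring
          rw [this]
          exact norm_sub_le _ _
        have h7 : r / (2 * d) = 2 * δ := by rw [hδ]; field_simp; ring
        linarith
      revert h4
      generalize near = t
      induction t using Multiset.induction_on with
      | empty => intro _; simp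
      | cons a t ih =>
        intro ht
        rw [Multiset.card_cons, pow_succ, Multiset.map_cons, Multiset.prod_cons, mul_comm]
        exact mul_le_mul (ht a (Multiset.mem_cons_self a t))
          (ih (fun b hb => ht b (Multiset.mem_cons_of_mem hb))) (by positivity) (norm_nonneg _)
    rw [hPeval, hPd]
    set Q := (far.map (fun b => ‖x - b‖)).prod with hQ
    have hQ0 : 0 ≤ Q := by rw [hQ, ← hPeval]; exact norm_nonneg _
    have h8 : (δ * A) ^ near.card * (Q * A ^ far.card) ≤ 4 * (r * A) := by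
      calc (δ * A) ^ near.card * (Q * A ^ far.card)
          = (δ ^ near.card * Q) * A ^ (near.card + far.card) := by
            rw [mul_pow, pow_add]; ring
        _ ≤ ((near.map (fun b => ‖x - b‖)).prod * Q) * A ^ (near.card + far.card) := by gcongr
        _ = ‖(fun z => g.eval z)^[2] x‖ * A := by rw [hcards]; exact h1
        _ ≤ (4 * r) * A := by gcongr
        _ = 4 * (r * A) := by ring
    have hδA : δ * A = (r * A) / (4 * d) := by rw [hδ]; ring
    have hδA1 : 1 ≤ δ * A := by
      rw [hδA, one_le_div (by positivity)]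
      have : (4 : ℝ) * d ≤ 4096 * d ^ 4 := by
        have h9 : (d : ℝ) ≤ d ^ 4 := by
          calc (d : ℝ) = d ^ 1 := (pow_one _).symm
            _ ≤ d ^ 4 := pow_le_pow_right₀ (by linarith) (by norm_num)
        nlinarith
      linarith
    have h9 : (δ * A) ^ 2 * (Q * A ^ far.card) ≤ 4 * (r * A) := by
      refine le_trans ?_ h8
      have : (δ * A) ^ 2 ≤ (δ * A) ^ near.card := pow_le_pow_right₀ hδA1 hnearcard
      gcongr
    have h10 : Q * A ^ far.card ≤ 64 * d ^ 2 / (r * A) := by
      rw [le_div_iff₀ hrApos]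
      rw [hδA] at h9
      have h11 : (r * A / (4 * d)) ^ 2 * (Q * A ^ far.card) =
          (Q * A ^ far.card * (r * A)) * (r * A) / (16 * d ^ 2) := by
        field_simp
        ring
      rw [h11, div_le_iff₀ (by positivity)] at h9
      have h12 : Q * A ^ far.card * (r * A) * (r * A) ≤ (64 * d ^ 2) * (r * A) := by
        calc Q * A ^ far.card * (r * A) * (r * A) ≤ 4 * (r * A) * (16 * d ^ 2) := h9
          _ = (64 * d ^ 2) * (r * A) := by ring
      exact le_of_mul_le_mul_right h12 hrApos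
    refine h10.trans ?_
    have h13 : (Real.exp (-(lam / 2))) ^ 2 = (r * A)⁻¹ := by
      rw [← Real.exp_nat_mul, ← hexplam, ← Real.exp_neg]
      congr 1
      push_cast
      ring
    have h14 : (64 * (d : ℝ) ^ 2 / (r * A)) ^ 2 ≤ (Real.exp (-(lam / 2))) ^ 2 := by
      rw [h13, div_pow, div_le_iff₀ (by positivity), sq (r * A), ← mul_assoc,
        inv_mul_cancel₀ hrApos.ne', one_mul]
      calc (64 * (d : ℝ) ^ 2) ^ 2 = 4096 * d ^ 4 := by ring
        _ ≤ r * A := hbig
    exact le_of_pow_le_pow_left₀ (by norm_num) (Real.exp_pos _).le h14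
  -- degree is positive
  have hM1 : 1 ≤ P.natDegree := by
    by_contra h
    have hz : P.natDegree = 0 := by omega
    obtain ⟨x, hx⟩ := hYne
    have h1 := hPbound x hx
    have h2 : P = 1 := by
      rw [eq_C_of_natDegree_eq_zero hz]
      have := hPm.leadingCoeff
      rw [leadingCoeff, hz] at this
      rw [this, C_1]
    rw [h2] at h1
    simp only [eval_one, norm_one, natDegree_one, pow_zero, mul_one] at h1
    have : Real.exp (-(lam / 2)) < 1 := by
      rw [Real.exp_lt_one_iff]
      linarith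
    linarith
  have hMle : (P.natDegree : ℝ) ≤ d ^ 2 := by
    have : P.natDegree ≤ d ^ 2 := by rw [hPd]; omega
    exact_mod_cast this
  set M : ℕ := P.natDegree with hM
  have hM0 : (0 : ℝ) < M := by exact_mod_cast hM1
  set γ : ℝ := Real.log 4 + lam with hγ
  have hγ0 : 0 ≤ γ := by
    have : 0 ≤ Real.log 4 := Real.log_nonneg (by norm_num)
    linarith
  have hx4 : ∀ x ∈ Y, ‖x‖ * A ≤ Real.exp γ := by
    intro x hx
    rw [hγ, Real.exp_add, Real.exp_log (by norm_num), hexplam]
    have := hr.preper_le_arch hgd2 (hY x hx)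
    calc ‖x‖ * A ≤ (4 * r) * A := by gcongr
      _ = 4 * (r * A) := by ring
  have key := fekete_arch Y (fun j => basisPoly P M j) (fun j => basisPoly_monic hPm _ _)
    (fun j => basisPoly_natDegree hPm j) hA
    (fun j => -(lam / 2) * ((j / M : ℕ) : ℝ) + γ * ((j % M : ℕ) : ℝ)) (fun x hx j _ => by
      have h1 := eval_basisPoly_norm_le hA (hPbound x hx) (hx4 x hx) j
      rw [Real.exp_sub, Real.exp_nat_mul, Real.exp_log hA, le_div_iff₀ (pow_pos hA _)] at h1
      exact h1)
  refine key.trans ?_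
  rw [Finset.sum_add_distrib, ← Finset.mul_sum, ← Finset.mul_sum]
  set N : ℝ := (Y.card : ℝ) with hNdef
  have s1 := sum_div_ge Y.card M hM1
  have s2 := sum_mod_le Y.card M hM1
  have s3 := sum_mod_nonneg Y.card M
  have t1 : lam / 2 * (N * (N - 1) / (2 * M) - N) ≤
      lam / 2 * ∑ j : Fin Y.card, (((j : ℕ) / M : ℕ) : ℝ) := by gcongr
  have t2 : γ * ∑ j : Fin Y.card, (((j : ℕ) % M : ℕ) : ℝ) ≤ (2 * lam) * (N * d ^ 2) := by
    have : γ ≤ 2 * lam := by rw [hγ]; linarith
    have h3 : ∑ j : Fin Y.card, (((j : ℕ) % M : ℕ) : ℝ) ≤ N * d ^ 2 := by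
      refine s2.trans ?_
      gcongr
    gcongr
  have t3 : lam * N ^ 2 / (2 * d ^ 2) ≤ lam * N ^ 2 / (2 * M) := by gcongr
  have t4 : lam / 2 * (N * (N - 1) / (2 * M) - N) =
      (lam * N ^ 2 / (2 * M)) / 2 - lam * N / (4 * M) - lam * N / 2 := by
    field_simp
    ring
  have t5 : lam * N / (4 * M) ≤ lam * N / 4 := by
    have : (1 : ℝ) ≤ M := by exact_mod_cast hM1
    have h4 : (4 : ℝ) ≤ 4 * M := by linarith
    gcongr
  have t6 : (4 : ℝ) ≤ d ^ 2 := by nlinarith
  have t7 : lam * N * 4 ≤ lam * N * d ^ 2 := by gcongr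
  have t8 : lam * (-N ^ 2 / (2 * (d : ℝ) ^ 2) + 6 * d ^ 2 * N) =
      - (lam * N ^ 2 / (2 * d ^ 2)) + 6 * (lam * N * d ^ 2) := by ring
  have t9 : 2 * lam * (N * (d : ℝ) ^ 2) = 2 * (lam * N * d ^ 2) := by ring
  have t10 : 0 ≤ lam * N * (d : ℝ) ^ 2 := by positivity
  rw [t8]
  rw [t9] at t2
  linarith

end gap

end Pool.Agent.UBC90787a
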