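import Mathlib

set_option autoImplicit false

/-!
Facts about the places of a number field.
-/

namespace Pool.Agent.UBC90787a

open NumberField NumberField.FinitePlace Finset

/-- Every finite place extends to an algebraically closed ultrametric field. -/
theorem exists_ultra_field {K : Type} [Field K] [NumberField K] (v : FinitePlace K) :
    ∃ (L : Type) (_ : NormedField L) (_ : IsUltrametricDist L) (_ : IsAlgClosed L) (ι : K →+* L),
      ∀ x, ‖ι x‖ = v x := by
  classical
  let n2 : NontriviallyNormedField ((maximalIdeal v).adicCompletion K) :=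
    Valued.toNontriviallyNormedField ((maximalIdeal v).adicCompletion K)
      (WithZero (Multiplicative ℤ))
  have u : IsUltrametricDist ((maximalIdeal v).adicCompletion K) := inferInstance
  have c : CompleteSpace ((maximalIdeal v).adicCompletion K) := inferInstance
  let n3 : NormedField (AlgebraicClosure ((maximalIdeal v).adicCompletion K)) :=
    spectralNorm.normedField ((maximalIdeal v).adicCompletion K) _
  have hnorm : ∀ x : AlgebraicClosure ((maximalIdeal v).adicCompletion K),
    ‖x‖ = spectralNorm ((maximalIdeal v).adicCompletion K) _ x := fun _ => rfl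
  refine ⟨AlgebraicClosure ((maximalIdeal v).adicCompletion K), n3, ?_, inferInstance,
    (algebraMap ((maximalIdeal v).adicCompletion K) _).comp (embedding (maximalIdeal v)), ?_⟩
  · refine ⟨fun x y z => ?_⟩
    have := isNonarchimedean_spectralNorm (K := ((maximalIdeal v).adicCompletion K))
      (L := AlgebraicClosure ((maximalIdeal v).adicCompletion K)) (x - y) (y - z)
    rw [sub_add_sub_cancel] at this
    exact this
  · intro x
    rw [RingHom.comp_apply, hnorm, spectralNorm_extends]
    exact norm_embedding_eq v x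

variable {K : Type} [Field K] [NumberField K]

/-- The cardinality of the residue field at a finite place. -/
noncomputable def qv (v : FinitePlace K) : ℕ := Ideal.absNorm v.maximalIdeal.asIdeal

lemma two_le_qv (v : FinitePlace K) : 2 ≤ qv v :=
  HeightOneSpectrum.one_lt_absNorm v.maximalIdeal

lemma qv_pos (v : FinitePlace K) : (0 : ℝ) < qv v := by
  have := two_le_qv v
  exact_mod_cast (by omega : 0 < qv v)

lemma one_lt_qv (v : FinitePlace K) : (1 : ℝ) < qv v := by
  have := two_le_qv v
  exact_mod_cast (by omega : 1 < qv v)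

lemma exists_zpow_int (v : FinitePlace K) {x : 𝓞 K} (hx : x ≠ 0) :
    ∃ k : ℤ, v (x : K) = (qv v : ℝ) ^ k := by
  have h := apply_mul_absNorm_pow_eq_one v hx
  refine ⟨-(multiplicity v.maximalIdeal.asIdeal (Ideal.span {x}) : ℤ), ?_⟩
  rw [zpow_neg, zpow_natCast]
  exact eq_inv_of_mul_eq_one_left h

/-- The value group of a finite place is generated by the residue cardinality. -/
lemma exists_zpow (v : FinitePlace K) {x : K} (hx : x ≠ 0) :
    ∃ k : ℤ, v x = (qv v : ℝ) ^ k := by
  rcases IsFractionRing.div_surjective (𝓞 K) x with ⟨a, b, hb, rfl⟩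
  have hb0 : b ≠ 0 := nonZeroDivisors.ne_zero hb
  have ha0 : a ≠ 0 := by
    rintro rfl
    simp at hx
  obtain ⟨k, hk⟩ := exists_zpow_int v ha0
  obtain ⟨l, hl⟩ := exists_zpow_int v hb0
  refine ⟨k - l, ?_⟩
  rw [map_div₀, zpow_sub₀ (qv_pos v).ne', ← hk, ← hl]

lemma exists_one_lt (v : FinitePlace K) : ∃ x : K, 1 < v x := by
  obtain ⟨p, hp, hp0⟩ := Submodule.exists_mem_ne_zero_of_ne_bot v.maximalIdeal.ne_bot
  have h1 : v (p : K) < 1 := by
    rw [← norm_embedding_eq]
    exact (norm_lt_one_iff_mem K v.maximalIdeal p).mpr hp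
  have hpK : (p : K) ≠ 0 := by exact_mod_cast hp0
  have h2 : 0 < v (p : K) := pos_iff.mpr hpK
  refine ⟨(p : K)⁻¹, ?_⟩
  rw [map_inv₀]
  exact (one_lt_inv₀ h2).mpr h1

/-- Product formula, additive form, with a finite set of finite places. -/
lemma sum_log_eq_zero {x : K} (hx : x ≠ 0) (F : Finset (FinitePlace K))
    (hF : ∀ v, v ∉ F → v x = 1) :
    ∑ w : InfinitePlace K, (w.mult : ℝ) * Real.log (w x) + ∑ v ∈ F, Real.log (v x) = 0 := by
  have h := prod_abs_eq_one hx
  have h1 : ∏ᶠ v : FinitePlace K, v x = ∏ v ∈ F, v x := by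
    refine finprod_eq_prod_of_mulSupport_subset _ ?_
    intro v hv
    by_contra hvF
    exact hv (hF v (by simpa using hvF))
  rw [h1] at h
  have hw : ∀ w : InfinitePlace K, 0 < w x ^ w.mult := fun w => by
    have : 0 < w x := InfinitePlace.pos_iff.mpr hx
    positivity
  have hv : ∀ v : FinitePlace K, 0 < v x := fun v => pos_iff.mpr hx
  have h2 := congrArg Real.log h
  rw [Real.log_mul (Finset.prod_pos (fun w _ => hw w)).ne' (Finset.prod_pos (fun v _ => hv v)).ne',
    Real.log_prod (fun w _ => (hw w).ne'), Real.log_prod (fun v _ => (hv v).ne'),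
    Real.log_one] at h2
  rw [← h2]
  congr 1
  refine Finset.sum_congr rfl (fun w _ => ?_)
  rw [Real.log_pow]

lemma exists_finset_places (S : Finset K) :
    ∃ F : Finset (FinitePlace K), ∀ v, v ∉ F → ∀ x ∈ S, x ≠ 0 → v x = 1 := by
  classical
  have h : ∀ x : K, ∃ F : Finset (FinitePlace K), ∀ v, v ∉ F → x ≠ 0 → v x = 1 := by
    intro x
    by_cases hx : x = 0
    · exact ⟨∅, fun v _ h => absurd hx h⟩
    · have hfin := hasFiniteMulSupport hx
      refine ⟨hfin.toFinset, fun v hv _ => ?_⟩
      rw [Set.Finite.mem_toFinset, Function.mem_mulSupport] at hv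
      push Not at hv
      exact hv
  choose F hF using h
  refine ⟨S.biUnion F, fun v hv x hx hx0 => ?_⟩
  refine hF x v (fun h => hv ?_) hx0
  exact Finset.mem_biUnion.mpr ⟨x, hx, h⟩

end Pool.Agent.UBC90787a
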