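import Mathlib

set_option autoImplicit false

/-!
Positivity of the logarithmic energy on an ultrametric space, with a lower bound coming from
the mass of a nested family of discs.
-/

namespace Pool.Agent.UBC90787a

open Finset

section PSD

variable {L : Type*} [NormedField L] [IsUltrametricDist L]

open Classical in
lemma sq_sum_disc_le (P : Finset L) (σ : L → ℝ) (z : L) {ρ : ℝ} (hρ : 0 ≤ ρ) :
    (∑ p ∈ P.filter (fun p => ‖p - z‖ ≤ ρ), σ p) ^ 2 ≤
      ∑ p ∈ P, ∑ p' ∈ P, σ p * σ p' * (if ‖p - p'‖ ≤ ρ then 1 else 0) := by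
  set c : L → Finset L := fun p => P.filter (fun p' => ‖p - p'‖ ≤ ρ) with hc
  have htrans : ∀ x y w : L, ‖x - y‖ ≤ ρ → ‖y - w‖ ≤ ρ → ‖x - w‖ ≤ ρ := by
    intro x y w h1 h2
    have : x - w = (x - y) + (y - w) := by ring
    rw [this]
    exact (IsUltrametricDist.norm_add_le_max _ _).trans (max_le h1 h2)
  have hiff : ∀ p ∈ P, ∀ p' ∈ P, (‖p - p'‖ ≤ ρ ↔ c p' = c p) := by
    intro p hp p' hp'
    constructor
    · intro h
      ext q
      simp only [hc, Finset.mem_filter]
      refine and_congr_right (fun _ => ?_)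
      exact ⟨fun h1 => htrans _ _ _ h h1, fun h1 => htrans _ _ _ (by rwa [norm_sub_rev]) h1⟩
    · intro h
      have h1 : p' ∈ c p' := by simp [hc, hp', hρ]
      rw [h] at h1
      exact (Finset.mem_filter.mp h1).2
  have hsq : ∑ p ∈ P, ∑ p' ∈ P, σ p * σ p' * (if ‖p - p'‖ ≤ ρ then (1 : ℝ) else 0) =
      ∑ C ∈ P.image c, (∑ p ∈ P.filter (fun p => c p = C), σ p) ^ 2 := by
    rw [← Finset.sum_fiberwise_of_maps_to (g := c) (t := P.image c)
      (fun p hp => Finset.mem_image_of_mem c hp)]
    refine Finset.sum_congr rfl (fun C _ => ?_)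
    rw [sq, Finset.sum_mul]
    refine Finset.sum_congr rfl (fun p hp => ?_)
    obtain ⟨hpP, hpC⟩ := Finset.mem_filter.mp hp
    rw [Finset.mul_sum, Finset.sum_filter]
    refine Finset.sum_congr rfl (fun p' hp' => ?_)
    by_cases h : ‖p - p'‖ ≤ ρ
    · rw [if_pos h, if_pos (((hiff p hpP p' hp').mp h).trans hpC), mul_one]
    · rw [if_neg h, mul_zero, if_neg]
      intro h'
      exact h ((hiff p hpP p' hp').mpr (h'.trans hpC.symm))
  rw [hsq]
  rcases Finset.eq_empty_or_nonempty (P.filter (fun p => ‖p - z‖ ≤ ρ)) with he | ⟨p0, hp0⟩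
  · rw [he, Finset.sum_empty]
    have : (0 : ℝ) ^ 2 = 0 := by norm_num
    rw [this]
    exact Finset.sum_nonneg (fun _ _ => sq_nonneg _)
  · obtain ⟨hp0P, hp0z⟩ := Finset.mem_filter.mp hp0
    have hD : P.filter (fun p => ‖p - z‖ ≤ ρ) = P.filter (fun p => c p = c p0) := by
      ext q
      simp only [Finset.mem_filter]
      refine and_congr_right (fun hq => ?_)
      rw [← hiff p0 hp0P q hq]
      constructor
      · intro h
        exact htrans _ z _ hp0z (by rwa [norm_sub_rev])
      · intro h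
        exact htrans _ p0 _ (by rwa [norm_sub_rev]) hp0z
    rw [hD]
    exact Finset.single_le_sum (f := fun C => (∑ p ∈ P.filter (fun p => c p = C), σ p) ^ 2)
      (fun _ _ => sq_nonneg _) (Finset.mem_image_of_mem c hp0P)

end PSD

lemma integral_step {c ε T : ℝ} (hε : 0 < ε) (hT : Real.log (max c ε) ≤ T) :
    ∫ t in (Real.log ε)..T, (if c ≤ Real.exp t then (1 : ℝ) else 0) =
      T - Real.log (max c ε) := by
  have hm : 0 < max c ε := lt_max_of_lt_right hε
  have h1 : Real.log ε ≤ Real.log (max c ε) := Real.log_le_log hε (le_max_right _ _)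
  have hint : ∀ a b : ℝ, IntervalIntegrable
      (fun t => if c ≤ Real.exp t then (1 : ℝ) else 0) MeasureTheory.volume a b := by
    intro a b
    apply Monotone.intervalIntegrable
    intro s t hst
    by_cases h : c ≤ Real.exp s
    · simp [h, h.trans (Real.exp_le_exp.mpr hst)]
    · simp only [h, if_false]
      split_ifs <;> norm_num
  rw [← intervalIntegral.integral_add_adjacent_intervals (hint _ (Real.log (max c ε)))
    (hint _ _)]
  have e1 : ∫ t in (Real.log ε)..(Real.log (max c ε)), (if c ≤ Real.exp t then (1 : ℝ) else 0)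
      = 0 := by
    rw [intervalIntegral.integral_congr_Ioo_of_le h1 (g := fun _ => (0 : ℝ))]
    · simp
    · intro t ht
      have h3 : Real.exp t < max c ε := by
        rw [← Real.exp_log hm]
        exact Real.exp_lt_exp.mpr ht.2
      have h4 : ε < Real.exp t := by
        rw [← Real.exp_log hε]
        exact Real.exp_lt_exp.mpr ht.1
      have h5 : Real.exp t < c := by
        rcases lt_max_iff.mp h3 with h | h
        · exact h
        · exact absurd (h.trans h4) (lt_irrefl _)
      simp [not_le.mpr h5]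
  have e2 : ∫ t in (Real.log (max c ε))..T, (if c ≤ Real.exp t then (1 : ℝ) else 0)
      = T - Real.log (max c ε) := by
    rw [intervalIntegral.integral_congr_Ioo_of_le hT (g := fun _ => (1 : ℝ))]
    · simp
    · intro t ht
      have h3 : max c ε < Real.exp t := by
        rw [← Real.exp_log hm]
        exact Real.exp_lt_exp.mpr ht.1
      simp [(le_max_left c ε).trans h3.le]
  rw [e1, e2, zero_add]

lemma intervalIntegrable_sum' {ι : Type*} (s : Finset ι) (f : ι → ℝ → ℝ) (a b : ℝ)
    (h : ∀ i ∈ s, IntervalIntegrable (f i) MeasureTheory.volume a b) :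
    IntervalIntegrable (fun t => ∑ i ∈ s, f i t) MeasureTheory.volume a b := by
  have := IntervalIntegrable.sum s h
  have e : (fun t => ∑ i ∈ s, f i t) = ∑ i ∈ s, f i := by
    ext t
    simp
  rw [e]
  exact this

section main

variable {L : Type*} [NormedField L] [IsUltrametricDist L]

theorem energy_ge (P : Finset L) (σ : L → ℝ) (h0 : ∑ p ∈ P, σ p = 0) (z : L) {ε : ℝ}
    (hε : 0 < ε) {a b η : ℝ} (hab : a ≤ b) (hεa : Real.log ε ≤ a) (hη : 0 ≤ η)
    (h : ∀ t ∈ Set.Ico a b, η ≤ |∑ p ∈ P with ‖p - z‖ ≤ Real.exp t, σ p|) :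
    η ^ 2 * (b - a) ≤ ∑ p ∈ P, ∑ p' ∈ P, σ p * σ p' * (- Real.log (max ‖p - p'‖ ε)) := by
  classical
  obtain ⟨T, hTb, hT⟩ : ∃ T : ℝ, b ≤ T ∧ ∀ p ∈ P, ∀ p' ∈ P, Real.log (max ‖p - p'‖ ε) ≤ T := by
    obtain ⟨T0, hT0⟩ := ((P ×ˢ P).image
      (fun q => Real.log (max ‖q.1 - q.2‖ ε))).exists_le
    refine ⟨max b T0, le_max_left _ _, fun p hp p' hp' => le_max_of_le_right ?_⟩
    exact hT0 _ (Finset.mem_image_of_mem
      (fun q : L × L => Real.log (max ‖q.1 - q.2‖ ε)) (Finset.mk_mem_product hp hp'))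
  set G : ℝ → ℝ := fun t => ∑ p ∈ P, ∑ p' ∈ P,
    σ p * σ p' * (if ‖p - p'‖ ≤ Real.exp t then 1 else 0) with hG
  have hstep : ∀ (c s t : ℝ), IntervalIntegrable
      (fun t => if c ≤ Real.exp t then (1 : ℝ) else 0) MeasureTheory.volume s t := by
    intro c s t
    apply Monotone.intervalIntegrable
    intro s t hst
    by_cases h : c ≤ Real.exp s
    · simp [h, h.trans (Real.exp_le_exp.mpr hst)]
    · simp only [h, if_false]
      split_ifs <;> norm_num
  have hGint : ∀ s t : ℝ, IntervalIntegrable G MeasureTheory.volume s t := by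
    intro s t
    have : G = fun t => ∑ p ∈ P, ∑ p' ∈ P,
        σ p * σ p' * (if ‖p - p'‖ ≤ Real.exp t then 1 else 0) := hG
    rw [this]
    refine intervalIntegrable_sum' _ _ _ _ (fun p _ => ?_)
    refine intervalIntegrable_sum' _ _ _ _ (fun p' _ => ?_)
    exact (hstep _ s t).const_mul _
  have hGnonneg : ∀ t, 0 ≤ G t := fun t =>
    (sq_nonneg _).trans (sq_sum_disc_le P σ z (Real.exp_pos t).le)
  have hInt : ∫ t in (Real.log ε)..T, G t =
      ∑ p ∈ P, ∑ p' ∈ P, σ p * σ p' * (- Real.log (max ‖p - p'‖ ε)) := by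
    have e1 : ∫ t in (Real.log ε)..T, G t = ∑ p ∈ P, ∑ p' ∈ P,
        σ p * σ p' * (T - Real.log (max ‖p - p'‖ ε)) := by
      rw [hG, intervalIntegral.integral_finsetSum]
      · refine Finset.sum_congr rfl (fun p hp => ?_)
        rw [intervalIntegral.integral_finsetSum]
        · refine Finset.sum_congr rfl (fun p' hp' => ?_)
          rw [intervalIntegral.integral_const_mul, integral_step hε (hT p hp p' hp')]
        · intro p' _
          exact (hstep _ _ _).const_mul _
      · intro p _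
        refine intervalIntegrable_sum' _ _ _ _ (fun p' _ => ?_)
        exact (hstep _ _ _).const_mul _
    rw [e1]
    have e2 : ∀ p ∈ P, ∑ p' ∈ P, σ p * σ p' * (T - Real.log (max ‖p - p'‖ ε)) =
        σ p * T * (∑ p' ∈ P, σ p') + ∑ p' ∈ P, σ p * σ p' * (- Real.log (max ‖p - p'‖ ε)) := by
      intro p _
      rw [Finset.mul_sum, ← Finset.sum_add_distrib]
      refine Finset.sum_congr rfl (fun p' _ => ?_)
      ring
    rw [Finset.sum_congr rfl e2, Finset.sum_add_distrib]
    simp [h0]
  rw [← hInt]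
  have hlow : ∫ t in a..b, η ^ 2 ≤ ∫ t in a..b, G t := by
    apply intervalIntegral.integral_mono_on_of_le_Ioo hab (by simp) (hGint _ _)
    intro t ht
    have h1 := h t ⟨ht.1.le, ht.2⟩
    have h2 := sq_sum_disc_le P σ z (Real.exp_pos t).le
    refine le_trans ?_ h2
    rw [← sq_abs (∑ p ∈ P with ‖p - z‖ ≤ Real.exp t, σ p)]
    exact pow_le_pow_left₀ hη h1 2
  rw [intervalIntegral.integral_const, smul_eq_mul, mul_comm] at hlow
  refine hlow.trans ?_
  have s1 : ∫ t in (Real.log ε)..T, G t = (∫ t in (Real.log ε)..a, G t) +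
      (∫ t in a..b, G t) + ∫ t in b..T, G t := by
    rw [intervalIntegral.integral_add_adjacent_intervals (hGint _ _) (hGint _ _),
      intervalIntegral.integral_add_adjacent_intervals (hGint _ _) (hGint _ _)]
  have n1 : 0 ≤ ∫ t in (Real.log ε)..a, G t :=
    intervalIntegral.integral_nonneg hεa (fun t _ => hGnonneg t)
  have n2 : 0 ≤ ∫ t in b..T, G t :=
    intervalIntegral.integral_nonneg hTb (fun t _ => hGnonneg t)
  rw [s1]
  linarith

end main

end Pool.Agent.UBC90787a
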