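import Pool.Agent.Lib.MP_90787a_nt.Global

set_option autoImplicit false
set_option linter.unusedSectionVars false

/-!
The numerical core of the argument.
-/

namespace Pool.Agent.UBC90787a

open Finset

/-- `n (1 + log n)`. -/
noncomputable def ell (n : ℕ) : ℝ := n * (1 + Real.log n)

lemma le_ell (n : ℕ) : (n : ℝ) ≤ ell n := by
  unfold ell
  have : 0 ≤ Real.log n := Real.log_natCast_nonneg n
  have hn : (0 : ℝ) ≤ n := Nat.cast_nonneg n
  nlinarith

lemma ell_nonneg (n : ℕ) : 0 ≤ ell n := (Nat.cast_nonneg n).trans (le_ell n)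

/-- Solving the final inequality. -/
lemma solve_core {n : ℕ} (hn : 1 ≤ n) {a b M : ℝ} (ha : 0 < a) (h : a * (n : ℝ) ^ 2 ≤ b * ell n)
    (hM : b ≤ a * M) : (n : ℝ) ≤ M * (1 + Real.log n) := by
  have hn0 : (0 : ℝ) < n := by exact_mod_cast hn
  have h1 : a * (n : ℝ) ^ 2 ≤ a * M * ell n := h.trans (by
    have := ell_nonneg n
    gcongr)
  have h2 : a * (n : ℝ) ^ 2 = (a * n) * n := by ring
  have h3 : a * M * ell n = (a * n) * (M * (1 + Real.log n)) := by unfold ell; ring
  rw [h2, h3] at h1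
  exact le_of_mul_le_mul_left h1 (by positivity)

open Classical in
lemma exists_half {α : Type*} {X XA XB : Finset α} (h : XA ∪ XB = X) (hX : X.Nonempty) :
    ∃ Y ⊆ X, (Y ⊆ XA ∨ Y ⊆ XB) ∧ 1 ≤ Y.card ∧ X.card ≤ 2 * Y.card := by
  have h1 : X.card ≤ XA.card + XB.card := by
    rw [← h]
    exact Finset.card_union_le XA XB
  have h2 : 1 ≤ X.card := hX.card_pos
  rcases le_total XA.card XB.card with h3 | h3
  · exact ⟨XB, by rw [← h]; exact Finset.subset_union_right, Or.inr subset_rfl, by omega, by omega⟩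
  · exact ⟨XA, by rw [← h]; exact Finset.subset_union_left, Or.inl subset_rfl, by omega, by omega⟩

open Classical in
/-- The numerical core of the argument. -/
theorem core {D : ℝ} (hD : 1 ≤ D) {δ c κ ε Λ : ℝ} (hδ : 0 < δ) (hc : 0 ≤ c) (hκ : 0 ≤ κ)
    (hε : 0 < ε) (hΛ : 1 ≤ Λ) : ∃ M0 : ℝ, 1 ≤ M0 ∧
    ∀ {α ι J : Type} [Fintype ι] (X : Finset α) (_ : X.Nonempty) (mult : ι → ℝ)
      (_ : ∀ w, 1 ≤ mult w) (_ : ∑ w, mult w = D) (Ew : ι → Finset α → ℝ)
      (Ev : J → Finset α → ℝ) (lamw : ι → ℝ) (lam h : J → ℝ) (S T U : Finset J)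
      (_ : ∀ Y ⊆ X, 0 ≤ ∑ w, mult w * Ew w Y + ∑ v ∈ S, Ev v Y + ∑ v ∈ T, Ev v Y +
        ∑ v ∈ U, Ev v Y)
      (_ : ∀ w, 0 ≤ lamw w)
      (_ : ∀ w, ∀ Y ⊆ X, Ew w Y ≤ (c * lamw w + c) * ell Y.card)
      (_ : ∀ w, Λ ≤ lamw w → ∃ XA XB : Finset α, XA ∪ XB = X ∧ ∀ Y, (Y ⊆ XA ∨ Y ⊆ XB) →
        Ew w Y ≤ lamw w * (- δ * (Y.card : ℝ) ^ 2 + c * Y.card) + c * ell Y.card)
      (_ : ∀ v, 0 ≤ lam v)
      (_ : ∀ v ∈ S, ∀ Y ⊆ X, Ev v Y ≤ c * lam v * ell Y.card)
      (_ : ∀ v ∈ S, 0 < lam v → ε ≤ lam v ∧ ∃ XA XB : Finset α, XA ∪ XB = X ∧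
        ∀ Y, (Y ⊆ XA ∨ Y ⊆ XB) → Ev v Y ≤ lam v * (- δ * (Y.card : ℝ) ^ 2 + c * Y.card))
      (_ : ∀ v ∈ T, ε ≤ h v)
      (_ : ∀ v ∈ T, ∀ Y ⊆ X, Ev v Y ≤ h v * (- δ * (Y.card : ℝ) ^ 2 + c * Y.card))
      (_ : ∀ v ∈ U, ∀ Y ⊆ X, Ev v Y ≤ c * lam v * ell Y.card)
      (_ : ∑ v ∈ U, lam v ≤ κ * (1 + ∑ v ∈ T, h v + ∑ v ∈ S, lam v + ∑ w, mult w * lamw w))
      (_ : 0 < ∑ v ∈ T, h v + ∑ v ∈ S, lam v ∨ 2 * D * Λ ≤ ∑ w, mult w * lamw w),
      ∃ n : ℕ, 1 ≤ n ∧ X.card ≤ 2 * n ∧
        (n : ℝ) ≤ (M0 * (S.card + 1)) * (1 + Real.log n) := by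
  set c2 : ℝ := 2 * D * Λ / ε + 1 with hc2
  have hc2pos : 0 ≤ c2 := by positivity
  set B1 : ℝ := c * (2 + D + 3 * κ) with hB1
  set B2 : ℝ := c * (c2 + D / ε + 2 + κ * (1 / ε + 1 + c2)) with hB2
  have hB1n : 0 ≤ B1 := by positivity
  have hB2n : 0 ≤ B2 := by positivity
  refine ⟨1 + D / δ * B1 + 2 / δ * B2, by
    have h1 : 0 ≤ D / δ * B1 := by positivity
    have h2 : 0 ≤ 2 / δ * B2 := by positivity
    linarith, ?_⟩
  intro α ι J _ X hX mult hm1 hmD Ew Ev lamw lam h S T U hsum hw0 hwb hwg hv0 hSb hSg hT hTg hUb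
    hUs hnt
  set H1 : ℝ := ∑ v ∈ T, h v with hH1
  set HS : ℝ := ∑ v ∈ S, lam v with hHS
  set Ha : ℝ := ∑ w, mult w * lamw w with hHa
  set k : ℝ := (S.card : ℝ) with hk
  have hk0 : 0 ≤ k := Nat.cast_nonneg _
  have hH1n : 0 ≤ H1 := Finset.sum_nonneg (fun v hv => hε.le.trans (hT v hv))
  have hHSn : 0 ≤ HS := Finset.sum_nonneg (fun v _ => hv0 v)
  have hHan : 0 ≤ Ha := Finset.sum_nonneg (fun w _ => by
    have := hm1 w
    have := hw0 w
    positivity)
  have hXX : X ⊆ X := subset_rfl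
  -- general bounds
  have bW : ∀ Y ⊆ X, ∑ w, mult w * Ew w Y ≤ (c * Ha + c * D) * ell Y.card := by
    intro Y hY
    calc ∑ w, mult w * Ew w Y ≤ ∑ w, mult w * ((c * lamw w + c) * ell Y.card) := by
          apply Finset.sum_le_sum
          intro w _
          have := hm1 w
          have := hwb w Y hY
          gcongr
      _ = (c * Ha + c * D) * ell Y.card := by
          rw [hHa, ← hmD, Finset.mul_sum, Finset.mul_sum, ← Finset.sum_add_distrib,
            Finset.sum_mul]
          refine Finset.sum_congr rfl (fun w _ => ?_)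
          ring
  have bS : ∀ Y ⊆ X, ∑ v ∈ S, Ev v Y ≤ c * HS * ell Y.card := by
    intro Y hY
    calc ∑ v ∈ S, Ev v Y ≤ ∑ v ∈ S, c * lam v * ell Y.card :=
          Finset.sum_le_sum (fun v hv => hSb v hv Y hY)
      _ = c * HS * ell Y.card := by rw [hHS, Finset.mul_sum, Finset.sum_mul]
  have bT : ∀ Y ⊆ X, ∑ v ∈ T, Ev v Y ≤ H1 * (- δ * (Y.card : ℝ) ^ 2 + c * Y.card) := by
    intro Y hY
    calc ∑ v ∈ T, Ev v Y ≤ ∑ v ∈ T, h v * (- δ * (Y.card : ℝ) ^ 2 + c * Y.card) :=
          Finset.sum_le_sum (fun v hv => hTg v hv Y hY)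
      _ = H1 * (- δ * (Y.card : ℝ) ^ 2 + c * Y.card) := by rw [hH1, Finset.sum_mul]
  have bT' : ∀ Y ⊆ X, ∑ v ∈ T, Ev v Y ≤ c * H1 * ell Y.card - δ * H1 * (Y.card : ℝ) ^ 2 := by
    intro Y hY
    refine (bT Y hY).trans ?_
    have h1 := le_ell Y.card
    have h2 : c * H1 * (Y.card : ℝ) ≤ c * H1 * ell Y.card := by gcongr
    linarith
  have bT'' : ∀ Y ⊆ X, ∑ v ∈ T, Ev v Y ≤ c * H1 * ell Y.card := by
    intro Y hY
    refine (bT' Y hY).trans ?_
    have : 0 ≤ δ * H1 * (Y.card : ℝ) ^ 2 := by positivity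
    linarith
  have bU : ∀ Y ⊆ X, ∑ v ∈ U, Ev v Y ≤ c * (κ * (1 + H1 + HS + Ha)) * ell Y.card := by
    intro Y hY
    calc ∑ v ∈ U, Ev v Y ≤ ∑ v ∈ U, c * lam v * ell Y.card :=
          Finset.sum_le_sum (fun v hv => hUb v hv Y hY)
      _ = c * (∑ v ∈ U, lam v) * ell Y.card := by rw [Finset.mul_sum, Finset.sum_mul]
      _ ≤ c * (κ * (1 + H1 + HS + Ha)) * ell Y.card := by
          have := ell_nonneg Y.card
          gcongr
  by_cases hA : 2 * D * Λ ≤ Ha ∧ H1 + HS ≤ (k + 1) * Ha
  · -- the archimedean places dominate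
    obtain ⟨hA1, hA2⟩ := hA
    have hHa1 : 1 ≤ Ha := by
      have : 1 ≤ D * Λ := one_le_mul_of_one_le_of_one_le hD hΛ
      linarith
    obtain ⟨w0, hw0'⟩ : ∃ w0, Ha / D ≤ lamw w0 := by
      by_contra hcon
      push Not at hcon
      have hne : (Finset.univ : Finset ι).Nonempty := by
        rw [Finset.nonempty_iff_ne_empty]
        intro h0
        rw [h0, Finset.sum_empty] at hmD
        linarith
      have h1 : Ha < ∑ w, mult w * (Ha / D) := by
        rw [hHa]
        apply Finset.sum_lt_sum_of_nonempty hne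
        intro w _
        have := hm1 w
        have := hcon w
        gcongr
      rw [← Finset.sum_mul, hmD, mul_div_cancel₀ _ (by linarith : D ≠ 0)] at h1
      exact lt_irrefl _ h1
    have hbig : Λ ≤ lamw w0 := by
      refine le_trans ?_ hw0'
      rw [le_div_iff₀ (by linarith)]
      have : 0 ≤ Λ * D := by positivity
      linarith
    obtain ⟨XA, XB, hXAB, hgain⟩ := hwg w0 hbig
    obtain ⟨Y, hYX, hYAB, hY1, hY2⟩ := exists_half hXAB hX
    refine ⟨Y.card, hY1, hY2, ?_⟩
    set n : ℝ := (Y.card : ℝ) with hn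
    have hell := le_ell Y.card
    have helln := ell_nonneg Y.card
    have hn0 : 0 ≤ n := Nat.cast_nonneg _
    have bW' : ∑ w, mult w * Ew w Y ≤ (c * Ha + c * D) * ell Y.card - δ * (Ha / D) * n ^ 2 := by
      rw [← Finset.add_sum_erase _ _ (Finset.mem_univ w0)]
      have e1 : mult w0 * Ew w0 Y ≤ mult w0 * ((c * lamw w0 + c) * ell Y.card) -
          δ * (Ha / D) * n ^ 2 := by
        have h1 := hgain Y hYAB
        have h2 : Ew w0 Y ≤ (c * lamw w0 + c) * ell Y.card - δ * lamw w0 * n ^ 2 := by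
          refine h1.trans ?_
          have h3 : lamw w0 * (c * n) ≤ lamw w0 * (c * ell Y.card) := by
            have := hw0 w0
            gcongr
          linarith
        have h3 := hm1 w0
        have h4 : mult w0 * Ew w0 Y ≤ mult w0 * ((c * lamw w0 + c) * ell Y.card -
            δ * lamw w0 * n ^ 2) := by gcongr
        have h5 : 1 * (δ * (Ha / D) * n ^ 2) ≤ mult w0 * (δ * lamw w0 * n ^ 2) := by gcongr
        linarith
      have e2 : ∑ w ∈ Finset.univ.erase w0, mult w * Ew w Y ≤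
          ∑ w ∈ Finset.univ.erase w0, mult w * ((c * lamw w + c) * ell Y.card) := by
        apply Finset.sum_le_sum
        intro w _
        have := hm1 w
        have := hwb w Y hYX
        gcongr
      have e3 : mult w0 * ((c * lamw w0 + c) * ell Y.card) +
          ∑ w ∈ Finset.univ.erase w0, mult w * ((c * lamw w + c) * ell Y.card) =
          (c * Ha + c * D) * ell Y.card := by
        rw [Finset.add_sum_erase _ (fun w => mult w * ((c * lamw w + c) * ell Y.card))
          (Finset.mem_univ w0)]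
        rw [hHa, ← hmD, Finset.mul_sum, Finset.mul_sum, ← Finset.sum_add_distrib,
          Finset.sum_mul]
        refine Finset.sum_congr rfl (fun w _ => ?_)
        ring
      linarith
    have htot := hsum Y hYX
    have key : δ * (Ha / D) * n ^ 2 ≤ (B1 * (k + 1) * Ha) * ell Y.card := by
      have h1 : δ * (Ha / D) * n ^ 2 ≤ ((c * Ha + c * D) + c * HS + c * H1 +
          c * (κ * (1 + H1 + HS + Ha))) * ell Y.card := by
        have a1 := bS Y hYX
        have a2 := bT'' Y hYX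
        have a3 := bU Y hYX
        linarith
      refine h1.trans ?_
      have h2 : (c * Ha + c * D) + c * HS + c * H1 + c * (κ * (1 + H1 + HS + Ha)) ≤
          B1 * (k + 1) * Ha := by
        have h3 : (Ha + D) + (H1 + HS) + κ * (1 + (H1 + HS) + Ha) ≤
            (2 + D + 3 * κ) * (k + 1) * Ha := by
          have h4 : D ≤ D * ((k + 1) * Ha) := by
            have : 1 ≤ (k + 1) * Ha := one_le_mul_of_one_le_of_one_le (by linarith) hHa1
            have : 0 ≤ D := by linarith
            nlinarith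
          have h5 : Ha ≤ (k + 1) * Ha := by nlinarith
          have h6 : 1 ≤ (k + 1) * Ha := by linarith
          have h7 : κ * (1 + (H1 + HS) + Ha) ≤ κ * (3 * ((k + 1) * Ha)) := by
            have : 1 + (H1 + HS) + Ha ≤ 3 * ((k + 1) * Ha) := by linarith
            gcongr
          calc (Ha + D) + (H1 + HS) + κ * (1 + (H1 + HS) + Ha)
              ≤ ((k + 1) * Ha + D * ((k + 1) * Ha)) + (k + 1) * Ha +
                κ * (3 * ((k + 1) * Ha)) := by linarith
            _ = (2 + D + 3 * κ) * (k + 1) * Ha := by ring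
        calc (c * Ha + c * D) + c * HS + c * H1 + c * (κ * (1 + H1 + HS + Ha))
            = c * ((Ha + D) + (H1 + HS) + κ * (1 + (H1 + HS) + Ha)) := by ring
          _ ≤ c * ((2 + D + 3 * κ) * (k + 1) * Ha) := by gcongr
          _ = B1 * (k + 1) * Ha := by rw [hB1]; ring
      gcongr
    refine solve_core hY1 (a := δ * (Ha / D)) (by positivity) key ?_
    have hb2 : 0 ≤ 2 / δ * B2 := by positivity
    calc B1 * (k + 1) * Ha = δ * (Ha / D) * ((D / δ * B1) * (k + 1)) := by
          field_simp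
      _ ≤ δ * (Ha / D) * ((1 + D / δ * B1 + 2 / δ * B2) * (k + 1)) := by
          have : D / δ * B1 ≤ 1 + D / δ * B1 + 2 / δ * B2 := by linarith
          gcongr
  · -- the finite places dominate
    have hHf : 0 < H1 + HS := by
      rcases hnt with hnt | hnt
      · exact hnt
      · rw [not_and_or] at hA
        rcases hA with hA | hA
        · exact absurd hnt hA
        · push Not at hA
          have : 0 ≤ (k + 1) * Ha := by positivity
          linarith
    set Hf : ℝ := H1 + HS with hHfdef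
    have hHfε : ε ≤ Hf := by
      rcases Finset.eq_empty_or_nonempty T with hTe | ⟨v, hv⟩
      · have h1 : H1 = 0 := by rw [hH1, hTe, Finset.sum_empty]
        have h2 : 0 < HS := by linarith
        obtain ⟨v, hv, hv'⟩ := Finset.exists_lt_of_sum_lt (s := S) (f := fun _ => (0 : ℝ))
          (g := lam) (by simpa using h2)
        have h3 := (hSg v hv hv').1
        have h4 : lam v ≤ HS := Finset.single_le_sum (fun v _ => hv0 v) hv
        linarith
      · have h3 := hT v hv
        have h4 : h v ≤ H1 := Finset.single_le_sum (f := h)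
          (fun v hv => hε.le.trans (hT v hv)) hv
        linarith
    have hHaf : Ha ≤ c2 * Hf := by
      rw [not_and_or] at hA
      rcases hA with hA | hA
      · push Not at hA
        have h1 : 2 * D * Λ ≤ 2 * D * Λ / ε * Hf := by
          rw [div_mul_eq_mul_div, le_div_iff₀ hε]
          gcongr
        rw [hc2, add_mul]
        linarith
      · push Not at hA
        have h1 : Ha ≤ (k + 1) * Ha := by nlinarith
        have h2 : 0 ≤ 2 * D * Λ / ε * Hf := by positivity
        rw [hc2, add_mul]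
        linarith
    have h1f : 1 ≤ 1 / ε * Hf := by
      rw [div_mul_eq_mul_div, le_div_iff₀ hε]
      linarith
    have hDf : D ≤ D / ε * Hf := by
      rw [div_mul_eq_mul_div, le_div_iff₀ hε]
      gcongr
    have htotal : (c * Ha + c * D) + c * HS + c * H1 + c * (κ * (1 + H1 + HS + Ha)) ≤ B2 * Hf := by
      have h3 : (Ha + D) + Hf + κ * (1 + Hf + Ha) ≤
          (c2 + D / ε + 2 + κ * (1 / ε + 1 + c2)) * Hf := by
        have h4 : κ * (1 + Hf + Ha) ≤ κ * ((1 / ε + 1 + c2) * Hf) := by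
          have : 1 + Hf + Ha ≤ (1 / ε + 1 + c2) * Hf := by
            calc 1 + Hf + Ha ≤ 1 / ε * Hf + Hf + c2 * Hf := by linarith
              _ = (1 / ε + 1 + c2) * Hf := by ring
          gcongr
        calc (Ha + D) + Hf + κ * (1 + Hf + Ha) ≤ (c2 * Hf + D / ε * Hf) + 2 * Hf +
              κ * ((1 / ε + 1 + c2) * Hf) := by linarith
          _ = (c2 + D / ε + 2 + κ * (1 / ε + 1 + c2)) * Hf := by ring
      calc (c * Ha + c * D) + c * HS + c * H1 + c * (κ * (1 + H1 + HS + Ha))
          = c * ((Ha + D) + Hf + κ * (1 + Hf + Ha)) := by rw [hHfdef]; ring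
        _ ≤ c * ((c2 + D / ε + 2 + κ * (1 / ε + 1 + c2)) * Hf) := by gcongr
        _ = B2 * Hf := by rw [hB2]; ring
    rcases le_or_gt (Hf / 2) H1 with hc1 | hc1
    · -- the places of `T` dominate
      have hX1 : 1 ≤ X.card := hX.card_pos
      refine ⟨X.card, hX1, by omega, ?_⟩
      set n : ℝ := (X.card : ℝ) with hn
      have helln := ell_nonneg X.card
      have htot := hsum X hXX
      have key : δ * (Hf / 2) * n ^ 2 ≤ (B2 * Hf) * ell X.card := by
        have a0 := bW X hXX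
        have a1 := bS X hXX
        have a2 := bT' X hXX
        have a3 := bU X hXX
        have a4 : δ * (Hf / 2) * n ^ 2 ≤ δ * H1 * n ^ 2 := by gcongr
        have a5 : ((c * Ha + c * D) + c * HS + c * H1 +
          c * (κ * (1 + H1 + HS + Ha))) * ell X.card ≤ B2 * Hf * ell X.card := by gcongr
        linarith
      refine solve_core hX1 (a := δ * (Hf / 2)) (by positivity) key ?_
      have hb1 : 0 ≤ D / δ * B1 := by positivity
      calc B2 * Hf = δ * (Hf / 2) * ((2 / δ * B2) * 1) := by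
            field_simp
        _ ≤ δ * (Hf / 2) * ((1 + D / δ * B1 + 2 / δ * B2) * (k + 1)) := by
            have : 2 / δ * B2 ≤ 1 + D / δ * B1 + 2 / δ * B2 := by linarith
            have : 1 ≤ k + 1 := by linarith
            gcongr
    · -- one place of `S` dominates
      have hHSf : Hf / 2 < HS := by linarith
      obtain ⟨v0, hv0S, hv0'⟩ : ∃ v0 ∈ S, Hf / (2 * (k + 1)) < lam v0 := by
        by_contra hcon
        push Not at hcon
        have h1 : HS ≤ ∑ _v ∈ S, Hf / (2 * (k + 1)) := Finset.sum_le_sum hcon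
        rw [Finset.sum_const, nsmul_eq_mul, ← hk] at h1
        have h2 : k * (Hf / (2 * (k + 1))) ≤ Hf / 2 := by
          rw [mul_div_assoc', div_le_div_iff₀ (by positivity) (by norm_num)]
          nlinarith
        linarith
      have hv0pos : 0 < lam v0 := lt_of_le_of_lt (by positivity) hv0'
      obtain ⟨_, XA, XB, hXAB, hgain⟩ := hSg v0 hv0S hv0pos
      obtain ⟨Y, hYX, hYAB, hY1, hY2⟩ := exists_half hXAB hX
      refine ⟨Y.card, hY1, hY2, ?_⟩
      set n : ℝ := (Y.card : ℝ) with hn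
      have hell := le_ell Y.card
      have helln := ell_nonneg Y.card
      have hn0 : 0 ≤ n := Nat.cast_nonneg _
      have htot := hsum Y hYX
      have bS' : ∑ v ∈ S, Ev v Y ≤ 2 * (c * HS * ell Y.card) -
          δ * (Hf / (2 * (k + 1))) * n ^ 2 := by
        rw [← Finset.add_sum_erase _ _ hv0S]
        have e1 := hgain Y hYAB
        have e2 : ∑ v ∈ S.erase v0, Ev v Y ≤ ∑ v ∈ S.erase v0, c * lam v * ell Y.card :=
          Finset.sum_le_sum (fun v hv => hSb v (Finset.mem_of_mem_erase hv) Y hYX)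
        have e3 : ∑ v ∈ S.erase v0, c * lam v * ell Y.card ≤ ∑ v ∈ S, c * lam v * ell Y.card := by
          apply Finset.sum_le_sum_of_subset_of_nonneg (Finset.erase_subset _ _)
          intro v _ _
          have := hv0 v
          positivity
        have e4 : ∑ v ∈ S, c * lam v * ell Y.card = c * HS * ell Y.card := by
          rw [hHS, Finset.mul_sum, Finset.sum_mul]
        have e5 : lam v0 * (c * n) ≤ HS * (c * ell Y.card) := by
          have : lam v0 ≤ HS := Finset.single_le_sum (fun v _ => hv0 v) hv0S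
          gcongr
        have e6 : δ * (Hf / (2 * (k + 1))) * n ^ 2 ≤ δ * lam v0 * n ^ 2 := by gcongr
        linarith
      have key : δ * (Hf / (2 * (k + 1))) * n ^ 2 ≤ (B2 * Hf) * ell Y.card := by
        have a0 := bW Y hYX
        have a2 := bT'' Y hYX
        have a3 := bU Y hYX
        have a5 : ((c * Ha + c * D) + 2 * (c * HS) + c * H1 +
          c * (κ * (1 + H1 + HS + Ha))) * ell Y.card ≤ B2 * Hf * ell Y.card := by
          have h3 : (Ha + D) + (Hf + HS) + κ * (1 + Hf + Ha) ≤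
              (c2 + D / ε + 2 + κ * (1 / ε + 1 + c2)) * Hf := by
            have h4 : κ * (1 + Hf + Ha) ≤ κ * ((1 / ε + 1 + c2) * Hf) := by
              have : 1 + Hf + Ha ≤ (1 / ε + 1 + c2) * Hf := by
                calc 1 + Hf + Ha ≤ 1 / ε * Hf + Hf + c2 * Hf := by linarith
                  _ = (1 / ε + 1 + c2) * Hf := by ring
              gcongr
            calc (Ha + D) + (Hf + HS) + κ * (1 + Hf + Ha) ≤ (c2 * Hf + D / ε * Hf) + 2 * Hf +
                  κ * ((1 / ε + 1 + c2) * Hf) := by linarith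
              _ = (c2 + D / ε + 2 + κ * (1 / ε + 1 + c2)) * Hf := by ring
          have h5 : (c * Ha + c * D) + 2 * (c * HS) + c * H1 + c * (κ * (1 + H1 + HS + Ha)) ≤
              B2 * Hf := by
            calc (c * Ha + c * D) + 2 * (c * HS) + c * H1 + c * (κ * (1 + H1 + HS + Ha))
                = c * ((Ha + D) + (Hf + HS) + κ * (1 + Hf + Ha)) := by rw [hHfdef]; ring
              _ ≤ c * ((c2 + D / ε + 2 + κ * (1 / ε + 1 + c2)) * Hf) := by gcongr
              _ = B2 * Hf := by rw [hB2]; ring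
          gcongr
        linarith
      refine solve_core hY1 (a := δ * (Hf / (2 * (k + 1)))) (by positivity) key ?_
      have hb1 : 0 ≤ D / δ * B1 := by positivity
      calc B2 * Hf = δ * (Hf / (2 * (k + 1))) * ((2 / δ * B2) * (k + 1)) := by
            field_simp
        _ ≤ δ * (Hf / (2 * (k + 1))) * ((1 + D / δ * B1 + 2 / δ * B2) * (k + 1)) := by
            have : 2 / δ * B2 ≤ 1 + D / δ * B1 + 2 / δ * B2 := by linarith
            gcongr

/-- From the implicit inequality to the bound `(k + 1) log (k + 2)`. -/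
lemma final_bound {M0 : ℝ} (hM0 : 1 ≤ M0) : ∃ C : ℝ, 0 ≤ C ∧ ∀ (k n N : ℕ), 1 ≤ n → N ≤ 2 * n →
    (n : ℝ) ≤ (M0 * (k + 1)) * (1 + Real.log n) →
    (N : ℝ) ≤ C * (k + 1) * Real.log (k + 2) := by
  have hl2 : 0 < Real.log 2 := Real.log_pos (by norm_num)
  have hlM : 0 ≤ Real.log (2 * M0) := Real.log_nonneg (by linarith)
  refine ⟨4 * M0 * (Real.log (2 * M0) / Real.log 2 + 1), by positivity, ?_⟩
  intro k n N hn hN h
  have hk : (0 : ℝ) ≤ k := Nat.cast_nonneg k
  have hn0 : (0 : ℝ) < n := by exact_mod_cast hn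
  have hM : 1 ≤ M0 * ((k : ℝ) + 1) := one_le_mul_of_one_le_of_one_le hM0 (by linarith)
  have h1 := le_of_le_mul_one_add_log hM hn0 h
  have h2 : (N : ℝ) ≤ 2 * n := by exact_mod_cast hN
  have h3 : Real.log (2 * (M0 * ((k : ℝ) + 1))) ≤
      (Real.log (2 * M0) / Real.log 2 + 1) * Real.log (k + 2) := by
    have e1 : Real.log (2 * (M0 * ((k : ℝ) + 1))) = Real.log (2 * M0) + Real.log (k + 1) := by
      rw [← mul_assoc, Real.log_mul (by positivity) (by positivity)]
    have e2 : Real.log 2 ≤ Real.log (k + 2) := Real.log_le_log (by norm_num) (by linarith)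
    have e3 : Real.log ((k : ℝ) + 1) ≤ Real.log (k + 2) :=
      Real.log_le_log (by positivity) (by linarith)
    have e4 : Real.log (2 * M0) ≤ Real.log (2 * M0) / Real.log 2 * Real.log (k + 2) := by
      calc Real.log (2 * M0) = Real.log (2 * M0) / Real.log 2 * Real.log 2 := by field_simp
        _ ≤ _ := by gcongr
    rw [e1, add_mul, one_mul]
    linarith
  calc (N : ℝ) ≤ 2 * n := h2
    _ ≤ 2 * (2 * (M0 * (k + 1)) * Real.log (2 * (M0 * (k + 1)))) := by linarith
    _ ≤ 2 * (2 * (M0 * (k + 1)) * ((Real.log (2 * M0) / Real.log 2 + 1) *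
        Real.log (k + 2))) := by gcongr
    _ = _ := by ring

end Pool.Agent.UBC90787a
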