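import Pool.Agent.Lib.MP_90787a_nt.Main

set_option autoImplicit false
set_option linter.unusedSectionVars false

/-!
A special case of the result on integral models: a uniform bound for the integral polynomials
whose leading coefficient is divisible by no `(m + 1)`-th power of a prime ideal.
-/

namespace Pool.Agent.UBC90787a

open Polynomial Finset NumberField

lemma conjPoly_one_zero {K : Type*} [Field K] (f : K[X]) : conjPoly f 1 0 = f := by
  unfold conjPoly
  simp

open Classical in
theorem integral_polynomials (D d m : ℕ) (hD : 1 ≤ D) (hd2 : 2 ≤ d) : ∃ C : ℝ,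
    ∀ (K : Type) [Field K] [NumberField K], Module.finrank ℚ K = D →
      ∀ f : K[X], f.natDegree = d →
      (∀ (v : FinitePlace K) (i : ℕ), v (f.coeff i) ≤ 1) →
      (∀ v : FinitePlace K, ((qv v : ℝ) ^ m)⁻¹ ≤ v f.leadingCoeff) →
      ∀ Z : Finset K, (∀ x ∈ Z, Preper (fun z => f.eval z) x) →
      (Z.card : ℝ) ≤ C := by
  obtain ⟨C, hC⟩ := main_integral D d m hD hd2 1
  refine ⟨C * (0 + 1) * Real.log (0 + 2), ?_⟩
  intro K _ _ hK f hf hint hlc Z hZ
  have hf0 : f ≠ 0 := by
    rintro rfl
    rw [natDegree_zero] at hf
    omega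
  obtain ⟨F, hF⟩ := exists_finset_places (K := K) {f.leadingCoeff}
  set T : Finset (FinitePlace K) := F.filter (fun v => 0 < localWeight v f) with hT
  have h := hC K hK f hf ∅ T (by
    intro v hv
    refine ⟨(Finset.mem_filter.mp hv).2, 1, 0, one_ne_zero, ?_, ?_⟩
    · intro i
      rw [conjPoly_one_zero]
      exact hint v i
    · rw [conjPoly_one_zero]
      exact hlc v) (by
    intro U _ hU
    have h1 : ∑ v ∈ U, localWeight v f ≤ 0 := by
      apply Finset.sum_nonpos
      intro v hv
      by_contra hcon
      push Not at hcon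
      have hvF : v ∉ F := by
        intro hvF
        exact Finset.disjoint_left.mp hU hv (Finset.mem_filter.mpr ⟨hvF, hcon⟩)
      have hva : v f.leadingCoeff = 1 :=
        hF v hvF _ (Finset.mem_singleton_self _) (leadingCoeff_ne_zero.mpr hf0)
      have hE : EscapeDisc v f 0 1 := by
        refine ⟨one_pos, ?_, ?_⟩
        · rw [hva, one_pow, one_mul]
        · intro i _
          rw [conjPoly_one_zero, hva, one_pow, one_mul]
          exact hint v i
      have h2 := localWeight_le hE
      rw [hva, one_pow, one_mul, Real.log_one] at h2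
      linarith
    have h3 : 0 ≤ ∑ v ∈ T, Real.log (qv v) :=
      Finset.sum_nonneg (fun v _ => Real.log_natCast_nonneg _)
    linarith) Z hZ
  rw [Finset.card_empty, Nat.cast_zero] at h
  exact h

end Pool.Agent.UBC90787a
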