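import Mathlib

set_option autoImplicit false

/-!
The definitions used in the statements of the results.
-/

namespace Pool.Agent.UBC90787a

open Polynomial NumberField

/-- The conjugate of `f` by the affine map `x ↦ s * (x - t)`, that is the polynomial
`s * (f (X / s + t) - t)`. -/
noncomputable def conjPoly {K : Type*} [Field K] (f : K[X]) (s t : K) : K[X] :=
  C s * (f.comp (C s⁻¹ * X + C t) - C t)

/-- The closed disc with centre `t` and radius `r` is an escape disc of `f` for the absolute
value `v`: writing `f (X + t) - t = ∑ c_i X ^ i`, with leading coefficient `a` and degree `d`,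
one has `|a| r ^ (d - 1) ≥ 1` and `|c_i| ≤ |a| r ^ (d - i)` for `i < d`. -/
def EscapeDisc {K : Type*} [Field K] (v : K → ℝ) (f : K[X]) (t : K) (r : ℝ) : Prop :=
  0 < r ∧ 1 ≤ v f.leadingCoeff * r ^ (f.natDegree - 1) ∧
    ∀ i < f.natDegree, v ((conjPoly f 1 t).coeff i) ≤ v f.leadingCoeff * r ^ (f.natDegree - i)

/-- The local weight of the polynomial `f` at the absolute value `v`: the infimum of
`log (|a| r ^ (d - 1))` over the escape discs of `f` centred at points of `K`. It is `≥ 0`. -/
noncomputable def localWeight {K : Type*} [Field K] (v : K → ℝ) (f : K[X]) : ℝ :=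
  sInf {ρ : ℝ | ∃ (t : K) (r : ℝ), EscapeDisc v f t r ∧
    ρ = Real.log (v f.leadingCoeff * r ^ (f.natDegree - 1))}

/-- At the finite place `v`, with residue field of cardinality `q`, the polynomial `f` has an
integral model whose leading coefficient has valuation at most `m`: for some `s ≠ 0` and `t` in
`K` all the coefficients of the conjugate of `f` by `x ↦ s * (x - t)` are `v`-integral and its
leading coefficient has absolute value at least `q ^ (-m)`. -/
def IntegralModel {K : Type} [Field K] [NumberField K] (v : FinitePlace K) (f : K[X])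
    (m : ℕ) : Prop :=
  ∃ s t : K, s ≠ 0 ∧ (∀ i, v ((conjPoly f s t).coeff i) ≤ 1) ∧
    (((Ideal.absNorm v.maximalIdeal.asIdeal : ℕ) : ℝ) ^ m)⁻¹ ≤ v (conjPoly f s t).leadingCoeff

/-- `f` has nonsplit reduction at `v`: there is an escape disc, with centre `t` and radius `r`
and with `|a| r ^ (d - 1) > 1`, such that the monic polynomial `(f (X + t) - t) / a` is not
congruent to a product of `d` linear factors `X - x_j` with all `x_j` in `K`, the congruence
meaning that the coefficients of `X ^ i` differ by less than `r ^ (d - i)` for all `i < d`. -/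
def Nonsplit {K : Type} [Field K] [NumberField K] (v : FinitePlace K) (f : K[X]) : Prop :=
  ∃ (t : K) (r : ℝ), EscapeDisc v f t r ∧ 1 < v f.leadingCoeff * r ^ (f.natDegree - 1) ∧
    ¬ ∃ x : Fin f.natDegree → K, ∀ i < f.natDegree,
      v ((conjPoly f 1 t).coeff i / f.leadingCoeff - (∏ j, (X - C (x j))).coeff i) <
        r ^ (f.natDegree - i)

end Pool.Agent.UBC90787a
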