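import Pool.Agent.Lib.MP_90787a_nt.LocalArch

set_option autoImplicit false
set_option linter.unusedSectionVars false

/-!
The local weight of a polynomial at a place, and the summary of the local estimates.
-/

namespace Pool.Agent.UBC90787a

open Polynomial Finset NumberField

section weight

variable {K : Type*} [Field K] {v : K → ℝ} {f : K[X]}

lemma bddBelow_weights : BddBelow {ρ : ℝ | ∃ (t : K) (r : ℝ), EscapeDisc v f t r ∧
    ρ = Real.log (v f.leadingCoeff * r ^ (f.natDegree - 1))} := by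
  refine ⟨0, ?_⟩
  rintro ρ ⟨t, r, h, rfl⟩
  exact Real.log_nonneg h.2.1

lemma localWeight_le {t : K} {r : ℝ} (h : EscapeDisc v f t r) :
    localWeight v f ≤ Real.log (v f.leadingCoeff * r ^ (f.natDegree - 1)) :=
  csInf_le bddBelow_weights ⟨t, r, h, rfl⟩

lemma localWeight_nonneg : 0 ≤ localWeight v f := by
  apply Real.sInf_nonneg
  rintro ρ ⟨t, r, h, rfl⟩
  exact Real.log_nonneg h.2.1

lemma log_weight_eq {r : ℝ} (hlc : 0 < v f.leadingCoeff) (hd2 : 2 ≤ f.natDegree) :
    Real.log (v f.leadingCoeff * r ^ (f.natDegree - 1)) =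
      ((f.natDegree - 1 : ℕ) : ℝ) * Real.log (r * Aof v f) := by
  conv_lhs => rw [← Aof_pow hlc hd2]
  rw [← mul_pow, Real.log_pow, mul_comm r]

end weight

section recentre

variable {L : Type*} [NormedField L] [IsUltrametricDist L]

lemma conjPoly_one {K : Type*} [Field K] (f : K[X]) (t : K) :
    conjPoly f 1 t = taylor t f - C t := by
  unfold conjPoly
  rw [C_1, one_mul, inv_one, C_1, one_mul, taylor_apply]

lemma taylor_coeff_le {g : L[X]} {r : ℝ} (hr : IsRadius g r) {c : L} (hc : ‖c‖ ≤ r) (i : ℕ)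
    (hi : i ≤ g.natDegree) :
    ‖(taylor c g).coeff i‖ ≤ ‖g.leadingCoeff‖ * r ^ (g.natDegree - i) := by
  rw [taylor_coeff, hasseDeriv_apply, sum_over_range _ (by simp), eval_finsetSum]
  apply IsUltrametricDist.norm_sum_le_of_forall_le_of_nonneg
  · have := hr.lc_pos
    have := hr.pos
    positivity
  intro j hj
  rw [Finset.mem_range] at hj
  rw [eval_monomial, norm_mul, norm_mul, norm_pow]
  rcases Nat.lt_or_ge j i with hji | hji
  · rw [Nat.choose_eq_zero_of_lt hji, Nat.cast_zero, norm_zero, zero_mul, zero_mul]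
    have := hr.lc_pos
    have := hr.pos
    positivity
  have h1 : ‖((j.choose i : ℕ) : L)‖ ≤ 1 := IsUltrametricDist.norm_natCast_le_one L _
  have h2 : ‖g.coeff j‖ ≤ ‖g.leadingCoeff‖ * r ^ (g.natDegree - j) := by
    rcases Nat.lt_or_ge j g.natDegree with h | h
    · exact hr.coeff_le j h
    · have : j = g.natDegree := by omega
      rw [this, Nat.sub_self, pow_zero, mul_one]
      rfl
  have hrpos := hr.pos
  calc ‖((j.choose i : ℕ) : L)‖ * ‖g.coeff j‖ * ‖c‖ ^ (j - i)
      ≤ 1 * (‖g.leadingCoeff‖ * r ^ (g.natDegree - j)) * r ^ (j - i) := by gcongr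
    _ = ‖g.leadingCoeff‖ * r ^ (g.natDegree - i) := by
        rw [one_mul, mul_assoc, ← pow_add]
        congr 2
        omega

lemma IsRadius.recentre {g : L[X]} {r : ℝ} (hr : IsRadius g r) (hd2 : 2 ≤ g.natDegree) {c : L}
    (hc : ‖c‖ ≤ r) : IsRadius (conjPoly g 1 c) r := by
  have h1 : (conjPoly g 1 c).natDegree = g.natDegree := natDegree_conjPoly one_ne_zero c
  have h2 : (conjPoly g 1 c).leadingCoeff = g.leadingCoeff := by
    rw [leadingCoeff_conjPoly (by omega) one_ne_zero]
    simp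
  have hrpos := hr.pos
  refine ⟨hrpos, ?_, ?_⟩
  · rw [h1, h2]
    exact hr.one_le
  · intro i hi
    rw [h1] at hi ⊢
    rw [h2, conjPoly_one, coeff_sub, coeff_C]
    have h3 := taylor_coeff_le hr hc i hi.le
    split_ifs with h0
    · subst h0
      rw [sub_eq_add_neg]
      refine (IsUltrametricDist.norm_add_le_max _ _).trans (max_le h3 ?_)
      rw [norm_neg, Nat.sub_zero]
      have h4 := hr.one_le
      calc ‖c‖ ≤ 1 * r := by rw [one_mul]; exact hc
        _ ≤ (‖g.leadingCoeff‖ * r ^ (g.natDegree - 1)) * r := by gcongr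
        _ = ‖g.leadingCoeff‖ * r ^ g.natDegree := by
            rw [mul_assoc, ← pow_succ]
            congr 2
            omega
    · rw [sub_zero]
      exact h3

end recentre

section finite

variable {K : Type} [Field K] [NumberField K]

lemma map_conjPoly_add {L : Type} [Field L] (ι : K →+* L) (f : K[X]) (t x0 : K) :
    (conjPoly f 1 x0).map ι = conjPoly ((conjPoly f 1 t).map ι) 1 (ι (x0 - t)) := by
  have h : taylor x0 f = taylor (x0 - t) (taylor t f) := by rw [taylor_taylor, sub_add_cancel]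
  rw [conjPoly_one, conjPoly_one, conjPoly_one, h, Polynomial.map_sub, map_C, Polynomial.map_sub,
    map_C, map_sub (taylor (ι (x0 - t))), taylor_C, map_taylor]
  rw [show ι x0 = ι t + ι (x0 - t) by rw [map_sub]; ring, C_add]
  ring

/-- Escape discs can be recentred at preperiodic points. -/
lemma EscapeDisc.recentre {v : FinitePlace K} {f : K[X]} (hd2 : 2 ≤ f.natDegree) {t : K} {r : ℝ}
    (h : EscapeDisc v f t r) {x0 : K} (hx0 : Preper (fun z => f.eval z) x0) :
    EscapeDisc v f x0 r := by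
  obtain ⟨L, _, _, _, ι, hι⟩ := exists_ultra_field v
  rw [escapeDisc_iff hι (by omega)] at h ⊢
  rw [map_conjPoly_add ι f t x0]
  have hgd : ((conjPoly f 1 t).map ι).natDegree = f.natDegree := map_natDegree one_ne_zero t
  refine h.recentre (by omega) ?_
  have h1 := h.preper_le (by omega) (hx0.transport (ι := ι) one_ne_zero t)
  rw [one_mul] at h1
  exact h1

open Classical in
/-- Summary of the estimates at an arbitrary finite place. -/
theorem fin_summary (v : FinitePlace K) {f : K[X]} {d : ℕ} (hd : f.natDegree = d) (hd2 : 2 ≤ d)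
    (X : Finset K) (hX : ∀ x ∈ X, Preper (fun z => f.eval z) x) (hXne : X.Nonempty) :
    ∃ lam : ℝ, 0 ≤ lam ∧ localWeight v f = ((d - 1 : ℕ) : ℝ) * lam ∧
      (∀ Y ⊆ X, logEnergy v (Aof v f) Y ≤
        4 * d * lam * (Y.card * (1 + Real.log Y.card))) ∧
      ((lam = 0 ∧ ∀ x ∈ X, ∀ y ∈ X, v (x - y) * Aof v f ≤ 1) ∨
      (Real.log 2 / d ^ 2 ≤ lam ∧
        ∃ XA XB : Finset K, XA ∪ XB = X ∧ ∀ Y, (Y ⊆ XA ∨ Y ⊆ XB) →
        logEnergy v (Aof v f) Y ≤ lam *
          (- (Y.card : ℝ) ^ 2 / (4 * d ^ 2) + 7 * d * Y.card))) := by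
  obtain ⟨x0, hx0⟩ := hXne
  obtain ⟨r, hr1, hr2, hr3, hr4⟩ := exc_finite v hd hd2 X hX hx0
  have hf0 : f ≠ 0 := by
    rintro rfl
    rw [natDegree_zero] at hd
    omega
  have hlcpos : 0 < v f.leadingCoeff := FinitePlace.pos_iff.mpr (leadingCoeff_ne_zero.mpr hf0)
  have hA : 0 < Aof v f := Aof_pos hlcpos
  refine ⟨Real.log (r * Aof v f), Real.log_nonneg hr3, ?_, ?_, ?_⟩
  · rw [← hd, ← log_weight_eq hlcpos (by omega)]
    apply le_antisymm
    · exact localWeight_le hr1
    · have hne : {ρ : ℝ | ∃ (t : K) (r : ℝ), EscapeDisc v f t r ∧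
          ρ = Real.log (v f.leadingCoeff * r ^ (f.natDegree - 1))}.Nonempty :=
        ⟨_, x0, r, hr1, rfl⟩
      apply le_csInf hne
      rintro ρ ⟨t, r', h, rfl⟩
      have h1 := hr2 r' (h.recentre (by omega) (hX x0 hx0))
      have hr0 : 0 < r := hr1.1
      apply Real.log_le_log (by positivity)
      gcongr
  · rcases hr4 with ⟨h1, h2⟩ | ⟨_, h2, _⟩
    · intro Y hY
      rw [h1, Real.log_one, mul_zero, zero_mul]
      unfold logEnergy
      apply Finset.sum_nonpos
      intro p hp
      have hp' := Finset.mem_offDiag.mp hp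
      apply Real.log_nonpos
      · have : 0 < v (p.1 - p.2) := FinitePlace.pos_iff.mpr (sub_ne_zero.mpr hp'.2.2)
        positivity
      · exact h2 _ (hY hp'.1) _ (hY hp'.2.1)
    · exact h2
  · rcases hr4 with ⟨h1, h2⟩ | ⟨h1, _, h2⟩
    · left
      exact ⟨by rw [h1, Real.log_one], h2⟩
    · right
      exact ⟨h1, h2⟩

end finite

end Pool.Agent.UBC90787a
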