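import Pool.Agent.Lib.MP_90787a_nt.Core
import Pool.Agent.Lib.MP_90787a_nt.LocalWeight

set_option autoImplicit false
set_option linter.unusedSectionVars false

/-!
The global argument.
-/

namespace Pool.Agent.UBC90787a

open Polynomial Finset NumberField

open Classical in
theorem engine (D d : ℕ) (hD : 1 ≤ D) (hd2 : 2 ≤ d) {δ C0 κ : ℝ} (hδ : 0 < δ) (hC0 : 0 ≤ C0)
    (hκ : 0 ≤ κ) : ∃ C : ℝ, 0 ≤ C ∧ ∀ (K : Type) [Field K] [NumberField K],
      Module.finrank ℚ K = D → ∀ f : K[X], f.natDegree = d →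
      ∀ S T : Finset (FinitePlace K), Disjoint S T →
      ∀ X : Finset K, (∀ x ∈ X, Preper (fun z => f.eval z) x) → ∀ h : FinitePlace K → ℝ,
      (∀ v ∈ T, Real.log 2 / d ^ 2 ≤ h v) →
      (∀ v ∈ T, ∀ Y ⊆ X, logEnergy v (Aof v f) Y ≤
        h v * (- δ * (Y.card : ℝ) ^ 2 + C0 * Y.card)) →
      (∀ U : Finset (FinitePlace K), Disjoint U S → Disjoint U T →
        ∑ v ∈ U, localWeight v f ≤ κ * (1 + ∑ v ∈ T, h v + ∑ v ∈ S, localWeight v f +
          ∑ w : InfinitePlace K, (w.mult : ℝ) * localWeight w f)) →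
      (X.card : ℝ) ≤ C * (S.card + 1) * Real.log (S.card + 2) := by
  have hdR : (2 : ℝ) ≤ d := by exact_mod_cast hd2
  have hDR : (1 : ℝ) ≤ D := by exact_mod_cast hD
  have hd0 : (0 : ℝ) < d := by linarith
  have hl2 : 0 < Real.log 2 := Real.log_pos (by norm_num)
  have hl4 : 0 ≤ Real.log 4 := Real.log_nonneg (by norm_num)
  set δ' : ℝ := min δ (1 / (4 * (d : ℝ) ^ 2)) with hδ'
  have hδ'pos : 0 < δ' := lt_min hδ (by positivity)
  set c : ℝ := C0 + (4 * d * Real.log 4 + 2) + 7 * (d : ℝ) ^ 2 with hc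
  have hdd : (d : ℝ) ≤ (d : ℝ) ^ 2 := by nlinarith
  have hc0 : 0 ≤ c := by positivity
  have hc1 : C0 ≤ c := by
    have : 0 ≤ (4 * d * Real.log 4 + 2) + 7 * (d : ℝ) ^ 2 := by positivity
    linarith
  have hc2 : 4 * d ≤ c := by
    have : 0 ≤ C0 + (4 * d * Real.log 4 + 2) := by positivity
    linarith
  have hc3 : 7 * d ≤ c := by
    have : 0 ≤ C0 + (4 * d * Real.log 4 + 2) := by positivity
    linarith
  have hc4 : 6 * (d : ℝ) ^ 2 ≤ c := by
    have : 0 ≤ C0 + (4 * d * Real.log 4 + 2) := by positivity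
    have : 0 ≤ (d : ℝ) ^ 2 := by positivity
    linarith
  have hc5 : 4 * d * Real.log 4 + 2 ≤ c := by
    have : 0 ≤ 7 * (d : ℝ) ^ 2 := by positivity
    linarith
  have hc6 : 2 ≤ c := by
    have : 0 ≤ 4 * d * Real.log 4 := by positivity
    linarith
  set ε : ℝ := Real.log 2 / d ^ 2 with hε
  have hεpos : 0 < ε := by positivity
  set Λ : ℝ := Real.log (4096 * (d : ℝ) ^ 4) with hΛ
  have hΛ1 : 1 ≤ Λ := by
    rw [hΛ, Real.le_log_iff_exp_le (by positivity)]
    have h1 := Real.exp_one_lt_d9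
    have h2 : (1 : ℝ) ≤ (d : ℝ) ^ 4 := one_le_pow₀ (by linarith)
    linarith
  obtain ⟨M0, hM0, hcore⟩ := core (D := D) hDR (δ := δ') (c := c) (κ := κ) (ε := ε) (Λ := Λ)
    hδ'pos hc0 hκ hεpos hΛ1
  set B : ℝ := κ * (1 + 2 * D * Λ) with hB
  have hB0 : 0 ≤ B := by positivity
  obtain ⟨C1, hC1, hfin1⟩ := final_bound hM0
  obtain ⟨C2, hC2, hfin2⟩ := final_bound (M0 := M0 * (B / ε + 1)) (by
    have : 1 ≤ B / ε + 1 := by
      have : 0 ≤ B / ε := by positivity
      linarith
    exact one_le_mul_of_one_le_of_one_le hM0 this)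
  set R : ℕ := ⌈8 * Real.exp (2 * D * Λ)⌉₊ with hR
  set C3 : ℝ := ((((4 * R + 2) ^ 2) ^ D : ℕ) : ℝ) / Real.log 2 with hC3
  have hC3n : 0 ≤ C3 := by positivity
  refine ⟨C1 + C2 + C3, by positivity, ?_⟩
  intro K _ _ hKD f hfd S T hST X hX h hT1 hT2 hU
  have hmono : 1 * Real.log 2 ≤ ((S.card : ℝ) + 1) * Real.log (S.card + 2) := by
    have h1 : (0 : ℝ) ≤ S.card := Nat.cast_nonneg _
    have h2 : Real.log 2 ≤ Real.log (S.card + 2) := Real.log_le_log (by norm_num) (by linarith)
    have h3 : (1 : ℝ) ≤ S.card + 1 := by linarith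
    gcongr
  have hmono' : 0 ≤ ((S.card : ℝ) + 1) * Real.log (S.card + 2) := by linarith
  rcases Finset.eq_empty_or_nonempty X with rfl | hXne
  · rw [Finset.card_empty, Nat.cast_zero, mul_assoc]
    positivity
  have hf0 : f ≠ 0 := by
    rintro rfl
    rw [natDegree_zero] at hfd
    omega
  have ha : f.leadingCoeff ≠ 0 := leadingCoeff_ne_zero.mpr hf0
  obtain ⟨x0, hx0⟩ := hXne
  have hXne : X.Nonempty := ⟨x0, hx0⟩
  choose lam hlam0 hlamw hlamb hlamg using fun v : FinitePlace K =>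
    fin_summary v hfd hd2 X hX hXne
  choose lamw hw0 hwr hwp hwb hwg using fun w : InfinitePlace K =>
    arch_place w hfd hd2 X hX hx0
  have hwlw : ∀ w : InfinitePlace K, localWeight w f ≤ ((d - 1 : ℕ) : ℝ) * lamw w := by
    intro w
    obtain ⟨r, hr1, hr2⟩ := hwr w
    have h1 := localWeight_le hr1
    rw [log_weight_eq (InfinitePlace.pos_iff.mpr ha) (by omega), hfd, ← hr2] at h1
    exact h1
  have hd1 : (1 : ℝ) ≤ ((d - 1 : ℕ) : ℝ) := by exact_mod_cast (by omega : 1 ≤ d - 1)
  -- the mass outside `S ∪ T`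
  have hUlam : ∀ U : Finset (FinitePlace K), Disjoint U S → Disjoint U T →
      ∑ v ∈ U, lam v ≤ κ * (1 + ∑ v ∈ T, h v + ∑ v ∈ S, lam v +
        ∑ w : InfinitePlace K, (w.mult : ℝ) * lamw w) := by
    intro U h1 h2
    have h3 := hU U h1 h2
    have h4 : ∀ s : Finset (FinitePlace K), ∑ v ∈ s, localWeight v f =
        ((d - 1 : ℕ) : ℝ) * ∑ v ∈ s, lam v := by
      intro s
      rw [Finset.mul_sum]
      exact Finset.sum_congr rfl (fun v _ => hlamw v)
    rw [h4 U, h4 S] at h3
    have h5 : ∑ w : InfinitePlace K, (w.mult : ℝ) * localWeight w f ≤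
        ((d - 1 : ℕ) : ℝ) * ∑ w : InfinitePlace K, (w.mult : ℝ) * lamw w := by
      rw [Finset.mul_sum]
      apply Finset.sum_le_sum
      intro w _
      have := hwlw w
      calc (w.mult : ℝ) * localWeight w f ≤ w.mult * (((d - 1 : ℕ) : ℝ) * lamw w) := by gcongr
        _ = _ := by ring
    have h6 : 0 ≤ ∑ v ∈ T, h v := Finset.sum_nonneg (fun v hv => hεpos.le.trans (hT1 v hv))
    have h7 : ((d - 1 : ℕ) : ℝ) * ∑ v ∈ U, lam v ≤ ((d - 1 : ℕ) : ℝ) *
        (κ * (1 + ∑ v ∈ T, h v + ∑ v ∈ S, lam v +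
        ∑ w : InfinitePlace K, (w.mult : ℝ) * lamw w)) := by
      refine h3.trans ?_
      have h8 : 1 + ∑ v ∈ T, h v ≤ ((d - 1 : ℕ) : ℝ) * (1 + ∑ v ∈ T, h v) := by nlinarith
      calc κ * (1 + ∑ v ∈ T, h v + ((d - 1 : ℕ) : ℝ) * ∑ v ∈ S, lam v +
            ∑ w : InfinitePlace K, (w.mult : ℝ) * localWeight w f)
          ≤ κ * (((d - 1 : ℕ) : ℝ) * (1 + ∑ v ∈ T, h v) + ((d - 1 : ℕ) : ℝ) * ∑ v ∈ S, lam v +
            ((d - 1 : ℕ) : ℝ) * ∑ w : InfinitePlace K, (w.mult : ℝ) * lamw w) := by gcongr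
        _ = _ := by ring
    exact le_of_mul_le_mul_left h7 (by linarith)
  -- the support
  obtain ⟨F0, hF0⟩ := exists_finset_places (K := K)
    (insert f.leadingCoeff ((X ×ˢ X).image (fun p => p.1 - p.2)))
  have hF0a : ∀ v, v ∉ F0 → v f.leadingCoeff = 1 := fun v hv =>
    hF0 v hv _ (Finset.mem_insert_self _ _) ha
  have hF0X : ∀ v, v ∉ F0 → ∀ x ∈ X, ∀ y ∈ X, x ≠ y → v (x - y) = 1 := by
    intro v hv x hx y hy hxy
    refine hF0 v hv _ (Finset.mem_insert_of_mem ?_) (sub_ne_zero.mpr hxy)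
    exact Finset.mem_image.mpr ⟨(x, y), Finset.mem_product.mpr ⟨hx, hy⟩, rfl⟩
  have hzero : ∀ F : Finset (FinitePlace K), F0 ⊆ F → ∀ Y ⊆ X,
      ∑ w : InfinitePlace K, (w.mult : ℝ) * logEnergy w (Aof w f) Y +
      ∑ v ∈ F, logEnergy v (Aof v f) Y = 0 := by
    intro F hF Y hY
    exact sum_energy_eq_zero hf0 F (fun v hv => hF0a v (fun h => hv (hF h))) Y
      (fun v hv x hx y hy hxy => hF0X v (fun h => hv (hF h)) x (hY hx) y (hY hy) hxy)
  have hmult1 : ∀ w : InfinitePlace K, (1 : ℝ) ≤ w.mult := fun w => by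
    exact_mod_cast InfinitePlace.mult_pos
  have hmultD : ∑ w : InfinitePlace K, (w.mult : ℝ) = D := by
    rw [← hKD, ← InfinitePlace.sum_mult_eq (K := K), Nat.cast_sum]
  -- local bounds in the form used by the core lemma
  have bw : ∀ w : InfinitePlace K, ∀ Y ⊆ X,
      logEnergy w (Aof w f) Y ≤ (c * lamw w + c) * ell Y.card := by
    intro w Y hY
    refine (hwb w Y hY).trans ?_
    have h1 := ell_nonneg Y.card
    have h2 : 4 * d * (lamw w + Real.log 4) + 2 ≤ c * lamw w + c := by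
      have h3 : 4 * d * lamw w ≤ c * lamw w := by
        have := hw0 w
        gcongr
      linarith
    have h4 : (Y.card : ℝ) * (1 + Real.log Y.card) = ell Y.card := rfl
    rw [h4]
    gcongr
  have gw : ∀ w : InfinitePlace K, Λ ≤ lamw w → ∃ XA XB : Finset K, XA ∪ XB = X ∧
      ∀ Y, (Y ⊆ XA ∨ Y ⊆ XB) → logEnergy w (Aof w f) Y ≤
        lamw w * (- δ' * (Y.card : ℝ) ^ 2 + c * Y.card) + c * ell Y.card := by
    intro w hw
    obtain ⟨XA, XB, h1, h2⟩ := hwg w hw
    refine ⟨XA, XB, h1, fun Y hY => (h2 Y hY).trans ?_⟩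
    have h3 := ell_nonneg Y.card
    have h4 : (Y.card : ℝ) * (1 + Real.log Y.card) = ell Y.card := rfl
    rw [h4]
    have h5 : - (Y.card : ℝ) ^ 2 / (2 * d ^ 2) + 6 * d ^ 2 * Y.card ≤
        - δ' * (Y.card : ℝ) ^ 2 + c * Y.card := by
      have h6 : 6 * (d : ℝ) ^ 2 * Y.card ≤ c * Y.card := by gcongr
      have h7 : δ' * (Y.card : ℝ) ^ 2 ≤ 1 / (4 * (d : ℝ) ^ 2) * (Y.card : ℝ) ^ 2 := by
        have := min_le_right δ (1 / (4 * (d : ℝ) ^ 2))
        gcongr
      have h8 : 1 / (4 * (d : ℝ) ^ 2) * (Y.card : ℝ) ^ 2 ≤ (Y.card : ℝ) ^ 2 / (2 * d ^ 2) := by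
        rw [one_div_mul_eq_div]
        gcongr
        norm_num
      have h9 : - (Y.card : ℝ) ^ 2 / (2 * d ^ 2) = - ((Y.card : ℝ) ^ 2 / (2 * d ^ 2)) := by ring
      rw [h9]
      linarith
    have := hw0 w
    gcongr
  have bv : ∀ v : FinitePlace K, ∀ Y ⊆ X,
      logEnergy v (Aof v f) Y ≤ c * lam v * ell Y.card := by
    intro v Y hY
    refine (hlamb v Y hY).trans ?_
    have h4 : (Y.card : ℝ) * (1 + Real.log Y.card) = ell Y.card := rfl
    rw [h4]
    have h1 := ell_nonneg Y.card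
    have h2 := hlam0 v
    gcongr
  have gv : ∀ v : FinitePlace K, 0 < lam v → ε ≤ lam v ∧ ∃ XA XB : Finset K, XA ∪ XB = X ∧
      ∀ Y, (Y ⊆ XA ∨ Y ⊆ XB) → logEnergy v (Aof v f) Y ≤
        lam v * (- δ' * (Y.card : ℝ) ^ 2 + c * Y.card) := by
    intro v hv
    rcases hlamg v with ⟨h1, _⟩ | ⟨h1, XA, XB, h2, h3⟩
    · rw [h1] at hv
      exact absurd hv (lt_irrefl _)
    refine ⟨h1, XA, XB, h2, fun Y hY => (h3 Y hY).trans ?_⟩
    have h5 : - (Y.card : ℝ) ^ 2 / (4 * d ^ 2) + 7 * d * Y.card ≤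
        - δ' * (Y.card : ℝ) ^ 2 + c * Y.card := by
      have h6 : 7 * (d : ℝ) * Y.card ≤ c * Y.card := by gcongr
      have h7 : δ' * (Y.card : ℝ) ^ 2 ≤ 1 / (4 * (d : ℝ) ^ 2) * (Y.card : ℝ) ^ 2 := by
        have := min_le_right δ (1 / (4 * (d : ℝ) ^ 2))
        gcongr
      have h8 : 1 / (4 * (d : ℝ) ^ 2) * (Y.card : ℝ) ^ 2 = (Y.card : ℝ) ^ 2 / (4 * d ^ 2) := by
        rw [one_div_mul_eq_div]
      have h9 : - (Y.card : ℝ) ^ 2 / (4 * d ^ 2) = - ((Y.card : ℝ) ^ 2 / (4 * d ^ 2)) := by ring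
      rw [h9]
      linarith
    gcongr
  have gT : ∀ v ∈ T, ∀ Y ⊆ X, logEnergy v (Aof v f) Y ≤
      h v * (- δ' * (Y.card : ℝ) ^ 2 + c * Y.card) := by
    intro v hv Y hY
    refine (hT2 v hv Y hY).trans ?_
    have h1 : 0 ≤ h v := hεpos.le.trans (hT1 v hv)
    have h2 : - δ * (Y.card : ℝ) ^ 2 + C0 * Y.card ≤ - δ' * (Y.card : ℝ) ^ 2 + c * Y.card := by
      have h3 : δ' * (Y.card : ℝ) ^ 2 ≤ δ * (Y.card : ℝ) ^ 2 := by
        have := min_le_left δ (1 / (4 * (d : ℝ) ^ 2))
        gcongr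
      have h4 : C0 * (Y.card : ℝ) ≤ c * Y.card := by gcongr
      linarith
    gcongr
  by_cases hnt : 0 < ∑ v ∈ T, h v + ∑ v ∈ S, lam v ∨
      2 * (D : ℝ) * Λ ≤ ∑ w : InfinitePlace K, (w.mult : ℝ) * lamw w
  · -- the main case
    set U : Finset (FinitePlace K) := F0 \ (S ∪ T) with hUdef
    have hUS : Disjoint U S := by
      rw [Finset.disjoint_left]
      intro v hv hvS
      rw [hUdef, Finset.mem_sdiff] at hv
      exact hv.2 (Finset.mem_union_left _ hvS)
    have hUT : Disjoint U T := by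
      rw [Finset.disjoint_left]
      intro v hv hvT
      rw [hUdef, Finset.mem_sdiff] at hv
      exact hv.2 (Finset.mem_union_right _ hvT)
    obtain ⟨n, hn1, hn2, hn3⟩ := hcore X hXne (fun w : InfinitePlace K => (w.mult : ℝ)) hmult1
      hmultD (fun w Y => logEnergy w (Aof w f) Y)
      (fun (v : FinitePlace K) Y => logEnergy v (Aof v f) Y) lamw lam h S T U (by
        intro Y hY
        have h1 := hzero (S ∪ T ∪ U) (by
          intro v hv
          by_cases hvST : v ∈ S ∪ T
          · exact Finset.mem_union_left _ hvST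
          · exact Finset.mem_union_right _ (Finset.mem_sdiff.mpr ⟨hv, hvST⟩)) Y hY
        rw [Finset.sum_union (by
          rw [Finset.disjoint_union_left]
          exact ⟨hUS.symm, hUT.symm⟩), Finset.sum_union hST] at h1
        linarith) hw0 bw gw hlam0 (fun v _ => bv v) (fun v _ => gv v) hT1 gT (fun v _ => bv v)
      (hUlam U hUS hUT) hnt
    have h1 := hfin1 S.card n X.card hn1 hn2 hn3
    calc (X.card : ℝ) ≤ C1 * (S.card + 1) * Real.log (S.card + 2) := h1
      _ = C1 * ((S.card + 1) * Real.log (S.card + 2)) := by ring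
      _ ≤ (C1 + C2 + C3) * ((S.card + 1) * Real.log (S.card + 2)) := by
          have : C1 ≤ C1 + C2 + C3 := by linarith
          gcongr
      _ = _ := by ring
  · -- the case of bounded total weight
    rw [not_or] at hnt
    obtain ⟨hnt1, hnt2⟩ := hnt
    push Not at hnt1 hnt2
    have hTn : ∀ v ∈ T, 0 ≤ h v := fun v hv => hεpos.le.trans (hT1 v hv)
    have hTs : 0 ≤ ∑ v ∈ T, h v := Finset.sum_nonneg hTn
    have hSs : 0 ≤ ∑ v ∈ S, lam v := Finset.sum_nonneg (fun v _ => hlam0 v)
    have hTe : T = ∅ := by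
      by_contra hne
      obtain ⟨v, hv⟩ := Finset.nonempty_iff_ne_empty.mpr hne
      have h1 : h v ≤ ∑ v ∈ T, h v := Finset.single_le_sum hTn hv
      have h2 := hT1 v hv
      linarith
    have hS0 : ∀ v ∈ S, lam v = 0 := by
      intro v hv
      have h1 : lam v ≤ ∑ v ∈ S, lam v := Finset.single_le_sum (fun v _ => hlam0 v) hv
      have h2 := hlam0 v
      linarith
    have hbound : ∀ U : Finset (FinitePlace K), Disjoint U S → ∑ v ∈ U, lam v ≤ B := by
      intro U hUS
      refine (hUlam U hUS (by rw [hTe]; exact Finset.disjoint_empty_right _)).trans ?_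
      rw [hB]
      have : ∑ v ∈ T, h v + ∑ v ∈ S, lam v ≤ 0 := hnt1
      gcongr
      linarith
    set S2 : Finset (FinitePlace K) := F0.filter (fun v => 0 < lam v) with hS2
    have hS2S : Disjoint S2 S := by
      rw [Finset.disjoint_left]
      intro v hv hvS
      rw [hS2, Finset.mem_filter, hS0 v hvS] at hv
      exact lt_irrefl _ hv.2
    have hS2card : (S2.card : ℝ) ≤ B / ε := by
      rw [le_div_iff₀ hεpos]
      calc (S2.card : ℝ) * ε = ∑ _v ∈ S2, ε := by rw [Finset.sum_const, nsmul_eq_mul]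
        _ ≤ ∑ v ∈ S2, lam v := by
            apply Finset.sum_le_sum
            intro v hv
            exact (gv v (Finset.mem_filter.mp hv).2).1
        _ ≤ B := hbound S2 hS2S
    rcases Finset.eq_empty_or_nonempty S2 with hS2e | hS2ne
    · -- no bad finite places
      have h1 := box_count (f := f) hf0 X (D := D) hKD (x0 := x0) (R := R) (by
        intro w x hx
        have h2 := hwp w x hx x0 hx0
        refine h2.trans ?_
        have h3 : lamw w ≤ 2 * D * Λ := by
          have h4 : (w.mult : ℝ) * lamw w ≤ ∑ w : InfinitePlace K, (w.mult : ℝ) * lamw w :=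
            Finset.single_le_sum (f := fun w : InfinitePlace K => (w.mult : ℝ) * lamw w)
              (fun w _ => by
                have := hmult1 w
                have := hw0 w
                positivity) (Finset.mem_univ w)
          have h5 : 1 * lamw w ≤ (w.mult : ℝ) * lamw w := by
            have := hmult1 w
            have := hw0 w
            gcongr
          linarith
        calc 8 * Real.exp (lamw w) ≤ 8 * Real.exp (2 * D * Λ) := by gcongr
          _ ≤ R := Nat.le_ceil _) (by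
        intro v x hx y hy
        by_cases hv : v ∈ F0
        · have hv0 : lam v = 0 := by
            by_contra hne
            have h2 : 0 < lam v := lt_of_le_of_ne (hlam0 v) (Ne.symm hne)
            have h3 : v ∈ S2 := Finset.mem_filter.mpr ⟨hv, h2⟩
            rw [hS2e] at h3
            exact absurd h3 (Finset.notMem_empty _)
          rcases hlamg v with ⟨_, h2⟩ | ⟨h2, _⟩
          · exact h2 x hx y hy
          · rw [hv0] at h2
            linarith
        · have h2 : Aof v f = 1 := by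
            unfold Aof
            rw [hF0a v hv, Real.one_rpow]
          rw [h2, mul_one]
          rcases eq_or_ne x y with rfl | hxy
          · rw [sub_self, map_zero]
            norm_num
          · rw [hF0X v hv x hx y hy hxy])
      have h2 : (X.card : ℝ) ≤ C3 * Real.log 2 := by
        rw [hC3, div_mul_cancel₀ _ hl2.ne']
        exact_mod_cast h1
      calc (X.card : ℝ) ≤ C3 * (1 * Real.log 2) := by rw [one_mul]; exact h2
        _ ≤ C3 * ((S.card + 1) * Real.log (S.card + 2)) := by gcongr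
        _ ≤ (C1 + C2 + C3) * ((S.card + 1) * Real.log (S.card + 2)) := by
            have : C3 ≤ C1 + C2 + C3 := by linarith
            gcongr
        _ = _ := by ring
    · -- boundedly many bad finite places
      obtain ⟨n, hn1, hn2, hn3⟩ := hcore X hXne (fun w : InfinitePlace K => (w.mult : ℝ)) hmult1
        hmultD (fun w Y => logEnergy w (Aof w f) Y)
        (fun (v : FinitePlace K) Y => logEnergy v (Aof v f) Y) lamw lam h S2 ∅ ∅ (by
          intro Y hY
          have h1 := hzero F0 subset_rfl Y hY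
          have h2 : ∑ v ∈ F0, logEnergy v (Aof v f) Y ≤ ∑ v ∈ S2, logEnergy v (Aof v f) Y := by
            rw [hS2, Finset.sum_filter]
            apply Finset.sum_le_sum
            intro v _
            split_ifs with h3
            · exact le_rfl
            · have h4 : lam v = 0 := by
                have := hlam0 v
                linarith
              have h5 := bv v Y hY
              rw [h4] at h5
              linarith
          simp only [Finset.sum_empty]
          linarith) hw0 bw gw hlam0 (fun v _ => bv v) (fun v _ => gv v)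
        (fun v hv => absurd hv (Finset.notMem_empty _))
        (fun v hv => absurd hv (Finset.notMem_empty _))
        (fun v hv => absurd hv (Finset.notMem_empty _))
        (by
          rw [Finset.sum_empty, Finset.sum_empty]
          have h1 : 0 ≤ ∑ v ∈ S2, lam v := Finset.sum_nonneg (fun v _ => hlam0 v)
          have h2 : 0 ≤ ∑ w : InfinitePlace K, (w.mult : ℝ) * lamw w :=
            Finset.sum_nonneg (fun w _ => by
              have := hmult1 w
              have := hw0 w
              positivity)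
          positivity)
        (Or.inl (by
          rw [Finset.sum_empty, zero_add]
          exact Finset.sum_pos (fun v hv => (Finset.mem_filter.mp hv).2) hS2ne))
      have hlogn : 0 ≤ Real.log n := Real.log_natCast_nonneg n
      have h1 := hfin2 0 n X.card hn1 hn2 (hn3.trans (by
        rw [Nat.cast_zero, zero_add, mul_one]
        have h2 : M0 * ((S2.card : ℝ) + 1) ≤ M0 * (B / ε + 1) := by gcongr
        gcongr))
      rw [Nat.cast_zero, zero_add, zero_add, mul_one] at h1
      calc (X.card : ℝ) ≤ C2 * (1 * Real.log 2) := by rw [one_mul]; exact h1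
        _ ≤ C2 * ((S.card + 1) * Real.log (S.card + 2)) := by gcongr
        _ ≤ (C1 + C2 + C3) * ((S.card + 1) * Real.log (S.card + 2)) := by
            have : C2 ≤ C1 + C2 + C3 := by linarith
            gcongr
        _ = _ := by ring

end Pool.Agent.UBC90787a
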