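import Mathlib

set_option autoImplicit false
set_option linter.unusedSectionVars false

/-!
Multisets of iterated preimages of a point under a polynomial.
-/

namespace Pool.Agent.UBC90787a

open Polynomial Finset

/-- Multiset of the `n`-fold preimages of `w` under `g`. -/
noncomputable def preim {L : Type*} [Field L] (g : L[X]) (w : L) : ℕ → Multiset L
  | 0 => {w}
  | n + 1 => (preim g w n).bind (fun z => (g - C z).roots)

lemma preim_zero {L : Type*} [Field L] (g : L[X]) (w : L) : preim g w 0 = {w} := rfl

lemma preim_succ {L : Type*} [Field L] (g : L[X]) (w : L) (n : ℕ) :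
    preim g w (n + 1) = (preim g w n).bind (fun z => (g - C z).roots) := rfl

lemma leadingCoeff_sub_C' {L : Type*} [Field L] {g : L[X]} (hg : 1 ≤ g.natDegree) (z : L) :
    (g - C z).leadingCoeff = g.leadingCoeff := by
  unfold leadingCoeff
  rw [natDegree_sub_C, coeff_sub, coeff_C, if_neg (by omega), sub_zero]

section algclosed

variable {L : Type*} [NormedField L] [IsAlgClosed L]

lemma roots_sub_card (g : L[X]) (z : L) : (g - C z).roots.card = g.natDegree := by
  rw [IsAlgClosed.card_roots_eq_natDegree, natDegree_sub_C]

lemma eval_of_mem_roots {g : L[X]} (hg : 1 ≤ g.natDegree) {z b : L} (hb : b ∈ (g - C z).roots) :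
    g.eval b = z := by
  have hne : g - C z ≠ 0 := by
    intro h
    have := natDegree_sub_C (p := g) (a := z)
    rw [h, natDegree_zero] at this
    omega
  rw [mem_roots hne, IsRoot, eval_sub, eval_C, sub_eq_zero] at hb
  exact hb

lemma norm_multiset_prod (s : Multiset L) : ‖s.prod‖ = (s.map (fun b => ‖b‖)).prod := by
  induction s using Multiset.induction_on with
  | empty => simp
  | cons a s ih => simp [ih]

lemma norm_eval_sub_eq {g : L[X]} (hg : 1 ≤ g.natDegree) (y z : L) :
    ‖g.eval y - z‖ = ‖g.leadingCoeff‖ * ((g - C z).roots.map (fun b => ‖y - b‖)).prod := by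
  have h := (IsAlgClosed.splits (g - C z)).eval_eq_prod_roots y
  rw [eval_sub, eval_C, leadingCoeff_sub_C' hg] at h
  rw [h, norm_mul, norm_multiset_prod, Multiset.map_map]
  rfl

lemma card_preim {g : L[X]} {w : L} (n : ℕ) :
    (preim g w n).card = g.natDegree ^ n := by
  induction n with
  | zero => simp [preim_zero]
  | succ n ih =>
    rw [preim_succ, Multiset.card_bind]
    have : (Multiset.card ∘ fun z => (g - C z).roots) = fun _ => g.natDegree := by
      ext z
      exact roots_sub_card g z
    rw [this, Multiset.map_const', Multiset.sum_replicate, ih, smul_eq_mul, pow_succ]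

lemma iterate_of_mem_preim {g : L[X]} (hg : 1 ≤ g.natDegree) {w : L} (n : ℕ) :
    ∀ b ∈ preim g w n, (fun z => g.eval z)^[n] b = w := by
  induction n with
  | zero =>
    intro b hb
    simpa [preim_zero] using hb
  | succ n ih =>
    intro b hb
    rw [preim_succ, Multiset.mem_bind] at hb
    obtain ⟨z, hz, hbz⟩ := hb
    rw [Function.iterate_succ_apply]
    have : g.eval b = z := eval_of_mem_roots hg hbz
    rw [this]
    exact ih z hz

lemma log_prod_mul_pow (s : Multiset L) (y : L) {A : ℝ} (hA : 0 < A) (h : ∀ b ∈ s, b ≠ y) :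
    (s.map (fun b => Real.log (‖y - b‖ * A))).sum =
      Real.log ((s.map (fun b => ‖y - b‖)).prod * A ^ s.card) ∧
      0 < (s.map (fun b => ‖y - b‖)).prod := by
  induction s using Multiset.induction_on with
  | empty => simp
  | cons a s ih =>
    obtain ⟨ih1, ih2⟩ := ih (fun b hb => h b (Multiset.mem_cons_of_mem hb))
    have ha : 0 < ‖y - a‖ := norm_pos_iff.mpr (sub_ne_zero.mpr (h a (Multiset.mem_cons_self a s)).symm)
    refine ⟨?_, ?_⟩
    · rw [Multiset.map_cons, Multiset.sum_cons, ih1, ← Real.log_mul (by positivity) (by positivity)]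
      congr 1
      rw [Multiset.map_cons, Multiset.prod_cons, Multiset.card_cons, pow_succ]
      ring
    · rw [Multiset.map_cons, Multiset.prod_cons]
      positivity

lemma sum_log_roots {g : L[X]} (hg : 1 ≤ g.natDegree) {A : ℝ} (hA : 0 < A)
    (hAa : A ^ (g.natDegree - 1) = ‖g.leadingCoeff‖) {y z : L} (h : g.eval y ≠ z) :
    ((g - C z).roots.map (fun b => Real.log (‖y - b‖ * A))).sum =
      Real.log (‖g.eval y - z‖ * A) := by
  have hb : ∀ b ∈ (g - C z).roots, b ≠ y := by
    rintro b hb rfl
    exact h (eval_of_mem_roots hg hb)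
  rw [(log_prod_mul_pow _ y hA hb).1, norm_eval_sub_eq hg, roots_sub_card]
  congr 1
  rw [← hAa]
  obtain ⟨e, he⟩ : ∃ e, g.natDegree = e + 1 := ⟨g.natDegree - 1, by omega⟩
  rw [he]
  simp only [Nat.add_sub_cancel]
  ring

lemma sum_log_preim {g : L[X]} (hg : 1 ≤ g.natDegree) {A : ℝ} (hA : 0 < A)
    (hAa : A ^ (g.natDegree - 1) = ‖g.leadingCoeff‖) {w : L} (n : ℕ) :
    ∀ y : L, (fun z => g.eval z)^[n] y ≠ w →
    ((preim g w n).map (fun b => Real.log (‖y - b‖ * A))).sum =
      Real.log (‖(fun z => g.eval z)^[n] y - w‖ * A) := by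
  induction n with
  | zero =>
    intro y _
    simp [preim_zero]
  | succ n ih =>
    intro y hy
    rw [Function.iterate_succ_apply] at hy
    rw [preim_succ, Multiset.map_bind, Multiset.sum_bind, Function.iterate_succ_apply,
      ← ih _ hy]
    congr 1
    refine Multiset.map_congr rfl (fun z hz => ?_)
    refine sum_log_roots hg hA hAa ?_
    intro he
    apply hy
    have := iterate_of_mem_preim hg n z hz
    rw [← this]
    show (fun z => g.eval z)^[n] (g.eval y) = _
    rw [he]

end algclosed

lemma countP_preim_succ {L : Type*} [Field L] (g : L[X]) (w : L) (n : ℕ) (p : L → Prop)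
    [DecidablePred p] :
    Multiset.countP p (preim g w (n + 1)) =
      ((preim g w n).map (fun z => Multiset.countP p (g - C z).roots)).sum := by
  rw [preim_succ, Multiset.countP_eq_card_filter, Multiset.filter_bind, Multiset.card_bind]
  congr 1
  refine Multiset.map_congr rfl (fun z _ => ?_)
  rw [Function.comp_apply, Multiset.countP_eq_card_filter]

lemma countP_le_sum_map {α : Type*} (s : Multiset α) (q : α → Prop) [DecidablePred q] (F : α → ℕ)
    (h : ∀ z ∈ s, q z → 1 ≤ F z) : Multiset.countP q s ≤ (s.map F).sum := by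
  induction s using Multiset.induction_on with
  | empty => simp
  | cons a s ih =>
    have ih' := ih (fun z hz => h z (Multiset.mem_cons_of_mem hz))
    rw [Multiset.countP_cons, Multiset.map_cons, Multiset.sum_cons]
    by_cases ha : q a
    · have := h a (Multiset.mem_cons_self a s) ha
      simp only [ha, if_true]
      omega
    · simp only [ha, if_false]
      omega

lemma sum_map_le_countP {α : Type*} (s : Multiset α) (q : α → Prop) [DecidablePred q]
    (F : α → ℕ) (c : ℕ)
    (h : ∀ z ∈ s, F z ≤ if q z then c else 0) : (s.map F).sum ≤ c * Multiset.countP q s := by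
  induction s using Multiset.induction_on with
  | empty => simp
  | cons a s ih =>
    have ih' := ih (fun z hz => h z (Multiset.mem_cons_of_mem hz))
    have ha := h a (Multiset.mem_cons_self a s)
    rw [Multiset.countP_cons, Multiset.map_cons, Multiset.sum_cons]
    by_cases hq : q a
    · simp only [hq, if_true] at ha ⊢
      rw [mul_add, mul_one]
      omega
    · simp only [hq, if_false, add_zero] at ha ⊢
      omega

end Pool.Agent.UBC90787a
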