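import Mathlib

set_option autoImplicit false

/-!
Escape radii for polynomials over normed fields.
-/

namespace Pool.Agent.UBC90787a

open Polynomial Finset

/-- `x` has a finite forward orbit under `φ`. -/
def Preper {α : Type*} (φ : α → α) (x : α) : Prop :=
  ∃ i j : ℕ, j < i ∧ φ^[i] x = φ^[j] x

lemma Preper.iterate {α : Type*} {φ : α → α} {x : α} (h : Preper φ x) (n : ℕ) :
    Preper φ (φ^[n] x) := by
  obtain ⟨i, j, hij, he⟩ := h
  refine ⟨i, j, hij, ?_⟩
  rw [← Function.iterate_add_apply, ← Function.iterate_add_apply, add_comm i n, add_comm j n,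
    Function.iterate_add_apply, Function.iterate_add_apply, he]

lemma Preper.apply {α : Type*} {φ : α → α} {x : α} (h : Preper φ x) : Preper φ (φ x) :=
  h.iterate 1

lemma not_preper_of_expanding {α : Type*} {φ : α → α} {h : α → ℝ} {S : Set α}
    (hS : ∀ x ∈ S, φ x ∈ S) (hexp : ∀ x ∈ S, h x < h (φ x)) {x : α} (hx : x ∈ S) :
    ¬ Preper φ x := by
  rintro ⟨i, j, hij, he⟩
  have hmem : ∀ n, φ^[n] x ∈ S := by
    intro n
    induction n with
    | zero => exact hx
    | succ n ih => rw [Function.iterate_succ_apply']; exact hS _ ih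
  have hmono : StrictMono (fun n => h (φ^[n] x)) := by
    refine strictMono_nat_of_lt_succ (fun n => ?_)
    show h (φ^[n] x) < h (φ^[n + 1] x)
    rw [Function.iterate_succ_apply']
    exact hexp _ (hmem n)
  have := hmono hij
  simp only [he] at this
  exact lt_irrefl _ this

/-- `r` is an admissible escape radius of the polynomial `g`. -/
structure IsRadius {L : Type*} [NormedField L] (g : L[X]) (r : ℝ) : Prop where
  pos : 0 < r
  one_le : 1 ≤ ‖g.leadingCoeff‖ * r ^ (g.natDegree - 1)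
  coeff_le : ∀ i < g.natDegree, ‖g.coeff i‖ ≤ ‖g.leadingCoeff‖ * r ^ (g.natDegree - i)

lemma IsRadius.lc_pos {L : Type*} [NormedField L] {g : L[X]} {r : ℝ} (h : IsRadius g r) :
    0 < ‖g.leadingCoeff‖ := by
  rcases (norm_nonneg g.leadingCoeff).eq_or_lt with h0 | h0
  · have := h.one_le
    rw [← h0, zero_mul] at this
    linarith
  · exact h0

section ultra

variable {L : Type*} [NormedField L] [IsUltrametricDist L]

lemma IsRadius.norm_eval_eq {g : L[X]} {r : ℝ} (h : IsRadius g r) {x : L} (hx : r < ‖x‖) :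
    ‖g.eval x‖ = ‖g.leadingCoeff‖ * ‖x‖ ^ g.natDegree := by
  have hlc := h.lc_pos
  have hxpos : 0 < ‖x‖ := h.pos.trans hx
  rw [eval_eq_sum_range, Finset.sum_range_succ]
  have htop : ‖g.coeff g.natDegree * x ^ g.natDegree‖ =
      ‖g.leadingCoeff‖ * ‖x‖ ^ g.natDegree := by
    rw [norm_mul, norm_pow]; rfl
  have hlt : ‖∑ i ∈ Finset.range g.natDegree, g.coeff i * x ^ i‖ <
      ‖g.coeff g.natDegree * x ^ g.natDegree‖ := by
    rw [htop]
    rcases Nat.eq_zero_or_pos g.natDegree with hd | hd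
    · rw [hd]; simpa using hlc
    · have hb : ∀ i ∈ Finset.range g.natDegree, ‖g.coeff i * x ^ i‖ <
          ‖g.leadingCoeff‖ * ‖x‖ ^ g.natDegree := by
        intro i hi
        rw [Finset.mem_range] at hi
        rw [norm_mul, norm_pow]
        calc ‖g.coeff i‖ * ‖x‖ ^ i ≤ ‖g.leadingCoeff‖ * r ^ (g.natDegree - i) * ‖x‖ ^ i := by
              gcongr
              exact h.coeff_le i hi
          _ < ‖g.leadingCoeff‖ * ‖x‖ ^ (g.natDegree - i) * ‖x‖ ^ i := by
              have : r ^ (g.natDegree - i) < ‖x‖ ^ (g.natDegree - i) :=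
                pow_lt_pow_left₀ hx h.pos.le (by omega)
              gcongr
          _ = ‖g.leadingCoeff‖ * ‖x‖ ^ g.natDegree := by
              rw [mul_assoc, ← pow_add]
              congr 2
              omega
      obtain ⟨i, hi, hle⟩ := IsUltrametricDist.exists_norm_finsetSum_le
        (Finset.range g.natDegree) (fun i => g.coeff i * x ^ i)
      exact hle.trans_lt (hb i (hi (Finset.nonempty_range_iff.mpr (by omega))))
  rw [IsUltrametricDist.norm_add_eq_max_of_norm_ne_norm hlt.ne, max_eq_right hlt.le, htop]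

lemma IsRadius.lt_norm_eval {g : L[X]} {r : ℝ} (h : IsRadius g r) (hd : 2 ≤ g.natDegree)
    {x : L} (hx : r < ‖x‖) : ‖x‖ < ‖g.eval x‖ := by
  have hxpos : 0 < ‖x‖ := h.pos.trans hx
  rw [h.norm_eval_eq hx]
  have h1 : r ^ (g.natDegree - 1) < ‖x‖ ^ (g.natDegree - 1) :=
    pow_lt_pow_left₀ hx h.pos.le (by omega)
  have h2 : 1 < ‖g.leadingCoeff‖ * ‖x‖ ^ (g.natDegree - 1) :=
    h.one_le.trans_lt (mul_lt_mul_of_pos_left h1 h.lc_pos)
  have h3 : ‖x‖ ^ g.natDegree = ‖x‖ ^ (g.natDegree - 1) * ‖x‖ := by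
    rw [← pow_succ]
    congr 1
    omega
  rw [h3, ← mul_assoc]
  exact lt_mul_of_one_lt_left hxpos h2

lemma IsRadius.preper_le {g : L[X]} {r : ℝ} (h : IsRadius g r) (hd : 2 ≤ g.natDegree)
    {x : L} (hx : Preper (fun z => g.eval z) x) : ‖x‖ ≤ r := by
  by_contra hlt
  push Not at hlt
  refine not_preper_of_expanding (φ := fun z => g.eval z) (h := fun z => ‖z‖)
    (S := {z | r < ‖z‖}) ?_ ?_ hlt hx
  · intro y hy
    exact lt_trans hy (h.lt_norm_eval hd hy)
  · intro y hy
    exact h.lt_norm_eval hd hy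

lemma norm_pow_sub_pow_le {y z : L} {r : ℝ} (hy : ‖y‖ ≤ r) (hz : ‖z‖ ≤ r) (i : ℕ) :
    ‖y ^ i - z ^ i‖ ≤ ‖y - z‖ * r ^ (i - 1) := by
  have hr : 0 ≤ r := (norm_nonneg _).trans hy
  induction i with
  | zero => simp
  | succ i ih =>
    have e : y ^ (i + 1) - z ^ (i + 1) = y * (y ^ i - z ^ i) + (y - z) * z ^ i := by ring
    rw [e]
    refine (IsUltrametricDist.norm_add_le_max _ _).trans (max_le ?_ ?_)
    · rcases Nat.eq_zero_or_pos i with rfl | hi
      · simp
      · rw [norm_mul, Nat.add_sub_cancel]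
        calc ‖y‖ * ‖y ^ i - z ^ i‖ ≤ r * (‖y - z‖ * r ^ (i - 1)) := by gcongr
          _ = ‖y - z‖ * (r ^ (i - 1) * r) := by ring
          _ = ‖y - z‖ * r ^ i := by
            rw [← pow_succ]
            congr 2
            omega
    · rw [norm_mul, norm_pow, Nat.add_sub_cancel]
      gcongr

lemma IsRadius.lipschitz {g : L[X]} {r : ℝ} (h : IsRadius g r) (hd : 1 ≤ g.natDegree)
    {y z : L} (hy : ‖y‖ ≤ r) (hz : ‖z‖ ≤ r) :
    ‖g.eval y - g.eval z‖ ≤ ‖g.leadingCoeff‖ * r ^ (g.natDegree - 1) * ‖y - z‖ := by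
  have hr := h.pos
  rw [eval_eq_sum_range, eval_eq_sum_range, ← Finset.sum_sub_distrib]
  refine IsUltrametricDist.norm_sum_le_of_forall_le_of_nonneg (by positivity) ?_
  intro i hi
  rw [Finset.mem_range] at hi
  rw [← mul_sub, norm_mul]
  rcases Nat.eq_zero_or_pos i with rfl | hi0
  · simp only [pow_zero, sub_self, norm_zero, mul_zero]
    positivity
  have hc : ‖g.coeff i‖ ≤ ‖g.leadingCoeff‖ * r ^ (g.natDegree - i) := by
    rcases Nat.lt_or_ge i g.natDegree with h1 | h1
    · exact h.coeff_le i h1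
    · have : i = g.natDegree := by omega
      rw [this, Nat.sub_self, pow_zero, mul_one]
      rfl
  calc ‖g.coeff i‖ * ‖y ^ i - z ^ i‖
      ≤ (‖g.leadingCoeff‖ * r ^ (g.natDegree - i)) * (‖y - z‖ * r ^ (i - 1)) := by
        gcongr
        exact norm_pow_sub_pow_le hy hz i
    _ = ‖g.leadingCoeff‖ * (r ^ (g.natDegree - i) * r ^ (i - 1)) * ‖y - z‖ := by ring
    _ = ‖g.leadingCoeff‖ * r ^ (g.natDegree - 1) * ‖y - z‖ := by
        rw [← pow_add]
        congr 3
        omega

/-- Points close to a bounded orbit stay bounded for a while. -/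
lemma IsRadius.iterate_close {g : L[X]} {r : ℝ} (h : IsRadius g r) (hd : 1 ≤ g.natDegree)
    {x b : L} (hx : ∀ j, ‖(fun z => g.eval z)^[j] x‖ ≤ r) (n : ℕ)
    (hb : ‖b - x‖ * (‖g.leadingCoeff‖ * r ^ (g.natDegree - 1)) ^ n ≤ r) :
    ‖(fun z => g.eval z)^[n] b‖ ≤ r := by
  have hκ := h.one_le
  set κ := ‖g.leadingCoeff‖ * r ^ (g.natDegree - 1) with hκdef
  have key : ∀ j ≤ n, ‖(fun z => g.eval z)^[j] b - (fun z => g.eval z)^[j] x‖ ≤
      ‖b - x‖ * κ ^ j ∧ ‖(fun z => g.eval z)^[j] b‖ ≤ r := by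
    intro j
    induction j with
    | zero =>
      intro _
      refine ⟨by simp, ?_⟩
      have h1 : ‖b - x‖ ≤ r := by
        refine le_trans ?_ hb
        exact le_mul_of_one_le_right (norm_nonneg _) (one_le_pow₀ hκ)
      have h2 := hx 0
      simp only [Function.iterate_zero, id] at h2 ⊢
      have h3 : b = (b - x) + x := by ring
      rw [h3]
      exact (IsUltrametricDist.norm_add_le_max _ _).trans (max_le h1 h2)
    | succ j ih =>
      intro hj
      obtain ⟨ih1, ih2⟩ := ih (by omega)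
      have h1 : ‖(fun z => g.eval z)^[j + 1] b - (fun z => g.eval z)^[j + 1] x‖ ≤
          ‖b - x‖ * κ ^ (j + 1) := by
        rw [Function.iterate_succ_apply', Function.iterate_succ_apply']
        refine (h.lipschitz hd ih2 (hx j)).trans ?_
        rw [pow_succ]
        calc κ * ‖(fun z => g.eval z)^[j] b - (fun z => g.eval z)^[j] x‖
            ≤ κ * (‖b - x‖ * κ ^ j) := by gcongr
          _ = ‖b - x‖ * (κ ^ j * κ) := by ring
      refine ⟨h1, ?_⟩
      have h2 : ‖(fun z => g.eval z)^[j + 1] b - (fun z => g.eval z)^[j + 1] x‖ ≤ r := by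
        refine h1.trans (le_trans ?_ hb)
        gcongr
      have h3 : (fun z => g.eval z)^[j + 1] b =
          ((fun z => g.eval z)^[j + 1] b - (fun z => g.eval z)^[j + 1] x) +
            (fun z => g.eval z)^[j + 1] x := by ring
      rw [h3]
      exact (IsUltrametricDist.norm_add_le_max _ _).trans (max_le h2 (hx _))
  exact (key n le_rfl).2

end ultra

end Pool.Agent.UBC90787a
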