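import Pool.Agent.Lib.MP_90787a_nt.Energy
import Pool.Agent.Lib.MP_90787a_nt.Preim
import Pool.Agent.Lib.MP_90787a_nt.Radius

set_option autoImplicit false
set_option linter.unusedSectionVars false

/-!
The local energy estimate at a nonarchimedean place.
-/

namespace Pool.Agent.UBC90787a

open Polynomial Finset

/-- Off-diagonal logarithmic energy (with the sign of a product of distances). -/
noncomputable def logEnergy {F : Type*} [Field F] (v : F → ℝ) (A : ℝ) (Y : Finset F) : ℝ :=
  letI := Classical.decEq F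
  ∑ p ∈ Y.offDiag, Real.log (v (p.1 - p.2) * A)

section weights

variable {L : Type*}

open Classical in
lemma sum_count_mul {P : Finset L} (s : Multiset L) (hs : ∀ b ∈ s, b ∈ P) (F : L → ℝ) :
    ∑ p ∈ P, (Multiset.count p s : ℝ) * F p = (s.map F).sum := by
  rw [Finset.sum_multiset_map_count]
  have hsub : s.toFinset ⊆ P := by
    intro b hb
    exact hs b (Multiset.mem_toFinset.mp hb)
  rw [← Finset.sum_subset hsub]
  · refine Finset.sum_congr rfl (fun p _ => ?_)
    rw [nsmul_eq_mul]
  · intro p _ hp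
    rw [Multiset.mem_toFinset] at hp
    rw [Multiset.count_eq_zero_of_notMem hp]
    simp

open Classical in
lemma sum_indicator_mul {P Y : Finset L} (hY : Y ⊆ P) (F : L → ℝ) :
    ∑ p ∈ P, (if p ∈ Y then (1 : ℝ) else 0) * F p = ∑ p ∈ Y, F p := by
  rw [← Finset.sum_subset hY]
  · refine Finset.sum_congr rfl (fun p hp => ?_)
    rw [if_pos hp, one_mul]
  · intro p _ hp
    rw [if_neg hp, zero_mul]

end weights

lemma sum_map_neg_aux {α : Type*} (s : Multiset α) (F : α → ℝ) :
    (s.map (fun c => -F c)).sum = -(s.map F).sum := by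
  induction s using Multiset.induction_on with
  | empty => simp
  | cons a s ih =>
    rw [Multiset.map_cons, Multiset.sum_cons, ih, Multiset.map_cons, Multiset.sum_cons]
    ring

section local_energy

variable {L : Type*} [NormedField L] [IsUltrametricDist L] [IsAlgClosed L]

open Classical in
theorem local_energy {g : L[X]} (hd2 : 2 ≤ g.natDegree) {A r : ℝ} (hA : 0 < A)
    (hAa : A ^ (g.natDegree - 1) = ‖g.leadingCoeff‖) (hr : IsRadius g r) (Y : Finset L)
    (hYne : Y.Nonempty) (hY : ∀ x ∈ Y, ∀ j, ‖(fun z => g.eval z)^[j] x‖ ≤ r) {E Λ : ℝ} (n T : ℕ)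
    (hT : 1 ≤ T) (w : Fin T → L) (hw : ∀ k, r < ‖w k‖) (hΛ : ∀ k, Real.log (‖w k‖ * A) ≤ Λ)
    (hww : ∀ k l, k ≠ l → r ≤ ‖w k - w l‖)
    (hE : Real.exp (-E) * (r * A) ^ ((g.natDegree - 1) * n) ≤ r * A) (z : L) {a b η : ℝ}
    (hab : a ≤ b) (hη : 0 ≤ η) (ha : -E - Real.log A ≤ a)
    (hcount : ∀ t ∈ Set.Ico a b, η ≤ |((Y.filter (fun x => ‖x - z‖ ≤ Real.exp t)).card : ℝ) / Y.card
      - (∑ k, (Multiset.countP (fun b => ‖b - z‖ ≤ Real.exp t) (preim g (w k) n) : ℝ))
        / (T * g.natDegree ^ n)|) :
    logEnergy (fun x => ‖x‖) A Y ≤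
      - (Y.card : ℝ) ^ 2 * (η ^ 2 * (b - a) - 2 * Λ / g.natDegree ^ n - E / T) + Y.card * E := by
  have hd1 : 1 ≤ g.natDegree := by omega
  have hN : (0 : ℝ) < Y.card := by exact_mod_cast hYne.card_pos
  have hM : (0 : ℝ) < (g.natDegree : ℝ) ^ n := by
    have : (0 : ℝ) < g.natDegree := by exact_mod_cast hd1
    positivity
  have hT0 : (0 : ℝ) < T := by exact_mod_cast hT
  set N : ℝ := (Y.card : ℝ) with hNdef
  set M : ℝ := (g.natDegree : ℝ) ^ n with hMdef
  set φ : L → L := fun z => g.eval z with hφ
  set ε : ℝ := Real.exp (-E) / A with hεdef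
  have hε : 0 < ε := by positivity
  have hlogε : Real.log ε = -E - Real.log A := by
    rw [hεdef, Real.log_div (Real.exp_pos _).ne' hA.ne', Real.log_exp]
  -- leading coefficient and expansion factor
  have hκ : ‖g.leadingCoeff‖ * r ^ (g.natDegree - 1) = (r * A) ^ (g.natDegree - 1) := by
    rw [← hAa, mul_pow, mul_comm]
  have hrA : 1 ≤ r * A := by
    have h1 := hr.one_le
    rw [hκ] at h1
    by_contra hlt
    push Not at hlt
    have h2 : (r * A) ^ (g.natDegree - 1) < 1 :=
      pow_lt_one₀ (by have := hr.pos; positivity) hlt (by omega)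
    linarith
  -- points of the preimage sets are far away from `Y`
  have hfar : ∀ x ∈ Y, ∀ k, ∀ c ∈ preim g (w k) n, ε < ‖x - c‖ := by
    intro x hx k c hc
    by_contra hle
    push Not at hle
    have h1 : ‖φ^[n] c‖ ≤ r := by
      refine hr.iterate_close hd1 (hY x hx) n ?_
      rw [hκ, ← pow_mul, norm_sub_rev]
      calc ‖x - c‖ * (r * A) ^ ((g.natDegree - 1) * n)
          ≤ ε * (r * A) ^ ((g.natDegree - 1) * n) := by gcongr
        _ = (Real.exp (-E) * (r * A) ^ ((g.natDegree - 1) * n)) / A := by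
            rw [hεdef]; ring
        _ ≤ (r * A) / A := by gcongr
        _ = r := by field_simp
    rw [iterate_of_mem_preim hd1 n c hc] at h1
    exact absurd (hw k) (not_lt.mpr h1)
  -- the finite set of points and the weights
  set P : Finset L := Y ∪ (univ : Finset (Fin T)).biUnion (fun k => (preim g (w k) n).toFinset)
    with hP
  have hYP : Y ⊆ P := Finset.subset_union_left
  have hBP : ∀ k, ∀ c ∈ preim g (w k) n, c ∈ P := by
    intro k c hc
    refine Finset.mem_union_right _ (Finset.mem_biUnion.mpr ⟨k, mem_univ _, ?_⟩)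
    exact Multiset.mem_toFinset.mpr hc
  set α : L → ℝ := fun p => (if p ∈ Y then (1 : ℝ) else 0) / N with hα
  set β : L → ℝ := fun p => (∑ k, (Multiset.count p (preim g (w k) n) : ℝ)) / (T * M) with hβ
  have hαsum : ∀ F : L → ℝ, ∑ p ∈ P, α p * F p = (∑ x ∈ Y, F x) / N := by
    intro F
    rw [← sum_indicator_mul hYP F, Finset.sum_div]
    refine Finset.sum_congr rfl (fun p _ => ?_)
    rw [hα]
    ring
  have hβsum : ∀ F : L → ℝ, ∑ p ∈ P, β p * F p =
      (∑ k, ((preim g (w k) n).map F).sum) / (T * M) := by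
    intro F
    have e1 : ∀ k, ((preim g (w k) n).map F).sum =
        ∑ p ∈ P, (Multiset.count p (preim g (w k) n) : ℝ) * F p :=
      fun k => (sum_count_mul _ (hBP k) F).symm
    rw [Finset.sum_congr rfl (fun k _ => e1 k), Finset.sum_comm, Finset.sum_div]
    refine Finset.sum_congr rfl (fun p _ => ?_)
    rw [hβ, ← Finset.sum_mul]
    ring
  have hcardk : ∀ k, (((preim g (w k) n).card : ℕ) : ℝ) = M := by
    intro k
    rw [card_preim, Nat.cast_pow]
  -- total mass zero
  have hα1 : ∑ p ∈ P, α p = 1 := by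
    have := hαsum (fun _ => 1)
    simp only [mul_one, Finset.sum_const, nsmul_eq_mul] at this
    rw [this]
    field_simp
    rfl
  have hβ1 : ∑ p ∈ P, β p = 1 := by
    have := hβsum (fun _ => 1)
    simp only [mul_one, Multiset.map_const', Multiset.sum_replicate, nsmul_eq_mul, hcardk,
      Finset.sum_const, Finset.card_univ, Fintype.card_fin] at this
    rw [this]
    field_simp
  have hσ0 : ∑ p ∈ P, (α p - β p) = 0 := by
    rw [Finset.sum_sub_distrib, hα1, hβ1, sub_self]
  -- masses of the discs
  have hmass : ∀ t, ∑ p ∈ P with ‖p - z‖ ≤ Real.exp t, (α p - β p) =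
      ((Y.filter (fun x => ‖x - z‖ ≤ Real.exp t)).card : ℝ) / N
      - (∑ k, (Multiset.countP (fun b => ‖b - z‖ ≤ Real.exp t) (preim g (w k) n) : ℝ))
        / (T * M) := by
    intro t
    have e1 : ∑ p ∈ P with ‖p - z‖ ≤ Real.exp t, (α p - β p) =
        ∑ p ∈ P, α p * (if ‖p - z‖ ≤ Real.exp t then 1 else 0) -
        ∑ p ∈ P, β p * (if ‖p - z‖ ≤ Real.exp t then 1 else 0) := by
      rw [Finset.sum_filter, ← Finset.sum_sub_distrib]
      refine Finset.sum_congr rfl (fun p _ => ?_)
      split_ifs <;> ring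
    rw [e1, hαsum, hβsum]
    congr 2
    · rw [Finset.sum_boole]
    · refine Finset.sum_congr rfl (fun k _ => ?_)
      generalize preim g (w k) n = s
      induction s using Multiset.induction_on with
      | empty => simp
      | cons c s ih =>
        rw [Multiset.map_cons, Multiset.sum_cons, ih, Multiset.countP_cons]
        split_ifs <;> push_cast <;> ring
  have hen := energy_ge P (fun p => α p - β p) hσ0 z hε hab (hlogε ▸ ha) hη (fun t ht => by
    rw [hmass t]
    exact hcount t ht)
  -- expand the double sum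
  set ℓ : L → L → ℝ := fun p p' => - Real.log (max ‖p - p'‖ ε) with hℓ
  have hsymm : ∀ p p', ℓ p p' = ℓ p' p := by
    intro p p'
    simp only [hℓ, norm_sub_rev]
  have hexp : ∑ p ∈ P, ∑ p' ∈ P, (α p - β p) * (α p' - β p') * ℓ p p' =
      (∑ x ∈ Y, ∑ x' ∈ Y, ℓ x x') / N ^ 2 -
      2 * ((∑ x ∈ Y, ∑ k, ((preim g (w k) n).map (fun c => ℓ x c)).sum) / (N * (T * M))) +
      (∑ k, ((preim g (w k) n).map (fun c =>
        ∑ l, ((preim g (w l) n).map (fun c' => ℓ c c')).sum)).sum) / (T * M) ^ 2 := by
    have e0 : ∑ p ∈ P, ∑ p' ∈ P, (α p - β p) * (α p' - β p') * ℓ p p' =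
        ∑ p ∈ P, α p * (∑ p' ∈ P, α p' * ℓ p p') - 2 * ∑ p ∈ P, α p * (∑ p' ∈ P, β p' * ℓ p p')
        + ∑ p ∈ P, β p * (∑ p' ∈ P, β p' * ℓ p p') := by
      have e1 : ∑ p ∈ P, β p * (∑ p' ∈ P, α p' * ℓ p p') =
          ∑ p ∈ P, α p * (∑ p' ∈ P, β p' * ℓ p p') := by
        simp only [Finset.mul_sum]
        rw [Finset.sum_comm]
        refine Finset.sum_congr rfl (fun p _ => Finset.sum_congr rfl (fun p' _ => ?_))
        rw [hsymm p' p]
        ring
      have e2 : ∑ p ∈ P, ∑ p' ∈ P, (α p - β p) * (α p' - β p') * ℓ p p' =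
          ∑ p ∈ P, α p * (∑ p' ∈ P, α p' * ℓ p p') - ∑ p ∈ P, α p * (∑ p' ∈ P, β p' * ℓ p p')
          - ∑ p ∈ P, β p * (∑ p' ∈ P, α p' * ℓ p p')
          + ∑ p ∈ P, β p * (∑ p' ∈ P, β p' * ℓ p p') := by
        simp only [Finset.mul_sum, ← Finset.sum_sub_distrib, ← Finset.sum_add_distrib]
        refine Finset.sum_congr rfl (fun p _ => Finset.sum_congr rfl (fun p' _ => ?_))
        ring
      rw [e2, e1]
      ring
    rw [e0]
    simp only [hαsum, hβsum]
    rw [← Finset.sum_div, ← Finset.sum_div]
    have e3 : ∀ F : L → ℝ, (∑ k, ((preim g (w k) n).map (fun c => F c / (T * M))).sum) =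
        (∑ k, ((preim g (w k) n).map F).sum) / (T * M) := by
      intro F
      rw [Finset.sum_div]
      refine Finset.sum_congr rfl (fun k _ => ?_)
      rw [← Multiset.sum_map_div]
    rw [e3]
    field_simp
  rw [hexp] at hen
  -- the three estimates
  have hrpos := hr.pos
  have b1 : ∑ x ∈ Y, ∑ x' ∈ Y, ℓ x x' ≤
      - logEnergy (fun x => ‖x‖) A Y + N ^ 2 * Real.log A + N * E := by
    have e1 : ∑ x ∈ Y, ∑ x' ∈ Y, ℓ x x' = ∑ q ∈ Y.offDiag, ℓ q.1 q.2 + ∑ x ∈ Y, ℓ x x := by
      rw [← Finset.sum_product', ← Finset.diag_union_offDiag,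
        Finset.sum_union (Finset.disjoint_diag_offDiag _), Finset.sum_diag]
      ring
    have e2 : ∑ x ∈ Y, ℓ x x = N * (E + Real.log A) := by
      have : ∀ x ∈ Y, ℓ x x = E + Real.log A := by
        intro x _
        simp only [hℓ, sub_self, norm_zero, max_eq_right hε.le, hlogε]
        ring
      rw [Finset.sum_congr rfl this, Finset.sum_const, nsmul_eq_mul]
    have e3 : ∑ q ∈ Y.offDiag, ℓ q.1 q.2 ≤
        ∑ q ∈ Y.offDiag, (Real.log A - Real.log (‖q.1 - q.2‖ * A)) := by
      refine Finset.sum_le_sum (fun q hq => ?_)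
      have hne : q.1 ≠ q.2 := (Finset.mem_offDiag.mp hq).2.2
      have hpos : 0 < ‖q.1 - q.2‖ := norm_pos_iff.mpr (sub_ne_zero.mpr hne)
      rw [Real.log_mul hpos.ne' hA.ne']
      have := Real.log_le_log hpos (le_max_left ‖q.1 - q.2‖ ε)
      simp only [hℓ]
      linarith
    have e4 : ∑ q ∈ Y.offDiag, (Real.log A - Real.log (‖q.1 - q.2‖ * A)) =
        (N ^ 2 - N) * Real.log A - logEnergy (fun x => ‖x‖) A Y := by
      rw [Finset.sum_sub_distrib, Finset.sum_const, nsmul_eq_mul, Finset.offDiag_card]
      have : ((Y.card * Y.card - Y.card : ℕ) : ℝ) = N ^ 2 - N := by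
        rw [Nat.cast_sub (Nat.le_mul_self _)]
        push_cast
        rw [sq]
      rw [this]
      unfold logEnergy
      congr 1
    rw [e1, e2]
    linarith
  have b2 : N * (T * (M * Real.log A - Λ)) ≤
      ∑ x ∈ Y, ∑ k, ((preim g (w k) n).map (fun c => ℓ x c)).sum := by
    have e1 : ∀ x ∈ Y, (T : ℝ) * (M * Real.log A - Λ) ≤
        ∑ k, ((preim g (w k) n).map (fun c => ℓ x c)).sum := by
      intro x hx
      have e2 : ∀ k ∈ (univ : Finset (Fin T)), M * Real.log A - Λ ≤
          ((preim g (w k) n).map (fun c => ℓ x c)).sum := by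
        intro k _
        have hxw : φ^[n] x ≠ w k := by
          intro h
          have h1 := hY x hx n
          rw [h] at h1
          exact absurd (hw k) (not_lt.mpr h1)
        have hs := sum_log_preim hd1 hA hAa (w := w k) n x hxw
        have e3 : ((preim g (w k) n).map (fun c => ℓ x c)) =
            (preim g (w k) n).map (fun c => Real.log A + -Real.log (‖x - c‖ * A)) := by
          refine Multiset.map_congr rfl (fun c hc => ?_)
          have h1 := hfar x hx k c hc
          have h2 : 0 < ‖x - c‖ := hε.trans h1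
          simp only [hℓ]
          rw [max_eq_left h1.le, Real.log_mul h2.ne' hA.ne']
          ring
        rw [e3, Multiset.sum_map_add, Multiset.map_const', Multiset.sum_replicate,
          sum_map_neg_aux, nsmul_eq_mul, hcardk k, hs]
        have h4 : ‖φ^[n] x - w k‖ ≤ ‖w k‖ := by
          rw [sub_eq_add_neg]
          refine (IsUltrametricDist.norm_add_le_max _ _).trans (max_le ?_ (norm_neg _).le)
          exact (hY x hx n).trans (hw k).le
        have h5 : Real.log (‖φ^[n] x - w k‖ * A) ≤ Λ := by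
          refine le_trans ?_ (hΛ k)
          apply Real.log_le_log
          · have : 0 < ‖φ^[n] x - w k‖ := norm_pos_iff.mpr (sub_ne_zero.mpr hxw)
            positivity
          · gcongr
        linarith
      have := Finset.sum_le_sum e2
      rwa [Finset.sum_const, Finset.card_univ, Fintype.card_fin, nsmul_eq_mul] at this
    have := Finset.sum_le_sum e1
    rwa [Finset.sum_const, nsmul_eq_mul] at this
  have b3 : ∑ k, ((preim g (w k) n).map (fun c =>
        ∑ l, ((preim g (w l) n).map (fun c' => ℓ c c')).sum)).sum ≤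
        (T * M) ^ 2 * Real.log A + T * M ^ 2 * E := by
    have e1 : ∀ k, ∀ c ∈ preim g (w k) n,
        ∑ l, ((preim g (w l) n).map (fun c' => ℓ c c')).sum ≤ T * M * Real.log A + M * E := by
      intro k c hc
      have e2 : ∀ l ∈ (univ : Finset (Fin T)), ((preim g (w l) n).map (fun c' => ℓ c c')).sum ≤
          M * Real.log A + (if l = k then M * E else 0) := by
        intro l _
        by_cases hlk : l = k
        · rw [if_pos hlk]
          have e3 : ((preim g (w l) n).map (fun c' => ℓ c c')).sum ≤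
              ((preim g (w l) n).map (fun _ => E + Real.log A)).sum := by
            refine Multiset.sum_map_le_sum_map _ _ (fun c' _ => ?_)
            have := Real.log_le_log hε (le_max_right ‖c - c'‖ ε)
            rw [hlogε] at this
            simp only [hℓ]
            linarith
          refine e3.trans (le_of_eq ?_)
          rw [Multiset.map_const', Multiset.sum_replicate, nsmul_eq_mul, hcardk l]
          ring
        · rw [if_neg hlk, add_zero]
          have hcw : φ^[n] c ≠ w l := by
            rw [iterate_of_mem_preim hd1 n c hc]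
            intro h
            have h1 := hww k l (fun h' => hlk h'.symm)
            rw [h, sub_self, norm_zero] at h1
            exact absurd hrpos (not_lt.mpr h1)
          have hs := sum_log_preim hd1 hA hAa (w := w l) n c hcw
          have e3 : ((preim g (w l) n).map (fun c' => ℓ c c')).sum ≤
              ((preim g (w l) n).map (fun c' => Real.log A + -Real.log (‖c - c'‖ * A))).sum := by
            refine Multiset.sum_map_le_sum_map _ _ (fun c' hc' => ?_)
            have hne : c ≠ c' := by
              rintro rfl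
              exact hcw (iterate_of_mem_preim hd1 n _ hc')
            have h2 : 0 < ‖c - c'‖ := norm_pos_iff.mpr (sub_ne_zero.mpr hne)
            have := Real.log_le_log h2 (le_max_left ‖c - c'‖ ε)
            rw [Real.log_mul h2.ne' hA.ne']
            simp only [hℓ]
            linarith
          refine e3.trans ?_
          rw [Multiset.sum_map_add, Multiset.map_const', Multiset.sum_replicate,
            sum_map_neg_aux, nsmul_eq_mul, hcardk l, hs,
            iterate_of_mem_preim hd1 n c hc]
          have h5 : 0 ≤ Real.log (‖w k - w l‖ * A) := by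
            apply Real.log_nonneg
            refine hrA.trans ?_
            have := hww k l (fun h' => hlk h'.symm)
            gcongr
          linarith
      have := Finset.sum_le_sum e2
      refine this.trans (le_of_eq ?_)
      rw [Finset.sum_add_distrib, Finset.sum_const, Finset.card_univ, Fintype.card_fin,
        nsmul_eq_mul, Finset.sum_ite_eq' univ k]
      simp
      ring
    have e4 : ∀ k ∈ (univ : Finset (Fin T)), ((preim g (w k) n).map (fun c =>
        ∑ l, ((preim g (w l) n).map (fun c' => ℓ c c')).sum)).sum ≤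
        M * (T * M * Real.log A + M * E) := by
      intro k _
      have e5 := Multiset.sum_map_le_sum_map (s := preim g (w k) n) _
        (fun _ => T * M * Real.log A + M * E) (e1 k)
      refine e5.trans (le_of_eq ?_)
      rw [Multiset.map_const', Multiset.sum_replicate, nsmul_eq_mul, hcardk k]
    have := Finset.sum_le_sum e4
    refine this.trans (le_of_eq ?_)
    rw [Finset.sum_const, Finset.card_univ, Fintype.card_fin, nsmul_eq_mul]
    ring
  -- conclude
  have c1 : (∑ x ∈ Y, ∑ x' ∈ Y, ℓ x x') / N ^ 2 ≤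
      (- logEnergy (fun x => ‖x‖) A Y + N ^ 2 * Real.log A + N * E) / N ^ 2 := by
    gcongr
  have c2 : (N * (T * (M * Real.log A - Λ))) / (N * (T * M)) ≤
      (∑ x ∈ Y, ∑ k, ((preim g (w k) n).map (fun c => ℓ x c)).sum) / (N * (T * M)) := by
    gcongr
  have c3 : (∑ k, ((preim g (w k) n).map (fun c =>
        ∑ l, ((preim g (w l) n).map (fun c' => ℓ c c')).sum)).sum) / (T * M) ^ 2 ≤
        ((T * M) ^ 2 * Real.log A + T * M ^ 2 * E) / (T * M) ^ 2 := by
    gcongr
  have c4 : (N * (T * (M * Real.log A - Λ))) / (N * (T * M)) = Real.log A - Λ / M := by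
    field_simp
  have c5 : ((T * M) ^ 2 * Real.log A + T * M ^ 2 * E) / (T * M) ^ 2 = Real.log A + E / T := by
    field_simp
  rw [c4] at c2
  rw [c5] at c3
  have c6 : η ^ 2 * (b - a) ≤
      (- logEnergy (fun x => ‖x‖) A Y + N ^ 2 * Real.log A + N * E) / N ^ 2
        - 2 * (Real.log A - Λ / M) + (Real.log A + E / T) := by
    refine hen.trans ?_
    linarith
  have c7 : (- logEnergy (fun x => ‖x‖) A Y + N ^ 2 * Real.log A + N * E) / N ^ 2 =
      (- logEnergy (fun x => ‖x‖) A Y + N * E) / N ^ 2 + Real.log A := by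
    field_simp
    ring
  rw [c7] at c6
  have c8 : η ^ 2 * (b - a) - 2 * Λ / M - E / T ≤
      (- logEnergy (fun x => ‖x‖) A Y + N * E) / N ^ 2 := by
    have : 2 * (Λ / M) = 2 * Λ / M := by ring
    linarith
  rw [le_div_iff₀ (by positivity)] at c8
  linarith

end local_energy

end Pool.Agent.UBC90787a
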