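import Pool.Agent.Lib.MP_90787a_nt.Vandermonde
import Pool.Agent.Lib.MP_90787a_nt.LocalEnergy

set_option autoImplicit false
set_option linter.unusedSectionVars false

/-!
Upper bounds for the logarithmic energy from monic polynomials, and the basic bound for sets of
points with bounded orbits.
-/

namespace Pool.Agent.UBC90787a

open Polynomial Finset

open Classical in
lemma sum_offDiag_image {L : Type*} {N : ℕ} (x : Fin N → L) (hx : Function.Injective x)
    (F : L → L → ℝ) (hF : ∀ a b, F a b = F b a) :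
    ∑ p ∈ (univ.image x).offDiag, F p.1 p.2 = 2 * ∑ i, ∑ j ∈ Ioi i, F (x i) (x j) := by
  have h1 : ∑ p ∈ (univ.image x).offDiag, F p.1 p.2 =
      ∑ q ∈ (univ : Finset (Fin N)).offDiag, F (x q.1) (x q.2) := by
    symm
    refine Finset.sum_bij (fun q _ => (x q.1, x q.2)) ?_ ?_ ?_ ?_
    · intro q hq
      rw [Finset.mem_offDiag] at hq ⊢
      exact ⟨Finset.mem_image_of_mem _ (mem_univ _), Finset.mem_image_of_mem _ (mem_univ _),
        fun h => hq.2.2 (hx h)⟩
    · intro q _ q' _ h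
      rw [Prod.mk.injEq] at h
      exact Prod.ext (hx h.1) (hx h.2)
    · intro p hp
      rw [Finset.mem_offDiag] at hp
      obtain ⟨hp1, hp2, hp3⟩ := hp
      obtain ⟨i, -, hi⟩ := Finset.mem_image.mp hp1
      obtain ⟨j, -, hj⟩ := Finset.mem_image.mp hp2
      refine ⟨(i, j), ?_, ?_⟩
      · rw [Finset.mem_offDiag]
        refine ⟨mem_univ _, mem_univ _, ?_⟩
        rintro (rfl : i = j)
        exact hp3 (hi.symm.trans hj)
      · exact Prod.ext hi hj
    · intro q _
      rfl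
  rw [h1]
  have h2 : (univ : Finset (Fin N)).offDiag =
      (univ.sigma (fun i : Fin N => Ioi i)).image (fun s => (s.1, s.2)) ∪
      (univ.sigma (fun i : Fin N => Ioi i)).image (fun s => (s.2, s.1)) := by
    ext q
    simp only [Finset.mem_offDiag, Finset.mem_union, Finset.mem_image, Finset.mem_sigma,
      mem_univ, true_and, Finset.mem_Ioi]
    constructor
    · intro hne
      rcases lt_or_gt_of_ne hne with h | h
      · exact Or.inl ⟨⟨q.1, q.2⟩, h, rfl⟩
      · exact Or.inr ⟨⟨q.2, q.1⟩, h, rfl⟩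
    · rintro (⟨s, hs, rfl⟩ | ⟨s, hs, rfl⟩)
      · exact ne_of_lt hs
      · exact ne_of_gt hs
  have hdisj : Disjoint ((univ.sigma (fun i : Fin N => Ioi i)).image (fun s => (s.1, s.2)))
      ((univ.sigma (fun i : Fin N => Ioi i)).image (fun s => (s.2, s.1))) := by
    rw [Finset.disjoint_left]
    intro q hq hq'
    obtain ⟨s, hs, rfl⟩ := Finset.mem_image.mp hq
    obtain ⟨s', hs', h⟩ := Finset.mem_image.mp hq'
    rw [Finset.mem_sigma, Finset.mem_Ioi] at hs hs'
    rw [Prod.mk.injEq] at h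
    have := hs.2
    have := hs'.2
    rw [h.1, h.2] at this
    exact absurd this (not_lt.mpr (le_of_lt hs.2))
  rw [h2, Finset.sum_union hdisj, Finset.sum_image, Finset.sum_image, Finset.sum_sigma,
    Finset.sum_sigma, two_mul]
  · congr 1
    refine Finset.sum_congr rfl (fun i _ => Finset.sum_congr rfl (fun j _ => ?_))
    exact hF _ _
  · rintro ⟨a, b⟩ _ ⟨c, e⟩ _ h
    simp only [Prod.mk.injEq] at h
    obtain ⟨rfl, rfl⟩ := h
    rfl
  · rintro ⟨a, b⟩ _ ⟨c, e⟩ _ h
    simp only [Prod.mk.injEq] at h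
    obtain ⟨rfl, rfl⟩ := h
    rfl

lemma sum_card_Ioi (N : ℕ) : ∑ i : Fin N, (((Ioi i).card : ℕ) : ℝ) = (N : ℝ) * (N - 1) / 2 := by
  have h : ∀ i : Fin N, (((Ioi i).card : ℕ) : ℝ) = (N : ℝ) - 1 - (i : ℕ) := by
    intro i
    rw [Fin.card_Ioi, Nat.sub_sub, Nat.cast_sub (by omega)]
    push_cast
    ring
  rw [Finset.sum_congr rfl (fun i _ => h i), Finset.sum_sub_distrib, sum_fin_id]
  simp
  ring

/-- Upper bound for the energy from a family of monic polynomials. -/
theorem fekete {L : Type*} [NormedField L] (Y : Finset L) {c : ℝ} (hc : 0 < c)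
    (hdet : ∀ (Q : Matrix (Fin Y.card) (Fin Y.card) L) (B : Fin Y.card → ℝ),
      (∀ i j, ‖Q i j‖ ≤ B j) → ‖Q.det‖ ≤ c * ∏ j, B j)
    (p : ℕ → L[X]) (hp : ∀ j, (p j).Monic) (hdeg : ∀ j, (p j).natDegree = j)
    {A : ℝ} (hA : 0 < A) (β : ℕ → ℝ)
    (h : ∀ x ∈ Y, ∀ j < Y.card, ‖(p j).eval x‖ * A ^ j ≤ Real.exp (β j)) :
    logEnergy (fun x => ‖x‖) A Y ≤ 2 * (∑ j : Fin Y.card, β j) + 2 * Real.log c := by
  classical
  set N := Y.card with hN
  set x : Fin N → L := fun i => (Y.equivFin.symm i : L) with hx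
  have hxinj : Function.Injective x := by
    intro i j hij
    exact Y.equivFin.symm.injective (Subtype.ext hij)
  have hxY : ∀ i, x i ∈ Y := fun i => (Y.equivFin.symm i).2
  have hYx : Y = univ.image x := by
    ext y
    rw [Finset.mem_image]
    constructor
    · intro hy
      exact ⟨Y.equivFin ⟨y, hy⟩, mem_univ _, by simp [hx]⟩
    · rintro ⟨i, -, rfl⟩
      exact hxY i
  have hV : (Matrix.vandermonde x).det ≠ 0 := Matrix.det_vandermonde_ne_zero_iff.mpr hxinj
  have hpos : ∀ i : Fin N, ∀ j ∈ Ioi i, 0 < ‖x j - x i‖ := by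
    intro i j hj
    rw [norm_pos_iff, sub_ne_zero]
    intro h
    have := hxinj h
    rw [Finset.mem_Ioi] at hj
    exact absurd this (ne_of_gt hj)
  have hen : logEnergy (fun x => ‖x‖) A Y = 2 * (Real.log ‖(Matrix.vandermonde x).det‖ +
      (N : ℝ) * (N - 1) / 2 * Real.log A) := by
    have e1 : logEnergy (fun x => ‖x‖) A Y =
        ∑ q ∈ (univ.image x).offDiag, Real.log (‖q.1 - q.2‖ * A) := by
      unfold logEnergy
      conv_lhs => rw [hYx]
    rw [e1, sum_offDiag_image x hxinj (fun a b => Real.log (‖a - b‖ * A))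
      (fun a b => by rw [norm_sub_rev])]
    congr 1
    rw [Matrix.det_vandermonde, norm_prod, Real.log_prod, ← sum_card_Ioi, Finset.sum_mul,
      ← Finset.sum_add_distrib]
    · refine Finset.sum_congr rfl (fun i _ => ?_)
      rw [norm_prod, Real.log_prod, ← nsmul_eq_mul, ← Finset.sum_const, ← Finset.sum_add_distrib]
      · refine Finset.sum_congr rfl (fun j hj => ?_)
        rw [norm_sub_rev, Real.log_mul (hpos i j hj).ne' hA.ne']
      · intro j hj
        exact (hpos i j hj).ne'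
    · intro i _
      rw [norm_prod, Finset.prod_ne_zero_iff]
      intro j hj
      exact (hpos i j hj).ne'
  rw [hen]
  have hmat := Matrix.det_eval_matrixOfPolynomials_eq_det_vandermonde x
    (fun j : Fin N => p j) (fun j => hdeg j) (fun j => hp _)
  have hle : ‖(Matrix.vandermonde x).det‖ ≤
      c * ∏ j : Fin N, Real.exp (β j - (j : ℕ) * Real.log A) := by
    rw [hmat]
    refine hdet _ _ (fun i j => ?_)
    rw [Matrix.of_apply, Real.exp_sub, Real.exp_nat_mul, Real.exp_log hA,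
      le_div_iff₀ (pow_pos hA _)]
    exact h (x i) (hxY i) j j.2
  rw [← Real.exp_sum] at hle
  have hlog := Real.log_le_log (norm_pos_iff.mpr hV) hle
  rw [Real.log_mul hc.ne' (Real.exp_pos _).ne', Real.log_exp, Finset.sum_sub_distrib,
    ← Finset.sum_mul, sum_fin_id] at hlog
  linarith

theorem fekete_ultra {L : Type*} [NormedField L] [IsUltrametricDist L] (Y : Finset L)
    (p : ℕ → L[X]) (hp : ∀ j, (p j).Monic) (hdeg : ∀ j, (p j).natDegree = j)
    {A : ℝ} (hA : 0 < A) (β : ℕ → ℝ)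
    (h : ∀ x ∈ Y, ∀ j < Y.card, ‖(p j).eval x‖ * A ^ j ≤ Real.exp (β j)) :
    logEnergy (fun x => ‖x‖) A Y ≤ 2 * (∑ j : Fin Y.card, β j) := by
  have := fekete Y (c := 1) one_pos (fun Q B hQ => by
    rw [one_mul]
    exact norm_det_le_of_ultra Q B hQ) p hp hdeg hA β h
  simpa using this

lemma two_log_factorial_le (N : ℕ) :
    2 * Real.log (N.factorial : ℝ) ≤ 2 * N * (1 + Real.log N) := by
  rcases Nat.eq_zero_or_pos N with rfl | hN
  · simp
  have h1 : (N.factorial : ℝ) ≤ (N : ℝ) ^ N := by exact_mod_cast Nat.factorial_le_pow N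
  have h2 : Real.log (N.factorial : ℝ) ≤ N * Real.log N := by
    rw [← Real.log_pow]
    exact Real.log_le_log (by exact_mod_cast N.factorial_pos) h1
  have h3 : (0 : ℝ) ≤ N := Nat.cast_nonneg N
  nlinarith

theorem fekete_arch {L : Type*} [NormedField L] (Y : Finset L)
    (p : ℕ → L[X]) (hp : ∀ j, (p j).Monic) (hdeg : ∀ j, (p j).natDegree = j)
    {A : ℝ} (hA : 0 < A) (β : ℕ → ℝ)
    (h : ∀ x ∈ Y, ∀ j < Y.card, ‖(p j).eval x‖ * A ^ j ≤ Real.exp (β j)) :
    logEnergy (fun x => ‖x‖) A Y ≤ 2 * (∑ j : Fin Y.card, β j) +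
      2 * Y.card * (1 + Real.log Y.card) := by
  have hf : (0 : ℝ) < Y.card.factorial := by exact_mod_cast Nat.factorial_pos _
  have := fekete Y hf (fun Q B hQ => norm_det_le Q B hQ) p hp hdeg hA β h
  have h2 := two_log_factorial_le Y.card
  linarith

/-- Monic polynomials of every degree which are small on sets with bounded orbits. -/
lemma exists_basis {L : Type*} [NormedField L] {f : L[X]} {d : ℕ} (hd : f.natDegree = d)
    (hd2 : 2 ≤ d) {A γ : ℝ} (hA : 0 < A) (hAa : A ^ (d - 1) = ‖f.leadingCoeff‖) (hγ : 0 ≤ γ)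
    (j : ℕ) : ∃ p : L[X], p.Monic ∧ p.natDegree = j ∧
      ∀ x : L, (∀ i : ℕ, ‖(fun z => f.eval z)^[i] x‖ * A ≤ Real.exp γ) →
        ‖p.eval x‖ * A ^ j ≤ Real.exp (γ * ((d - 1 : ℕ) * (Nat.log d j + 1 : ℕ))) := by
  induction j using Nat.strong_induction_on with
  | _ j ih =>
    rcases Nat.lt_or_ge j d with hj | hj
    · refine ⟨X ^ j, monic_X_pow j, natDegree_X_pow j, fun x hx => ?_⟩
      have h0 := hx 0
      simp only [Function.iterate_zero, id] at h0
      rw [eval_pow, eval_X, norm_pow, ← mul_pow]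
      calc (‖x‖ * A) ^ j ≤ (Real.exp γ) ^ j := by gcongr
        _ = Real.exp (j * γ) := by rw [Real.exp_nat_mul]
        _ ≤ _ := by
          apply Real.exp_le_exp.mpr
          have h1 : (j : ℝ) ≤ ((d - 1 : ℕ) : ℝ) := by exact_mod_cast (by omega : j ≤ d - 1)
          have h2 : (1 : ℝ) ≤ ((Nat.log d j + 1 : ℕ) : ℝ) := by
            exact_mod_cast (by omega : 1 ≤ Nat.log d j + 1)
          have h3 : (j : ℝ) ≤ ((d - 1 : ℕ) : ℝ) * ((Nat.log d j + 1 : ℕ) : ℝ) := by
            calc (j : ℝ) = j * 1 := (mul_one _).symm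
              _ ≤ _ := by gcongr
          calc (j : ℝ) * γ = γ * j := mul_comm _ _
            _ ≤ _ := by gcongr
    · have hlt : j / d < j := Nat.div_lt_self (by omega) (by omega)
      obtain ⟨p, hp1, hp2, hp3⟩ := ih (j / d) hlt
      have hf0 : f ≠ 0 := by
        rintro rfl
        rw [natDegree_zero] at hd
        omega
      have ha : f.leadingCoeff ≠ 0 := leadingCoeff_ne_zero.mpr hf0
      have hapow : f.leadingCoeff ^ (j / d) ≠ 0 := pow_ne_zero _ ha
      set Q : L[X] := C ((f.leadingCoeff ^ (j / d))⁻¹) * p.comp f with hQ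
      have hQmonic : Q.Monic := by
        rw [hQ, Monic, leadingCoeff_mul, leadingCoeff_C, leadingCoeff_comp (by omega),
          hp1.leadingCoeff, hp2, one_mul, inv_mul_cancel₀ hapow]
      have hQdeg : Q.natDegree = j / d * d := by
        rw [hQ, natDegree_C_mul (inv_ne_zero hapow), natDegree_comp, hp2, hd]
      refine ⟨Q * X ^ (j % d), hQmonic.mul (monic_X_pow _), ?_, fun x hx => ?_⟩
      · rw [hQmonic.natDegree_mul (monic_X_pow _), hQdeg, natDegree_X_pow]
        exact Nat.div_add_mod' j d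
      · have h0 := hx 0
        simp only [Function.iterate_zero, id] at h0
        have h1 := hp3 (f.eval x) (fun i => by
          have := hx (i + 1)
          rwa [Function.iterate_succ_apply] at this)
        rw [eval_mul, eval_pow, eval_X, norm_mul, norm_pow]
        have hQe : ‖Q.eval x‖ * A ^ (d * (j / d)) = ‖p.eval (f.eval x)‖ * A ^ (j / d) := by
          rw [hQ, eval_mul, eval_C, eval_comp, norm_mul, norm_inv, norm_pow, ← hAa, ← pow_mul]
          have h3 : d * (j / d) = (d - 1) * (j / d) + (j / d) := by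
            obtain ⟨e, rfl⟩ : ∃ e, d = e + 1 := ⟨d - 1, by omega⟩
            rw [Nat.add_sub_cancel]
            ring
          rw [h3, pow_add]
          field_simp
        have hsplit : A ^ j = A ^ (d * (j / d)) * A ^ (j % d) := by
          rw [← pow_add, Nat.div_add_mod]
        calc ‖Q.eval x‖ * ‖x‖ ^ (j % d) * A ^ j
            = (‖Q.eval x‖ * A ^ (d * (j / d))) * (‖x‖ * A) ^ (j % d) := by
              rw [hsplit, mul_pow]; ring
          _ = (‖p.eval (f.eval x)‖ * A ^ (j / d)) * (‖x‖ * A) ^ (j % d) := by rw [hQe]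
          _ ≤ Real.exp (γ * ((d - 1 : ℕ) * (Nat.log d (j / d) + 1 : ℕ))) *
              (Real.exp γ) ^ (j % d) := by gcongr
          _ = Real.exp (γ * ((d - 1 : ℕ) * (Nat.log d (j / d) + 1 : ℕ) + (j % d : ℕ))) := by
              rw [← Real.exp_nat_mul, ← Real.exp_add]
              congr 1
              ring
          _ ≤ _ := by
              apply Real.exp_le_exp.mpr
              have h4 : Nat.log d j = Nat.log d (j / d) + 1 := by
                rw [Nat.log_of_one_lt_of_le (by omega) hj]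
              rw [h4]
              have h5 : (((j % d : ℕ)) : ℝ) ≤ ((d - 1 : ℕ) : ℝ) := by
                have : j % d ≤ d - 1 := by
                  have := Nat.mod_lt j (show 0 < d by omega)
                  omega
                exact_mod_cast this
              have h6 : (((d - 1 : ℕ)) : ℝ) * (Nat.log d (j / d) + 1 : ℕ) + (j % d : ℕ) ≤
                  ((d - 1 : ℕ) : ℝ) * ((Nat.log d (j / d) + 1 + 1 : ℕ) : ℝ) := by
                push_cast
                linarith
              gcongr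

lemma nat_log_le {d j N : ℕ} (hd : 2 ≤ d) (hj : j < N) :
    ((Nat.log d j + 1 : ℕ) : ℝ) ≤ 2 * (1 + Real.log N) := by
  have hN1 : (1 : ℝ) ≤ N := by exact_mod_cast (by omega : 1 ≤ N)
  have hlogN : 0 ≤ Real.log N := Real.log_nonneg hN1
  rcases Nat.eq_zero_or_pos j with rfl | hj0
  · simp
    linarith
  have h1 : d ^ Nat.log d j ≤ j := Nat.pow_log_le_self d (by omega)
  have h2 : (2 : ℝ) ^ Nat.log d j ≤ N := by
    have h3 : (d : ℝ) ^ Nat.log d j ≤ j := by exact_mod_cast h1
    have h4 : (j : ℝ) ≤ N := by exact_mod_cast hj.le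
    have h5 : (2 : ℝ) ^ Nat.log d j ≤ (d : ℝ) ^ Nat.log d j := by
      have : (2 : ℝ) ≤ d := by exact_mod_cast hd
      gcongr
    linarith
  have h6 : (Nat.log d j : ℝ) * Real.log 2 ≤ Real.log N := by
    rw [← Real.log_pow]
    exact Real.log_le_log (by positivity) h2
  have h7 : (1 / 2 : ℝ) ≤ Real.log 2 := by
    have := Real.log_two_gt_d9
    linarith
  push_cast
  have h8 : (Nat.log d j : ℝ) * (1 / 2) ≤ (Nat.log d j : ℝ) * Real.log 2 := by gcongr
  linarith

lemma sum_basis_bound {d N : ℕ} (hd : 2 ≤ d) {γ : ℝ} (hγ : 0 ≤ γ) :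
    ∑ j : Fin N, γ * (((d - 1 : ℕ) : ℝ) * ((Nat.log d (j : ℕ) + 1 : ℕ) : ℝ)) ≤
      γ * (2 * d * (N * (1 + Real.log N))) := by
  have h1 : ∀ j : Fin N, γ * (((d - 1 : ℕ) : ℝ) * ((Nat.log d (j : ℕ) + 1 : ℕ) : ℝ)) ≤
      γ * (d * (2 * (1 + Real.log N))) := by
    intro j
    have h2 := nat_log_le hd j.2
    have h3 : ((d - 1 : ℕ) : ℝ) ≤ d := by exact_mod_cast Nat.sub_le d 1
    gcongr
  refine (Finset.sum_le_sum (fun j _ => h1 j)).trans (le_of_eq ?_)
  rw [Finset.sum_const, Finset.card_univ, Fintype.card_fin, nsmul_eq_mul]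
  ring

/-- Basic bound, nonarchimedean case. -/
theorem baseline_ultra {L : Type*} [NormedField L] [IsUltrametricDist L] {f : L[X]} {d : ℕ}
    (hd : f.natDegree = d) (hd2 : 2 ≤ d) {A γ : ℝ} (hA : 0 < A)
    (hAa : A ^ (d - 1) = ‖f.leadingCoeff‖) (hγ : 0 ≤ γ) (Y : Finset L)
    (hY : ∀ x ∈ Y, ∀ i : ℕ, ‖(fun z => f.eval z)^[i] x‖ * A ≤ Real.exp γ) :
    logEnergy (fun x => ‖x‖) A Y ≤ 4 * d * γ * (Y.card * (1 + Real.log Y.card)) := by
  choose p hp1 hp2 hp3 using exists_basis hd hd2 hA hAa hγ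
  have h1 := fekete_ultra Y p hp1 hp2 hA
    (fun j => γ * (((d - 1 : ℕ) : ℝ) * ((Nat.log d j + 1 : ℕ) : ℝ)))
    (fun x hx j _ => hp3 j x (hY x hx))
  have h2 := sum_basis_bound (N := Y.card) hd2 hγ
  linarith

/-- Basic bound, archimedean case. -/
theorem baseline_arch {L : Type*} [NormedField L] {f : L[X]} {d : ℕ}
    (hd : f.natDegree = d) (hd2 : 2 ≤ d) {A γ : ℝ} (hA : 0 < A)
    (hAa : A ^ (d - 1) = ‖f.leadingCoeff‖) (hγ : 0 ≤ γ) (Y : Finset L)
    (hY : ∀ x ∈ Y, ∀ i : ℕ, ‖(fun z => f.eval z)^[i] x‖ * A ≤ Real.exp γ) :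
    logEnergy (fun x => ‖x‖) A Y ≤ (4 * d * γ + 2) * (Y.card * (1 + Real.log Y.card)) := by
  choose p hp1 hp2 hp3 using exists_basis hd hd2 hA hAa hγ
  have h1 := fekete_arch Y p hp1 hp2 hA
    (fun j => γ * (((d - 1 : ℕ) : ℝ) * ((Nat.log d j + 1 : ℕ) : ℝ)))
    (fun x hx j _ => hp3 j x (hY x hx))
  have h2 := sum_basis_bound (N := Y.card) hd2 hγ
  linarith

end Pool.Agent.UBC90787a
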