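import Pool.Agent.Lib.MP_90787a_nt.LocalFinite

set_option autoImplicit false
set_option linter.unusedSectionVars false

/-!
The estimates at the finite places where the polynomial has an integral model.
-/

namespace Pool.Agent.UBC90787a

open Polynomial Finset NumberField

section integral

/-- `q ^ m` is an escape radius of an integral polynomial whose leading coefficient has
absolute value at least `q ^ (-m)`. -/
lemma isRadius_of_integral {L : Type} [NormedField L] {g : L[X]} (hd2 : 2 ≤ g.natDegree)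
    (hint : ∀ i, ‖g.coeff i‖ ≤ 1) {q : ℝ} (hq : 1 < q) {m : ℕ}
    (hlc : (q ^ m)⁻¹ ≤ ‖g.leadingCoeff‖) : IsRadius g (q ^ m) := by
  have hqm : 1 ≤ q ^ m := one_le_pow₀ hq.le
  have hqm0 : 0 < q ^ m := by linarith
  have key : ∀ k, 1 ≤ k → 1 ≤ ‖g.leadingCoeff‖ * (q ^ m) ^ k := by
    intro k hk
    calc (1 : ℝ) = (q ^ m)⁻¹ * (q ^ m) ^ 1 := by rw [pow_one, inv_mul_cancel₀ hqm0.ne']
      _ ≤ ‖g.leadingCoeff‖ * (q ^ m) ^ k := by
          have : (q ^ m) ^ 1 ≤ (q ^ m) ^ k := pow_le_pow_right₀ hqm hk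
          gcongr
  refine ⟨hqm0, key _ (by omega), fun i hi => (hint i).trans (key _ (by omega))⟩

lemma inv_pow_le_of_pow_ge {A c : ℝ} (hA : 0 < A) (hc : 1 ≤ c) {k : ℕ} (hk : 1 ≤ k)
    (h : c⁻¹ ≤ A ^ k) : c⁻¹ ≤ A := by
  by_contra hlt
  push Not at hlt
  have hc0 : 0 < c := by linarith
  have h1 : A ^ k < (c⁻¹) ^ k := pow_lt_pow_left₀ hlt hA.le (by omega)
  have h2 : (c⁻¹) ^ k ≤ (c⁻¹) ^ 1 := by
    apply pow_le_pow_of_le_one (by positivity) (inv_le_one_of_one_le₀ hc) hk
  rw [pow_one] at h2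
  linarith

variable {K : Type} [Field K] [NumberField K]

open Classical in
/-- Basic estimate at a place with an integral model. -/
theorem int_baseline (v : FinitePlace K) {f : K[X]} {d m : ℕ} (hd : f.natDegree = d)
    (hd2 : 2 ≤ d) {s t : K} (hs : s ≠ 0) (hint : ∀ i, v ((conjPoly f s t).coeff i) ≤ 1)
    (hlc : ((qv v : ℝ) ^ m)⁻¹ ≤ v (conjPoly f s t).leadingCoeff) (Y : Finset K)
    (hY : ∀ x ∈ Y, Preper (fun z => f.eval z) x) :
    logEnergy v (Aof v f) Y ≤
        4 * d * (m * Real.log (qv v)) * (Y.card * (1 + Real.log Y.card)) := by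
  obtain ⟨L, _, _, _, ι, hι⟩ := exists_ultra_field v
  have hf0 : f ≠ 0 := by
    rintro rfl
    rw [natDegree_zero] at hd
    omega
  have hlcpos : 0 < v f.leadingCoeff := v_pos hι (leadingCoeff_ne_zero.mpr hf0)
  have hspos : 0 < v s := v_pos hι hs
  set A : ℝ := Aof v f with hA
  have hApos : 0 < A := Aof_pos hlcpos
  have hApow : A ^ (d - 1) = v f.leadingCoeff := by
    rw [← hd]
    exact Aof_pow hlcpos (by omega)
  set g : L[X] := (conjPoly f s t).map ι with hg
  have hgd : g.natDegree = d := by rw [hg, map_natDegree hs, hd]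
  set B : ℝ := A * (v s)⁻¹ with hB
  have hBpos : 0 < B := by positivity
  have hBa : B ^ (d - 1) = ‖g.leadingCoeff‖ := by
    rw [hg, map_leadingCoeff_norm hι (by omega) hs, hB, mul_pow, hApow, hd]
  have hglc : ‖g.leadingCoeff‖ = v (conjPoly f s t).leadingCoeff := by
    rw [hg, leadingCoeff_map, hι]
  have hgint : ∀ i, ‖g.coeff i‖ ≤ 1 := fun i => by
    rw [hg, map_coeff_norm hι]
    exact hint i
  have hq := one_lt_qv v
  have hr := isRadius_of_integral (g := g) (by omega) hgint hq (m := m) (by rw [hglc]; exact hlc)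
  have hB1 : B ≤ 1 := by
    by_contra hlt
    push Not at hlt
    have h1 := one_lt_pow₀ hlt (show d - 1 ≠ 0 by omega)
    rw [hBa] at h1
    have := hgint g.natDegree
    have e : g.coeff g.natDegree = g.leadingCoeff := rfl
    rw [e] at this
    linarith
  set σ : K → L := fun x => ι (s * (x - t)) with hσ
  have hσinj : Function.Injective σ := sigma_injective hs t
  have hσd : ∀ x y, ‖σ x - σ y‖ = v s * v (x - y) := fun x y => sigma_sub hι s t x y
  have hen : logEnergy (fun x => ‖x‖) B (Y.image σ) = logEnergy v A Y := by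
    rw [logEnergy_image hσd hσinj, hB]
    congr 1
    field_simp
  have hlogq : 0 < Real.log (qv v) := Real.log_pos hq
  have h1 := baseline_ultra (f := g) hgd hd2 hBpos hBa (γ := m * Real.log (qv v))
    (by positivity) (Y.image σ) (fun x hx j => by
      obtain ⟨y, hy, rfl⟩ := Finset.mem_image.mp hx
      have h2 : ‖(fun z => g.eval z)^[j] (σ y)‖ ≤ (qv v : ℝ) ^ m :=
        hr.preper_le (by omega) (((hY y hy).transport hs t).iterate j)
      have h3 : Real.exp (m * Real.log (qv v)) = (qv v : ℝ) ^ m := by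
        rw [Real.exp_nat_mul, Real.exp_log (qv_pos v)]
      rw [h3]
      calc ‖(fun z => g.eval z)^[j] (σ y)‖ * B ≤ (qv v : ℝ) ^ m * 1 := by gcongr
        _ = (qv v : ℝ) ^ m := mul_one _)
  rw [hen, Finset.card_image_of_injective Y hσinj] at h1
  exact h1

open Classical in
/-- Energy gain at a bad place with an integral model. -/
theorem int_gain (d m : ℕ) (hd2 : 2 ≤ d) : ∃ δ C : ℝ, 0 < δ ∧ 0 ≤ C ∧
    ∀ (K : Type) [Field K] [NumberField K] (v : FinitePlace K) {f : K[X]} (_ : f.natDegree = d)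
      (X : Finset K) (_ : ∀ x ∈ X, Preper (fun z => f.eval z) x) {s t : K} (_ : s ≠ 0)
      (_ : ∀ i, v ((conjPoly f s t).coeff i) ≤ 1)
      (_ : ((qv v : ℝ) ^ m)⁻¹ ≤ v (conjPoly f s t).leadingCoeff),
      (∃ r : ℝ, r ^ (d - 1) * v (conjPoly f s t).leadingCoeff = 1 ∧ 0 < r ∧
        ∀ i, v ((conjPoly f s t).coeff i) * r ^ i ≤ r) ∨
      ∀ Y ⊆ X, logEnergy v (Aof v f) Y ≤
        Real.log (qv v) * (- δ * (Y.card : ℝ) ^ 2 + C * Y.card) := by
  obtain ⟨δ, C, hδ, hC, hmain⟩ := ultra_annulus.{0} d m hd2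
  refine ⟨δ, C, hδ, hC, ?_⟩
  intro K _ _ v f hd X hX s t hs hint hlc
  obtain ⟨L, _, _, _, ι, hι⟩ := exists_ultra_field v
  obtain ⟨c, hc⟩ := exists_one_lt v
  have hc0 : 1 < ‖ι c‖ := by rw [hι]; exact hc
  have hf0 : f ≠ 0 := by
    rintro rfl
    rw [natDegree_zero] at hd
    omega
  have hlcpos : 0 < v f.leadingCoeff := v_pos hι (leadingCoeff_ne_zero.mpr hf0)
  have hspos : 0 < v s := v_pos hι hs
  set A : ℝ := Aof v f with hA
  have hApos : 0 < A := Aof_pos hlcpos
  have hApow : A ^ (d - 1) = v f.leadingCoeff := by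
    rw [← hd]
    exact Aof_pow hlcpos (by omega)
  set p : K[X] := conjPoly f s t with hp
  have hpd : p.natDegree = d := by rw [hp, natDegree_conjPoly hs, hd]
  have hp0 : p ≠ 0 := by
    intro h
    rw [h, natDegree_zero] at hpd
    omega
  set g : L[X] := p.map ι with hg
  have hgd : g.natDegree = d := by rw [hg, natDegree_map, hpd]
  set B : ℝ := A * (v s)⁻¹ with hB
  have hBpos : 0 < B := by positivity
  have hBa : B ^ (d - 1) = ‖g.leadingCoeff‖ := by
    rw [hg, hp, map_leadingCoeff_norm hι (by omega) hs, hB, mul_pow, hApow, hd]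
  have hgc : ∀ i, ‖g.coeff i‖ = v (p.coeff i) := fun i => by rw [hg, coeff_map, hι]
  have hglc : ‖g.leadingCoeff‖ = v p.leadingCoeff := by rw [hg, leadingCoeff_map, hι]
  have hplc : p.coeff d = p.leadingCoeff := by rw [leadingCoeff, hpd]
  have hgint : ∀ i, ‖g.coeff i‖ ≤ 1 := fun i => by rw [hgc]; exact hint i
  have hq := one_lt_qv v
  have hq0 := qv_pos v
  have hr := isRadius_of_integral (g := g) (by omega) hgint hq (m := m) (by rw [hglc]; exact hlc)
  have hplcpos : 0 < v p.leadingCoeff := v_pos hι (leadingCoeff_ne_zero.mpr hp0)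
  -- the invariant radius
  set F : ℕ → ℝ := fun i => v (p.coeff i) ^ ((1 : ℝ) / ((i - 1 : ℕ) : ℝ)) with hF
  have hne : (Finset.Icc 2 d).Nonempty := ⟨d, Finset.mem_Icc.mpr ⟨hd2, le_rfl⟩⟩
  have hvnn : ∀ x : K, 0 ≤ v x := fun x => by rw [← hι]; exact norm_nonneg _
  have hFnn : ∀ i, 0 ≤ F i := fun i => Real.rpow_nonneg (hvnn _) _
  have hFpow : ∀ i ∈ Finset.Icc 2 d, F i ^ (i - 1) = v (p.coeff i) := by
    intro i hi
    rw [Finset.mem_Icc] at hi
    rw [hF]
    simp only
    rw [← Real.rpow_natCast, ← Real.rpow_mul (hvnn _), one_div,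
      inv_mul_cancel₀ (by
        have : 0 < i - 1 := by omega
        positivity), Real.rpow_one]
  set M0 : ℝ := (Finset.Icc 2 d).sup' hne F with hM0
  have hFle : ∀ i ∈ Finset.Icc 2 d, F i ≤ M0 := fun i hi => Finset.le_sup' F hi
  have hM0pos : 0 < M0 := by
    refine lt_of_lt_of_le ?_ (hFle d (Finset.mem_Icc.mpr ⟨hd2, le_rfl⟩))
    rw [hF]
    simp only
    rw [hplc]
    positivity
  obtain ⟨e, he, heM⟩ := Finset.exists_mem_eq_sup' hne F
  rw [← hM0] at heM
  have he' := Finset.mem_Icc.mp he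
  set ρ0 : ℝ := M0⁻¹ with hρ0
  have hρ0pos : 0 < ρ0 := by positivity
  have hM01 : M0 ≤ 1 := by
    rw [heM]
    rw [hF]
    simp only
    exact Real.rpow_le_one (hvnn _) (hint e) (by positivity)
  have hρ01 : 1 ≤ ρ0 := (one_le_inv₀ hM0pos).mpr hM01
  have heq : v (p.coeff e) * ρ0 ^ (e - 1) = 1 := by
    rw [← hFpow e he, ← heM, hρ0, inv_pow, mul_inv_cancel₀ (by positivity)]
  have hle : ∀ i, v (p.coeff i) * ρ0 ^ i ≤ ρ0 := by
    intro i
    rcases Nat.lt_or_ge i 2 with h2 | h2
    · rcases Nat.eq_zero_or_pos i with rfl | h0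
      · rw [pow_zero, mul_one]
        exact (hint 0).trans hρ01
      · have : i = 1 := by omega
        subst this
        rw [pow_one]
        exact mul_le_of_le_one_left hρ0pos.le (hint 1)
    · rcases Nat.lt_or_ge d i with h3 | h3
      · rw [coeff_eq_zero_of_natDegree_lt (by omega), map_zero, zero_mul]
        exact hρ0pos.le
      · have hi : i ∈ Finset.Icc 2 d := Finset.mem_Icc.mpr ⟨h2, h3⟩
        have h4 : v (p.coeff i) * ρ0 ^ (i - 1) ≤ 1 := by
          rw [← hFpow i hi, ← mul_pow]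
          apply pow_le_one₀ (by have := hFnn i; positivity)
          rw [hρ0, ← div_eq_mul_inv, div_le_one hM0pos]
          exact hFle i hi
        calc v (p.coeff i) * ρ0 ^ i = (v (p.coeff i) * ρ0 ^ (i - 1)) * ρ0 := by
              rw [mul_assoc, ← pow_succ]
              congr 2
              omega
          _ ≤ 1 * ρ0 := by gcongr
          _ = ρ0 := one_mul _
  rcases eq_or_ne (ρ0 ^ (d - 1) * v p.leadingCoeff) 1 with hgood | hbad
  · left
    exact ⟨ρ0, hgood, hρ0pos, hle⟩
  right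
  have hed : e < d := by
    rcases lt_or_eq_of_le he'.2 with h | h
    · exact h
    · exfalso
      apply hbad
      rw [h, hplc] at heq
      rw [mul_comm]
      exact heq
  have hlt : v p.leadingCoeff * ρ0 ^ (d - 1) < 1 := by
    have h1 := hle d
    rw [hplc] at h1
    have h2 : v p.leadingCoeff * ρ0 ^ d = (v p.leadingCoeff * ρ0 ^ (d - 1)) * ρ0 := by
      rw [mul_assoc, ← pow_succ]
      congr 2
      omega
    rw [h2] at h1
    have h3 : v p.leadingCoeff * ρ0 ^ (d - 1) ≤ 1 := by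
      by_contra hh
      push Not at hh
      have : 1 * ρ0 < (v p.leadingCoeff * ρ0 ^ (d - 1)) * ρ0 := by gcongr
      linarith
    refine lt_of_le_of_ne h3 ?_
    rw [mul_comm]
    exact hbad
  set h : ℝ := Real.log (qv v) with hh
  have hhpos : 0 < h := Real.log_pos hq
  have hexph : Real.exp h = qv v := Real.exp_log hq0
  have hdR : (2 : ℝ) ≤ d := by exact_mod_cast hd2
  have hd0 : (0 : ℝ) < d := by linarith
  have hce0 : p.coeff e ≠ 0 := by
    intro h0
    rw [h0, map_zero, zero_mul] at heq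
    norm_num at heq
  have hce : 0 < v (p.coeff e) := v_pos hι hce0
  obtain ⟨ke, hke⟩ := exists_zpow v hce0
  obtain ⟨kl, hkl⟩ := exists_zpow v (leadingCoeff_ne_zero.mpr hp0)
  have hρpow : ρ0 ^ (e - 1) = (qv v : ℝ) ^ (-ke) := by
    rw [zpow_neg, ← hke]
    exact eq_inv_of_mul_eq_one_right heq
  -- discreteness, general form
  have hdisc : ∀ y : ℝ, 0 < y → (∃ k : ℤ, y ^ (e - 1) = (qv v : ℝ) ^ k) → 1 < y →
      Real.exp (h / d) ≤ y := by
    intro y hy ⟨k, hk⟩ hy1
    by_contra hcon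
    push Not at hcon
    have h1 : 1 < y ^ (e - 1) := one_lt_pow₀ hy1 (by omega)
    rw [hk] at h1
    have h2 := le_of_one_lt_zpow hq h1
    rw [← hk] at h2
    have h3 : y ^ (e - 1) < Real.exp (h / d) ^ (e - 1) := pow_lt_pow_left₀ hcon hy.le (by omega)
    have h4 : Real.exp (h / d) ^ (e - 1) ≤ Real.exp h := by
      rw [← Real.exp_nat_mul]
      apply Real.exp_le_exp.mpr
      have h5 : ((e - 1 : ℕ) : ℝ) ≤ d := by exact_mod_cast (by omega : e - 1 ≤ d)
      calc ((e - 1 : ℕ) : ℝ) * (h / d) ≤ d * (h / d) := by gcongr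
        _ = h := by field_simp
    rw [hexph] at h4
    linarith
  have htop : ‖g.leadingCoeff‖ * ρ0 ^ d ≤ ρ0 * Real.exp (-(h / d)) := by
    rw [hglc]
    set y : ℝ := (v p.leadingCoeff * ρ0 ^ (d - 1))⁻¹ with hy
    have hz0 : 0 < v p.leadingCoeff * ρ0 ^ (d - 1) := by positivity
    have h1 := hdisc y (by positivity) (by
      refine ⟨-(kl * ((e - 1 : ℕ) : ℤ) + -ke * ((d - 1 : ℕ) : ℤ)), ?_⟩
      rw [hy, inv_pow, mul_pow, zpow_neg, zpow_add₀ hq0.ne', zpow_mul, zpow_mul, ← hkl,
        ← hρpow, zpow_natCast, zpow_natCast, ← pow_mul, ← pow_mul, mul_comm (d - 1) (e - 1)])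
      ((one_lt_inv₀ hz0).mpr hlt)
    have h2 : v p.leadingCoeff * ρ0 ^ (d - 1) ≤ Real.exp (-(h / d)) := by
      rw [Real.exp_neg]
      rw [hy] at h1
      exact (le_inv_comm₀ (Real.exp_pos _) hz0).mp h1
    calc v p.leadingCoeff * ρ0 ^ d = ρ0 * (v p.leadingCoeff * ρ0 ^ (d - 1)) := by
          rw [mul_left_comm, ← pow_succ']
          congr 2
          omega
      _ ≤ ρ0 * Real.exp (-(h / d)) := by gcongr
  intro Y hYX
  set σ : K → L := fun x => ι (s * (x - t)) with hσ
  have hσinj : Function.Injective σ := sigma_injective hs t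
  have hσd : ∀ x y, ‖σ x - σ y‖ = v s * v (x - y) := fun x y => sigma_sub hι s t x y
  have hen : logEnergy (fun x => ‖x‖) B (Y.image σ) = logEnergy v A Y := by
    rw [logEnergy_image hσd hσinj, hB]
    congr 1
    field_simp
  have hexpm : Real.exp (m * h) = (qv v : ℝ) ^ m := by
    rw [Real.exp_nat_mul, hexph]
  have key := hmain L hc0 (g := g) hgd (A := B) (r := (qv v : ℝ) ^ m) (h := h) (ρ0 := ρ0) hBpos
    hBa hr hhpos hρ0pos he'.1 hed (by
      rw [hgc]
      calc v (p.coeff e) * ρ0 ^ e = (v (p.coeff e) * ρ0 ^ (e - 1)) * ρ0 := by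
            rw [mul_assoc, ← pow_succ]
            congr 2
            omega
        _ = ρ0 := by rw [heq, one_mul])
    (fun i => by rw [hgc]; exact hle i) htop
    (by rw [hexpm]; exact le_mul_of_one_le_left (by positivity) hρ01)
    (by
      rw [Real.exp_neg, hexpm]
      have h1 : ((qv v : ℝ) ^ m)⁻¹ ≤ B :=
        inv_pow_le_of_pow_ge hBpos (one_le_pow₀ hq.le) (k := d - 1) (by omega)
          (by rw [hBa, hglc]; exact hlc)
      exact h1.trans (le_mul_of_one_le_right hBpos.le hρ01))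
    (Y.image σ)
    (fun x hx j => by
      obtain ⟨y, hy, rfl⟩ := Finset.mem_image.mp hx
      exact hr.preper_le (by omega) (((hX y (hYX hy)).transport hs t).iterate j))
    (fun x hx => by
      obtain ⟨y, hy, rfl⟩ := Finset.mem_image.mp hx
      have h1 : ‖σ y‖ = v (s * (y - t)) := hι _
      rw [h1]
      rcases le_or_gt (v (s * (y - t))) ρ0 with h2 | h2
      · exact Or.inl h2
      · right
        have hy0 : s * (y - t) ≠ 0 := by
          intro h0
          rw [h0, map_zero] at h2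
          linarith
        obtain ⟨ky, hky⟩ := exists_zpow v hy0
        have h3 := hdisc (v (s * (y - t)) / ρ0) (by
          have := v_pos hι hy0
          positivity) (by
          refine ⟨ky * ((e - 1 : ℕ) : ℤ) - -ke, ?_⟩
          rw [div_pow, hρpow, zpow_sub₀ hq0.ne', zpow_mul, zpow_natCast, hky])
          ((one_lt_div hρ0pos).mpr h2)
        rw [le_div_iff₀ hρ0pos] at h3
        rw [mul_comm]
        exact h3)
  rw [hen, Finset.card_image_of_injective Y hσinj] at key
  exact key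

end integral

end Pool.Agent.UBC90787a
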