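import Pool.Agent.Lib.MP_90787a_nt.LocalArch
import Pool.Agent.Lib.MP_90787a_nt.LocalIntegral

set_option autoImplicit false
set_option linter.unusedSectionVars false

/-!
Global ingredients: the product formula for energies, a box argument, and an elementary
inequality.
-/

namespace Pool.Agent.UBC90787a

open Polynomial Finset NumberField

section product

variable {K : Type} [Field K] [NumberField K]

open Classical in
/-- The product formula for the energies. -/
lemma sum_energy_eq_zero {f : K[X]} (hf0 : f ≠ 0) (F : Finset (FinitePlace K))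
    (hFa : ∀ v, v ∉ F → v f.leadingCoeff = 1) (Y : Finset K)
    (hFY : ∀ v, v ∉ F → ∀ x ∈ Y, ∀ y ∈ Y, x ≠ y → v (x - y) = 1) :
    ∑ w : InfinitePlace K, (w.mult : ℝ) * logEnergy w (Aof w f) Y +
      ∑ v ∈ F, logEnergy v (Aof v f) Y = 0 := by
  have ha : f.leadingCoeff ≠ 0 := leadingCoeff_ne_zero.mpr hf0
  set c : ℝ := 1 / ((f.natDegree - 1 : ℕ) : ℝ) with hc
  have h1 : ∀ w : InfinitePlace K, logEnergy w (Aof w f) Y =
      ∑ p ∈ Y.offDiag, (Real.log (w (p.1 - p.2)) + c * Real.log (w f.leadingCoeff)) := by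
    intro w
    have hwa : 0 < w f.leadingCoeff := InfinitePlace.pos_iff.mpr ha
    unfold logEnergy
    refine Finset.sum_congr (by congr) (fun p hp => ?_)
    have hne : p.1 - p.2 ≠ 0 := sub_ne_zero.mpr (Finset.mem_offDiag.mp hp).2.2
    rw [Real.log_mul (InfinitePlace.pos_iff.mpr hne).ne' (Aof_pos hwa).ne', log_Aof hwa]
  have h2 : ∀ v : FinitePlace K, logEnergy v (Aof v f) Y =
      ∑ p ∈ Y.offDiag, (Real.log (v (p.1 - p.2)) + c * Real.log (v f.leadingCoeff)) := by
    intro v
    have hva : 0 < v f.leadingCoeff := FinitePlace.pos_iff.mpr ha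
    unfold logEnergy
    refine Finset.sum_congr (by congr) (fun p hp => ?_)
    have hne : p.1 - p.2 ≠ 0 := sub_ne_zero.mpr (Finset.mem_offDiag.mp hp).2.2
    rw [Real.log_mul (FinitePlace.pos_iff.mpr hne).ne' (Aof_pos hva).ne', log_Aof hva]
  simp only [h1, h2, Finset.mul_sum]
  rw [Finset.sum_comm, Finset.sum_comm (s := F), ← Finset.sum_add_distrib]
  refine Finset.sum_eq_zero (fun p hp => ?_)
  have hp' := Finset.mem_offDiag.mp hp
  have hne : p.1 - p.2 ≠ 0 := sub_ne_zero.mpr hp'.2.2
  have e1 := sum_log_eq_zero hne F (fun v hv => hFY v hv _ hp'.1 _ hp'.2.1 hp'.2.2)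
  have e2 := sum_log_eq_zero ha F hFa
  have e3 : ∑ w : InfinitePlace K, (w.mult : ℝ) * (Real.log (w (p.1 - p.2)) +
      c * Real.log (w f.leadingCoeff)) =
      ∑ w : InfinitePlace K, (w.mult : ℝ) * Real.log (w (p.1 - p.2)) +
      c * ∑ w : InfinitePlace K, (w.mult : ℝ) * Real.log (w f.leadingCoeff) := by
    rw [Finset.mul_sum, ← Finset.sum_add_distrib]
    refine Finset.sum_congr rfl (fun w _ => ?_)
    ring
  have e4 : ∑ v ∈ F, (Real.log (v (p.1 - p.2)) + c * Real.log (v f.leadingCoeff)) =
      ∑ v ∈ F, Real.log (v (p.1 - p.2)) + c * ∑ v ∈ F, Real.log (v f.leadingCoeff) := by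
    rw [Finset.mul_sum, ← Finset.sum_add_distrib]
  rw [e3, e4]
  linear_combination e1 + c * e2

open Classical in
/-- Product formula for a single pair. -/
lemma sum_pair_eq_zero {f : K[X]} (hf0 : f ≠ 0) (F : Finset (FinitePlace K))
    (hFa : ∀ v, v ∉ F → v f.leadingCoeff = 1) {x y : K} (hxy : x ≠ y)
    (hFY : ∀ v, v ∉ F → v (x - y) = 1) :
    ∑ w : InfinitePlace K, (w.mult : ℝ) * Real.log (w (x - y) * Aof w f) +
      ∑ v ∈ F, Real.log (v (x - y) * Aof v f) = 0 := by
  have ha : f.leadingCoeff ≠ 0 := leadingCoeff_ne_zero.mpr hf0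
  have hne : x - y ≠ 0 := sub_ne_zero.mpr hxy
  set c : ℝ := 1 / ((f.natDegree - 1 : ℕ) : ℝ) with hc
  have e1 := sum_log_eq_zero hne F hFY
  have e2 := sum_log_eq_zero ha F hFa
  have e3 : ∑ w : InfinitePlace K, (w.mult : ℝ) * Real.log (w (x - y) * Aof w f) =
      ∑ w : InfinitePlace K, (w.mult : ℝ) * Real.log (w (x - y)) +
      c * ∑ w : InfinitePlace K, (w.mult : ℝ) * Real.log (w f.leadingCoeff) := by
    rw [Finset.mul_sum, ← Finset.sum_add_distrib]
    refine Finset.sum_congr rfl (fun w _ => ?_)
    have hwa : 0 < w f.leadingCoeff := InfinitePlace.pos_iff.mpr ha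
    rw [Real.log_mul (InfinitePlace.pos_iff.mpr hne).ne' (Aof_pos hwa).ne', log_Aof hwa]
    ring
  have e4 : ∑ v ∈ F, Real.log (v (x - y) * Aof v f) =
      ∑ v ∈ F, Real.log (v (x - y)) + c * ∑ v ∈ F, Real.log (v f.leadingCoeff) := by
    rw [Finset.mul_sum, ← Finset.sum_add_distrib]
    refine Finset.sum_congr rfl (fun v _ => ?_)
    have hva : 0 < v f.leadingCoeff := FinitePlace.pos_iff.mpr ha
    rw [Real.log_mul (FinitePlace.pos_iff.mpr hne).ne' (Aof_pos hva).ne', log_Aof hva]
  rw [e3, e4]
  linear_combination e1 + c * e2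

end product

section elementary

/-- Solving `n ≤ M (1 + log n)`. -/
lemma le_of_le_mul_one_add_log {n M : ℝ} (hM : 1 ≤ M) (hn : 0 < n)
    (h : n ≤ M * (1 + Real.log n)) : n ≤ 2 * M * Real.log (2 * M) := by
  have h1 : Real.log n ≤ n / (2 * M) - 1 + Real.log (2 * M) := by
    have h2 : Real.log (n / (2 * M)) ≤ n / (2 * M) - 1 :=
      Real.log_le_sub_one_of_pos (by positivity)
    rw [Real.log_div hn.ne' (by positivity)] at h2
    linarith
  have h3 : M * (1 + Real.log n) ≤ M * (n / (2 * M) + Real.log (2 * M)) := by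
    have : 1 + Real.log n ≤ n / (2 * M) + Real.log (2 * M) := by linarith
    gcongr
  have h4 : M * (n / (2 * M) + Real.log (2 * M)) = n / 2 + M * Real.log (2 * M) := by
    field_simp
  linarith

end elementary

section box

variable {K : Type} [Field K] [NumberField K]

open Classical in
/-- Preperiodic points in a bounded region when all finite places are harmless. -/
lemma box_count {f : K[X]} (hf0 : f ≠ 0) (X : Finset K) {D : ℕ}
    (hD : Module.finrank ℚ K = D) {x0 : K} {R : ℕ}
    (harch : ∀ w : InfinitePlace K, ∀ x ∈ X, w (x - x0) * Aof w f ≤ R)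
    (hfin : ∀ v : FinitePlace K, ∀ x ∈ X, ∀ y ∈ X, v (x - y) * Aof v f ≤ 1) :
    X.card ≤ ((4 * R + 2) ^ 2) ^ D := by
  have ha : f.leadingCoeff ≠ 0 := leadingCoeff_ne_zero.mpr hf0
  have hApos : ∀ w : InfinitePlace K, 0 < Aof w f := fun w =>
    Aof_pos (InfinitePlace.pos_iff.mpr ha)
  set φ : K → (InfinitePlace K → ℤ × ℤ) := fun x w =>
    (⌊2 * ((w.embedding (x - x0)).re * Aof w f)⌋,
      ⌊2 * ((w.embedding (x - x0)).im * Aof w f)⌋) with hφ
  set box : Finset (ℤ × ℤ) := Finset.Icc (-(2 * R : ℤ) - 1) (2 * R) ×ˢ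
    Finset.Icc (-(2 * R : ℤ) - 1) (2 * R) with hbox
  have hbound : ∀ x ∈ X, ∀ w : InfinitePlace K, φ x w ∈ box := by
    intro x hx w
    have h1 := harch w x hx
    have h2 : ‖w.embedding (x - x0)‖ = w (x - x0) := InfinitePlace.norm_embedding_eq w _
    have hre : |(w.embedding (x - x0)).re * Aof w f| ≤ R := by
      rw [abs_mul, abs_of_pos (hApos w)]
      refine le_trans ?_ h1
      have := Complex.abs_re_le_norm (w.embedding (x - x0))
      rw [h2] at this
      have := hApos w
      gcongr
    have him : |(w.embedding (x - x0)).im * Aof w f| ≤ R := by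
      rw [abs_mul, abs_of_pos (hApos w)]
      refine le_trans ?_ h1
      have := Complex.abs_im_le_norm (w.embedding (x - x0))
      rw [h2] at this
      have := hApos w
      gcongr
    have key : ∀ a : ℝ, |a| ≤ R → ⌊2 * a⌋ ∈ Finset.Icc (-(2 * R : ℤ) - 1) (2 * R) := by
      intro a ha'
      rw [abs_le] at ha'
      rw [Finset.mem_Icc]
      constructor
      · apply Int.le_floor.mpr
        push_cast
        linarith
      · have : ⌊2 * a⌋ ≤ ⌊((2 * R : ℤ) : ℝ)⌋ := by
          apply Int.floor_le_floor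
          push_cast
          linarith
        rwa [Int.floor_intCast] at this
    rw [hbox, Finset.mem_product]
    exact ⟨key _ hre, key _ him⟩
  have hinj : Set.InjOn φ X := by
    intro x hx y hy hxy
    by_contra hne
    obtain ⟨F, hF⟩ := exists_finset_places (K := K) {f.leadingCoeff, x - y}
    have hsum := sum_pair_eq_zero hf0 F
      (fun v hv => hF v hv _ (by simp) ha) hne
      (fun v hv => hF v hv _ (by simp) (sub_ne_zero.mpr hne))
    have hlt : ∀ w : InfinitePlace K, (w.mult : ℝ) * Real.log (w (x - y) * Aof w f) < 0 := by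
      intro w
      have hw := congrFun hxy w
      rw [hφ] at hw
      simp only [Prod.mk.injEq] at hw
      have hre := Int.abs_sub_lt_one_of_floor_eq_floor hw.1
      have him := Int.abs_sub_lt_one_of_floor_eq_floor hw.2
      have hA := hApos w
      have hsub : w.embedding (x - y) = w.embedding (x - x0) - w.embedding (y - x0) := by
        rw [← map_sub]
        congr 1
        ring
      have h1 : |(w.embedding (x - y)).re * Aof w f| < 1 / 2 := by
        have e : 2 * ((w.embedding (x - x0)).re * Aof w f) -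
            2 * ((w.embedding (y - x0)).re * Aof w f) =
            2 * ((w.embedding (x - y)).re * Aof w f) := by
          rw [hsub, Complex.sub_re]; ring
        rw [e, abs_mul, abs_of_pos (show (0 : ℝ) < 2 by norm_num)] at hre
        linarith
      have h2 : |(w.embedding (x - y)).im * Aof w f| < 1 / 2 := by
        have e : 2 * ((w.embedding (x - x0)).im * Aof w f) -
            2 * ((w.embedding (y - x0)).im * Aof w f) =
            2 * ((w.embedding (x - y)).im * Aof w f) := by
          rw [hsub, Complex.sub_im]; ring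
        rw [e, abs_mul, abs_of_pos (show (0 : ℝ) < 2 by norm_num)] at him
        linarith
      have h3 : w (x - y) * Aof w f < 1 := by
        have h4 : w (x - y) = ‖w.embedding (x - y)‖ := (InfinitePlace.norm_embedding_eq w _).symm
        have h5 : (w (x - y) * Aof w f) ^ 2 =
            ((w.embedding (x - y)).re * Aof w f) ^ 2 + ((w.embedding (x - y)).im * Aof w f) ^ 2 := by
          rw [h4, mul_pow, Complex.sq_norm, Complex.normSq_apply]
          ring
        have h6 : ((w.embedding (x - y)).re * Aof w f) ^ 2 < (1 / 2) ^ 2 := by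
          rw [← sq_abs]
          exact pow_lt_pow_left₀ h1 (abs_nonneg _) (by norm_num)
        have h7 : ((w.embedding (x - y)).im * Aof w f) ^ 2 < (1 / 2) ^ 2 := by
          rw [← sq_abs]
          exact pow_lt_pow_left₀ h2 (abs_nonneg _) (by norm_num)
        have h8 : (w (x - y) * Aof w f) ^ 2 < 1 ^ 2 := by
          rw [h5]
          norm_num at h6 h7 ⊢
          linarith
        exact lt_of_pow_lt_pow_left₀ 2 (by norm_num) h8
      have h9 : 0 < w (x - y) := InfinitePlace.pos_iff.mpr (sub_ne_zero.mpr hne)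
      have h10 : Real.log (w (x - y) * Aof w f) < 0 := Real.log_neg (by positivity) h3
      have h11 : (0 : ℝ) < w.mult := by exact_mod_cast InfinitePlace.mult_pos
      exact mul_neg_of_pos_of_neg h11 h10
    have hle : ∀ v ∈ F, Real.log (v (x - y) * Aof v f) ≤ 0 := by
      intro v _
      apply Real.log_nonpos
      · have : 0 < v (x - y) := FinitePlace.pos_iff.mpr (sub_ne_zero.mpr hne)
        have := Aof_pos (v := v) (f := f) (FinitePlace.pos_iff.mpr ha)
        positivity
      · exact hfin v x hx y hy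
    have h12 : ∑ w : InfinitePlace K, (w.mult : ℝ) * Real.log (w (x - y) * Aof w f) < 0 :=
      Finset.sum_neg (fun w _ => hlt w) Finset.univ_nonempty
    have h13 := Finset.sum_nonpos hle
    linarith
  have hcard : X.card ≤ (Fintype.piFinset (fun _ : InfinitePlace K => box)).card := by
    apply Finset.card_le_card_of_injOn φ
    · intro x hx
      rw [Finset.mem_coe, Fintype.mem_piFinset]
      exact hbound x hx
    · exact hinj
  refine hcard.trans ?_
  rw [Fintype.card_piFinset, Finset.prod_const, Finset.card_univ]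
  have hbc : box.card = (4 * R + 2) ^ 2 := by
    rw [hbox, Finset.card_product, Int.card_Icc, sq]
    congr 1 <;> omega
  rw [hbc]
  apply Nat.pow_le_pow_right (by positivity)
  have hsum := InfinitePlace.sum_mult_eq (K := K)
  rw [hD] at hsum
  calc Fintype.card (InfinitePlace K) = ∑ _w : InfinitePlace K, 1 := by simp
    _ ≤ ∑ w : InfinitePlace K, w.mult := Finset.sum_le_sum (fun w _ => InfinitePlace.mult_pos)
    _ = D := hsum

end box

end Pool.Agent.UBC90787a
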