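import Mathlib

set_option autoImplicit false

/-!
Monic normalisations of the iterates of a polynomial.
-/

namespace Pool.Agent.UBC90787a

open Polynomial Finset

/-- Monic normalisation of the `k`-th iterate of `f`. -/
noncomputable def monicIter {L : Type*} [Field L] (f : L[X]) : ℕ → L[X]
  | 0 => X
  | k + 1 => C ((f.leadingCoeff ^ (f.natDegree ^ k))⁻¹) * (monicIter f k).comp f

lemma monicIter_succ {L : Type*} [Field L] (f : L[X]) (k : ℕ) :
    monicIter f (k + 1) = C ((f.leadingCoeff ^ (f.natDegree ^ k))⁻¹) * (monicIter f k).comp f :=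
  rfl

lemma monicIter_aux {L : Type*} [Field L] {f : L[X]} (hf : 1 ≤ f.natDegree) (k : ℕ) :
    (monicIter f k).Monic ∧ (monicIter f k).natDegree = f.natDegree ^ k := by
  have hf0 : f ≠ 0 := by
    rintro rfl
    simp at hf
  have ha : f.leadingCoeff ≠ 0 := leadingCoeff_ne_zero.mpr hf0
  induction k with
  | zero => exact ⟨monic_X, by simp [monicIter]⟩
  | succ k ih =>
    obtain ⟨ih1, ih2⟩ := ih
    have hne : (f.leadingCoeff ^ (f.natDegree ^ k))⁻¹ ≠ 0 := inv_ne_zero (pow_ne_zero _ ha)
    constructor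
    · unfold monicIter Monic
      rw [leadingCoeff_mul, leadingCoeff_C, leadingCoeff_comp (by omega), ih1.leadingCoeff, ih2,
        one_mul, inv_mul_cancel₀ (pow_ne_zero _ ha)]
    · unfold monicIter
      rw [natDegree_C_mul hne, natDegree_comp, ih2, pow_succ]

lemma monicIter_monic {L : Type*} [Field L] {f : L[X]} (hf : 1 ≤ f.natDegree) (k : ℕ) :
    (monicIter f k).Monic := (monicIter_aux hf k).1

lemma monicIter_natDegree {L : Type*} [Field L] {f : L[X]} (hf : 1 ≤ f.natDegree) (k : ℕ) :
    (monicIter f k).natDegree = f.natDegree ^ k := (monicIter_aux hf k).2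

lemma monicIter_eval_norm_le {L : Type*} [NormedField L] {f : L[X]} {d : ℕ}
    (hd : f.natDegree = d) (hd1 : 1 ≤ d) {A B : ℝ} (hA : 0 < A)
    (hAa : A ^ (d - 1) = ‖f.leadingCoeff‖) (k : ℕ) :
    ∀ x : L, (∀ j : ℕ, ‖(fun z => f.eval z)^[j] x‖ * A ≤ B) →
      ‖(monicIter f k).eval x‖ * A ^ (d ^ k) ≤ B := by
  induction k with
  | zero =>
    intro x hx
    have := hx 0
    simpa [monicIter] using this
  | succ k ih =>
    intro x hx
    have h1 := ih (f.eval x) (fun j => by
      have := hx (j + 1)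
      rwa [Function.iterate_succ_apply] at this)
    have hpos : (0 : ℝ) < A ^ ((d - 1) * d ^ k) := pow_pos hA _
    have h2 : ‖(monicIter f (k + 1)).eval x‖ * A ^ (d ^ (k + 1)) =
        ‖(monicIter f k).eval (f.eval x)‖ * A ^ (d ^ k) := by
      rw [monicIter_succ, eval_mul, eval_C, eval_comp, norm_mul, norm_inv, norm_pow, ← hAa, hd, ← pow_mul]
      have h3 : d ^ (k + 1) = (d - 1) * d ^ k + d ^ k := by
        obtain ⟨e, rfl⟩ : ∃ e, d = e + 1 := ⟨d - 1, by omega⟩
        rw [pow_succ]
        simp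
        ring
      rw [h3, pow_add]
      field_simp
    rw [h2]
    exact h1

end Pool.Agent.UBC90787a
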