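import Pool.Agent.Lib.MP_90787a_nt.LocalFinite

set_option autoImplicit false
set_option linter.unusedSectionVars false

/-!
The estimates at the archimedean places, at the places of potentially good reduction and at the
places of nonsplit reduction.
-/

namespace Pool.Agent.UBC90787a

open Polynomial Finset NumberField

section arch

variable {K : Type} [Field K] [NumberField K]

open Classical in
theorem arch_place (w : InfinitePlace K) {f : K[X]} {d : ℕ} (hd : f.natDegree = d)
    (hd2 : 2 ≤ d) (X : Finset K) (hX : ∀ x ∈ X, Preper (fun z => f.eval z) x) {x0 : K}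
    (hx0 : x0 ∈ X) :
    ∃ lam : ℝ, 0 ≤ lam ∧ (∃ r : ℝ, EscapeDisc w f x0 r ∧ lam = Real.log (r * Aof w f)) ∧
      (∀ x ∈ X, ∀ y ∈ X, w (x - y) * Aof w f ≤ 8 * Real.exp lam) ∧
      (∀ Y ⊆ X, logEnergy w (Aof w f) Y ≤
        (4 * d * (lam + Real.log 4) + 2) * (Y.card * (1 + Real.log Y.card))) ∧
      (Real.log (4096 * (d : ℝ) ^ 4) ≤ lam →
        ∃ XA XB : Finset K, XA ∪ XB = X ∧ ∀ Y, (Y ⊆ XA ∨ Y ⊆ XB) →
        logEnergy w (Aof w f) Y ≤
          lam * (- (Y.card : ℝ) ^ 2 / (2 * d ^ 2) + 6 * d ^ 2 * Y.card) +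
          2 * (Y.card * (1 + Real.log Y.card))) := by
  set ι : K →+* ℂ := w.embedding with hιdef
  have hι : ∀ x, ‖ι x‖ = w x := fun x => InfinitePlace.norm_embedding_eq w x
  have hf0 : f ≠ 0 := by
    rintro rfl
    rw [natDegree_zero] at hd
    omega
  have hlcpos : 0 < w f.leadingCoeff := v_pos hι (leadingCoeff_ne_zero.mpr hf0)
  set A : ℝ := Aof w f with hA
  have hApos : 0 < A := Aof_pos hlcpos
  have hApow : A ^ (d - 1) = w f.leadingCoeff := by
    rw [← hd]
    exact Aof_pow hlcpos (by omega)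
  set g : ℂ[X] := (conjPoly f 1 x0).map ι with hg
  have hgd : g.natDegree = d := by rw [hg, map_natDegree one_ne_zero, hd]
  have hglc : ‖g.leadingCoeff‖ = w f.leadingCoeff := by
    rw [hg, map_leadingCoeff_norm hι (by omega) one_ne_zero]
    simp
  obtain ⟨r, hr, hr'⟩ := exists_min_radius g (by omega)
  rw [hgd] at hr'
  have hrpos := hr.pos
  have hAa : A ^ (g.natDegree - 1) = ‖g.leadingCoeff‖ := by rw [hgd, hApow, hglc]
  have hAad : A ^ (d - 1) = ‖g.leadingCoeff‖ := by rw [hApow, hglc]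
  have hrA1 : 1 ≤ r * A := by
    have h1 := hr.one_le
    rw [← hAa, ← mul_pow, hgd] at h1
    by_contra hlt
    push Not at hlt
    have h2 : (A * r) ^ (d - 1) < 1 := by
      rw [mul_comm]
      exact pow_lt_one₀ (by positivity) hlt (by omega)
    linarith
  have hrApos : 0 < r * A := by positivity
  set σ : K → ℂ := fun x => ι (1 * (x - x0)) with hσ
  have hσinj : Function.Injective σ := sigma_injective one_ne_zero x0
  have hσd : ∀ x y, ‖σ x - σ y‖ = 1 * w (x - y) := by
    intro x y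
    rw [hσ]
    simp only
    rw [sigma_sub (v := w) hι]
    simp
  have hen : ∀ Y : Finset K, logEnergy (fun x => ‖x‖) A (Y.image σ) = logEnergy w A Y := by
    intro Y
    rw [logEnergy_image hσd hσinj, one_mul]
  have hcardσ : ∀ Y : Finset K, (Y.image σ).card = Y.card := fun Y =>
    Finset.card_image_of_injective Y hσinj
  have hpre : ∀ x ∈ X, Preper (fun z => g.eval z) (σ x) := fun x hx =>
    (hX x hx).transport one_ne_zero x0
  have horb : ∀ x ∈ X, ∀ j, ‖(fun z => g.eval z)^[j] (σ x)‖ ≤ 4 * r := fun x hx j =>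
    hr.preper_le_arch (by omega) ((hpre x hx).iterate j)
  have hσ0 : σ x0 = 0 := by rw [hσ]; simp
  have h0pre : Preper (fun z => g.eval z) 0 := by
    have := hpre x0 hx0
    rwa [hσ0] at this
  have hexp : Real.exp (Real.log (r * A)) = r * A := Real.exp_log hrApos
  refine ⟨Real.log (r * A), Real.log_nonneg hrA1,
    ⟨r, (escapeDisc_iff hι (by omega) _ _).mpr hr, rfl⟩, ?_, ?_, ?_⟩
  · intro x hx y hy
    rw [hexp]
    have h1 : w (x - y) ≤ 8 * r := by
      have h2 := hσd x y
      rw [one_mul] at h2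
      rw [← h2]
      refine (norm_sub_le _ _).trans ?_
      have h3 := horb x hx 0
      have h4 := horb y hy 0
      simp only [Function.iterate_zero, id] at h3 h4
      linarith
    calc w (x - y) * A ≤ (8 * r) * A := by gcongr
      _ = 8 * (r * A) := by ring
  · intro Y hYX
    have hlog4 : 0 ≤ Real.log 4 := Real.log_nonneg (by norm_num)
    have h1 := baseline_arch (f := g) hgd hd2 hApos hAad
      (γ := Real.log (r * A) + Real.log 4) (by
        have := Real.log_nonneg hrA1
        linarith)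
      (Y.image σ) (fun x hx j => by
        obtain ⟨y, hy, rfl⟩ := Finset.mem_image.mp hx
        rw [Real.exp_add, hexp, Real.exp_log (by norm_num)]
        have := horb y (hYX hy) j
        calc ‖(fun z => g.eval z)^[j] (σ y)‖ * A ≤ (4 * r) * A := by gcongr
          _ = r * A * 4 := by ring)
    rw [hen, hcardσ] at h1
    exact h1
  · intro hbig
    have hd4 : (0 : ℝ) < 4096 * (d : ℝ) ^ 4 := by
      have : (0 : ℝ) < d := by exact_mod_cast (by omega : 0 < d)
      positivity
    have hbig' : 4096 * (d : ℝ) ^ 4 ≤ r * A := (Real.log_le_log_iff hd4 hrApos).mp hbig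
    have hd0 : (0 : ℝ) < d := by exact_mod_cast (by omega : 0 < d)
    have hd1 : (1 : ℝ) ≤ d := by exact_mod_cast (by omega : 1 ≤ d)
    have hrA : 1 < r * A := by
      have : (1 : ℝ) ≤ (d : ℝ) ^ 4 := one_le_pow₀ hd1
      linarith
    obtain ⟨i, hi, hieq⟩ : ∃ i < d, ‖g.coeff i‖ = ‖g.leadingCoeff‖ * r ^ (d - i) := by
      rcases hr' with h | h
      · exfalso
        rw [← hAa, hgd, ← mul_pow, mul_comm] at h
        have := one_lt_pow₀ hrA (show d - 1 ≠ 0 by omega)
        linarith
      · exact h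
    obtain ⟨α, hα0, hαr⟩ := exists_root_ge hr (by omega) (i := i) (by omega) (by rw [hgd]; exact hieq)
    rw [hgd] at hαr
    have hαpre : Preper (fun z => g.eval z) α := by
      obtain ⟨i, j, hij, he⟩ := h0pre
      refine ⟨i + 1, j + 1, by omega, ?_⟩
      rw [Function.iterate_succ_apply, Function.iterate_succ_apply]
      show (fun z => g.eval z)^[i] (g.eval α) = (fun z => g.eval z)^[j] (g.eval α)
      rw [hα0]
      exact he
    refine ⟨X.filter (fun x => ‖σ x - α‖ < r / (2 * d)),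
      X.filter (fun x => ¬ ‖σ x - α‖ < r / (2 * d)),
      Finset.filter_union_filter_not_eq _ _, ?_⟩
    rintro Y (hY | hY)
    · have hYX : Y ⊆ X := hY.trans (Finset.filter_subset _ _)
      have h1 := arch_gap (g := g) hgd hd2 hApos hAad hr hbig' h0pre (Y.image σ) (fun x hx => by
        obtain ⟨y, hy, rfl⟩ := Finset.mem_image.mp hx
        exact hpre y (hYX hy)) (z := 0) h0pre (fun x hx => by
        obtain ⟨y, hy, rfl⟩ := Finset.mem_image.mp hx
        have h2 := (Finset.mem_filter.mp (hY hy)).2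
        rw [sub_zero]
        have h3 : ‖α‖ ≤ ‖σ y‖ + ‖σ y - α‖ := by
          have : α = σ y - (σ y - α) := by ring
          calc ‖α‖ = ‖σ y - (σ y - α)‖ := by rw [← this]
            _ ≤ ‖σ y‖ + ‖σ y - α‖ := norm_sub_le _ _
        have h4 : r / d = 2 * (r / (2 * d)) := by field_simp
        linarith)
      rw [hen, hcardσ] at h1
      exact h1
    · have hYX : Y ⊆ X := hY.trans (Finset.filter_subset _ _)
      have h1 := arch_gap (g := g) hgd hd2 hApos hAad hr hbig' h0pre (Y.image σ) (fun x hx => by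
        obtain ⟨y, hy, rfl⟩ := Finset.mem_image.mp hx
        exact hpre y (hYX hy)) (z := α) hαpre (fun x hx => by
        obtain ⟨y, hy, rfl⟩ := Finset.mem_image.mp hx
        have h2 := (Finset.mem_filter.mp (hY hy)).2
        push Not at h2
        exact h2)
      rw [hen, hcardσ] at h1
      exact h1

end arch

section good

variable {K : Type} [Field K] [NumberField K]

/-- `f` has potentially good reduction at `v`, the centre being rational: after a translation by
`t`, the coefficients satisfy `|g_i|^(d-1) |a| ≤ |a|^i`. -/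
def PotGood (v : FinitePlace K) (f : K[X]) : Prop :=
  ∃ t : K, ∀ i < f.natDegree, v ((conjPoly f 1 t).coeff i) ^ (f.natDegree - 1) *
    v f.leadingCoeff ≤ v f.leadingCoeff ^ i

lemma good_pair {v : FinitePlace K} {f : K[X]} {d : ℕ} (hd : f.natDegree = d) (hd2 : 2 ≤ d)
    (hgood : PotGood v f) {x y : K} (hx : Preper (fun z => f.eval z) x)
    (hy : Preper (fun z => f.eval z) y) : v (x - y) * Aof v f ≤ 1 := by
  obtain ⟨L, _, _, _, ι, hι⟩ := exists_ultra_field v
  have hf0 : f ≠ 0 := by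
    rintro rfl
    rw [natDegree_zero] at hd
    omega
  have hlcpos : 0 < v f.leadingCoeff := v_pos hι (leadingCoeff_ne_zero.mpr hf0)
  set A : ℝ := Aof v f with hA
  have hApos : 0 < A := Aof_pos hlcpos
  have hApow : A ^ (d - 1) = v f.leadingCoeff := by
    rw [← hd]
    exact Aof_pow hlcpos (by omega)
  obtain ⟨t, ht⟩ := hgood
  set g : L[X] := (conjPoly f 1 t).map ι with hg
  have hgd : g.natDegree = d := by rw [hg, map_natDegree one_ne_zero, hd]
  have hglc : ‖g.leadingCoeff‖ = v f.leadingCoeff := by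
    rw [hg, map_leadingCoeff_norm hι (by omega) one_ne_zero]
    simp
  have hr : IsRadius g A⁻¹ := by
    refine ⟨by positivity, ?_, ?_⟩
    · rw [hglc, ← hApow, hgd, ← mul_pow, mul_inv_cancel₀ hApos.ne', one_pow]
    · intro i hi
      rw [hgd] at hi ⊢
      rw [hglc, hg, map_coeff_norm hι, ← hApow]
      have h1 := ht i (by omega)
      rw [hd, ← hApow] at h1
      -- `v(g_i) ^ (d-1) ≤ (A ^ (d-1)) ^ i / A ^ (d-1)`
      have h2 : (v ((conjPoly f 1 t).coeff i) * A) ^ (d - 1) ≤ (A ^ i) ^ (d - 1) := by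
        rw [mul_pow, ← pow_mul, mul_comm i, pow_mul]
        exact h1
      have h3 : v ((conjPoly f 1 t).coeff i) * A ≤ A ^ i :=
        le_of_pow_le_pow_left₀ (by omega) (by positivity) h2
      have h4 : A ^ (d - 1) * (A⁻¹) ^ (d - i) * A = A ^ i := by
        have e1 : d - 1 + 1 = (d - i) + i := by omega
        calc A ^ (d - 1) * (A⁻¹) ^ (d - i) * A = A ^ (d - 1 + 1) * (A⁻¹) ^ (d - i) := by
              rw [pow_succ]; ring
          _ = A ^ i * (A ^ (d - i) * (A⁻¹) ^ (d - i)) := by rw [e1, pow_add]; ring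
          _ = A ^ i := by rw [← mul_pow, mul_inv_cancel₀ hApos.ne', one_pow, mul_one]
      rw [← h4] at h3
      exact le_of_mul_le_mul_right h3 hApos
  have h5 := pair_bound hι (f := f) (by omega) one_ne_zero t hr hx hy
  have h6 : v (x - y) ≤ A⁻¹ := by simpa using h5
  calc v (x - y) * A ≤ A⁻¹ * A := by gcongr
    _ = 1 := inv_mul_cancel₀ hApos.ne'

/-- The first alternative of `int_gain` implies potentially good reduction. -/
lemma potGood_of_radius {v : FinitePlace K} {f : K[X]} {d : ℕ} (hd : f.natDegree = d)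
    (hd2 : 2 ≤ d) {s t : K} (hs : s ≠ 0) {r : ℝ}
    (hr1 : r ^ (d - 1) * v (conjPoly f s t).leadingCoeff = 1) (hr0 : 0 < r)
    (hr2 : ∀ i, v ((conjPoly f s t).coeff i) * r ^ i ≤ r) : PotGood v f := by
  refine ⟨t, fun i hi => ?_⟩
  have hvs : 0 < v s := FinitePlace.pos_iff.mpr hs
  have hf0 : f ≠ 0 := by
    rintro rfl
    rw [natDegree_zero] at hd
    omega
  have ha : 0 < v f.leadingCoeff := FinitePlace.pos_iff.mpr (leadingCoeff_ne_zero.mpr hf0)
  -- relation between the two conjugates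
  have hrel : v ((conjPoly f s t).coeff i) * v s ^ i = v s * v ((conjPoly f 1 t).coeff i) := by
    have h1 : conjPoly f s t = C s * (conjPoly f 1 t).comp (C s⁻¹ * X) := by
      unfold conjPoly
      rw [C_1, one_mul, inv_one, C_1, one_mul, sub_comp, C_comp, comp_assoc, add_comp, X_comp,
        C_comp]
    rw [h1, coeff_C_mul, map_mul, comp_C_mul_X_coeff, map_mul, map_pow, map_inv₀, inv_pow,
      mul_assoc, mul_assoc, inv_mul_cancel₀ (by positivity), mul_one]
  have hlc := leadingCoeff_conjPoly (f := f) (by omega) hs t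
  rw [hlc, hd, map_mul, map_pow, map_inv₀] at hr1
  rw [hd]
  have h2 := hr2 i
  set b := v ((conjPoly f 1 t).coeff i) with hb
  have hb0 : 0 ≤ b := by rw [hb]; exact apply_nonneg v _
  have h3 : v ((conjPoly f s t).coeff i) = v s * b * (v s ^ i)⁻¹ := by
    rw [← hrel]
    field_simp
  rw [h3] at h2
  -- raise to the power `d - 1`
  have h4 : (v s * b * (v s ^ i)⁻¹ * r ^ i) ^ (d - 1) ≤ r ^ (d - 1) := by
    have : 0 ≤ v s * b * (v s ^ i)⁻¹ * r ^ i := by positivity
    exact pow_le_pow_left₀ this h2 _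
  set a := v f.leadingCoeff with hadef
  set u : ℝ := (v s)⁻¹ ^ (d - 1) with hu
  have hupos : 0 < u := by positivity
  have hr1' : r ^ (d - 1) * (a * u) = 1 := hr1
  have hrd : r ^ (d - 1) = (a * u)⁻¹ := eq_inv_of_mul_eq_one_left hr1'
  have hvsu : v s ^ (d - 1) = u⁻¹ := by rw [hu, inv_pow, inv_inv]
  have e1 : (v s * b * (v s ^ i)⁻¹ * r ^ i) ^ (d - 1) =
      v s ^ (d - 1) * b ^ (d - 1) * ((v s ^ (d - 1)) ^ i)⁻¹ * (r ^ (d - 1)) ^ i := by
    rw [mul_pow, mul_pow, mul_pow, inv_pow, ← pow_mul (v s) i, ← pow_mul r i,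
      mul_comm i (d - 1), pow_mul, pow_mul]
  rw [e1, hrd, hvsu] at h4
  have e2 : u⁻¹ * b ^ (d - 1) * ((u⁻¹) ^ i)⁻¹ * ((a * u)⁻¹) ^ i = u⁻¹ * b ^ (d - 1) * (a ^ i)⁻¹ := by
    rw [inv_pow, inv_pow, mul_pow, inv_inv]
    field_simp
  rw [e2] at h4
  have h5 : u⁻¹ * b ^ (d - 1) * (a ^ i)⁻¹ * (u * a * a ^ i) ≤ (a * u)⁻¹ * (u * a * a ^ i) := by
    gcongr
  have e3 : u⁻¹ * b ^ (d - 1) * (a ^ i)⁻¹ * (u * a * a ^ i) = b ^ (d - 1) * a := by
    field_simp
  have e4 : (a * u)⁻¹ * (u * a * a ^ i) = a ^ i := by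
    field_simp
  rw [e3, e4] at h5
  exact h5

end good

end Pool.Agent.UBC90787a
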