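import Pool.Agent.Lib.MP_90787a_nt.Transport
import Pool.Agent.Lib.MP_90787a_nt.Places
import Pool.Agent.Lib.MP_90787a_nt.AnnulusGain
import Pool.Agent.Lib.MP_90787a_nt.Arch

set_option autoImplicit false
set_option linter.unusedSectionVars false

/-!
The estimates at the finite places of a number field.
-/

namespace Pool.Agent.UBC90787a

open Polynomial Finset NumberField

/-- The normalising factor: `A ^ (d - 1)` is the absolute value of the leading coefficient. -/
noncomputable def Aof {K : Type*} [Field K] (v : K → ℝ) (f : K[X]) : ℝ :=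
  v f.leadingCoeff ^ ((1 : ℝ) / ((f.natDegree - 1 : ℕ) : ℝ))

lemma Aof_pos {K : Type*} [Field K] {v : K → ℝ} {f : K[X]} (h : 0 < v f.leadingCoeff) :
    0 < Aof v f := by
  unfold Aof
  positivity

lemma Aof_pow {K : Type*} [Field K] {v : K → ℝ} {f : K[X]} (h : 0 < v f.leadingCoeff)
    (hd : 2 ≤ f.natDegree) : Aof v f ^ (f.natDegree - 1) = v f.leadingCoeff := by
  unfold Aof
  rw [← Real.rpow_natCast, ← Real.rpow_mul h.le, one_div, inv_mul_cancel₀ (by
    have : 0 < f.natDegree - 1 := by omega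
    positivity), Real.rpow_one]

lemma log_Aof {K : Type*} [Field K] {v : K → ℝ} {f : K[X]} (h : 0 < v f.leadingCoeff) :
    Real.log (Aof v f) = (1 / ((f.natDegree - 1 : ℕ) : ℝ)) * Real.log (v f.leadingCoeff) := by
  unfold Aof
  rw [Real.log_rpow h]

lemma pow_eq_of_pow_eq {a b : ℝ} {n : ℕ} (ha : 0 ≤ a) (hb : 0 ≤ b) (hn : n ≠ 0)
    (h : a ^ n = b ^ n) : a = b := (pow_left_inj₀ ha hb hn).mp h

section setup

variable {K : Type} [Field K] {L : Type} [NormedField L] {v : K → ℝ} {ι : K →+* L}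

lemma map_leadingCoeff_norm (hι : ∀ x, ‖ι x‖ = v x) {f : K[X]} (hf : 1 ≤ f.natDegree) {s : K}
    (hs : s ≠ 0) (t : K) :
    ‖((conjPoly f s t).map ι).leadingCoeff‖ = v f.leadingCoeff * (v s)⁻¹ ^ (f.natDegree - 1) := by
  rw [leadingCoeff_map, hι, leadingCoeff_conjPoly hf hs, ← hι, ← hι, ← hι, map_mul, norm_mul,
    map_pow, norm_pow, map_inv₀, norm_inv]

lemma map_natDegree {f : K[X]} {s : K} (hs : s ≠ 0) (t : K) :
    ((conjPoly f s t).map ι).natDegree = f.natDegree := by
  rw [natDegree_map, natDegree_conjPoly hs]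

lemma map_coeff_norm (hι : ∀ x, ‖ι x‖ = v x) (f : K[X]) (s t : K) (i : ℕ) :
    ‖((conjPoly f s t).map ι).coeff i‖ = v ((conjPoly f s t).coeff i) := by
  rw [coeff_map, hι]

lemma sigma_sub (hι : ∀ x, ‖ι x‖ = v x) (s t x y : K) :
    ‖ι (s * (x - t)) - ι (s * (y - t))‖ = v s * v (x - y) := by
  rw [← map_sub, ← hι, ← hι, ← norm_mul, ← map_mul]
  congr 2
  ring

lemma sigma_injective {s : K} (hs : s ≠ 0) (t : K) :
    Function.Injective (fun x => ι (s * (x - t))) := by
  intro x y h
  have h1 := ι.injective h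
  have h2 := mul_left_cancel₀ hs h1
  exact sub_left_inj.mp h2

lemma v_pos (hι : ∀ x, ‖ι x‖ = v x) {x : K} (hx : x ≠ 0) : 0 < v x := by
  rw [← hι]
  exact norm_pos_iff.mpr (by simpa using hx)

end setup

lemma escapeDisc_iff {K : Type} [Field K] {L : Type} [NormedField L] {v : K → ℝ} {ι : K →+* L}
    (hι : ∀ x, ‖ι x‖ = v x) {f : K[X]} (hf : 1 ≤ f.natDegree) (t : K) (r : ℝ) :
    EscapeDisc v f t r ↔ IsRadius ((conjPoly f 1 t).map ι) r := by
  have h1 : ((conjPoly f 1 t).map ι).natDegree = f.natDegree := map_natDegree one_ne_zero t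
  have h2 : ‖((conjPoly f 1 t).map ι).leadingCoeff‖ = v f.leadingCoeff := by
    rw [map_leadingCoeff_norm hι hf one_ne_zero, ← hι 1]
    simp
  constructor
  · rintro ⟨hr, h3, h4⟩
    refine ⟨hr, ?_, ?_⟩
    · rw [h1, h2]; exact h3
    · rw [h1, h2]
      intro i hi
      rw [map_coeff_norm hι]
      exact h4 i hi
  · rintro ⟨hr, h3, h4⟩
    rw [h1, h2] at h3 h4
    refine ⟨hr, h3, fun i hi => ?_⟩
    rw [← map_coeff_norm hι]
    exact h4 i hi

/-- Minimality of the radius in the equality case. -/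
lemma radius_le_of_eq {L : Type} [NormedField L] {g : L[X]} (hd : 2 ≤ g.natDegree) {r r' : ℝ}
    (hr : IsRadius g r)
    (heq : ‖g.leadingCoeff‖ * r ^ (g.natDegree - 1) = 1 ∨
      ∃ i < g.natDegree, ‖g.coeff i‖ = ‖g.leadingCoeff‖ * r ^ (g.natDegree - i))
    (hr' : IsRadius g r') : r ≤ r' := by
  have hlc := hr.lc_pos
  by_contra hlt
  push Not at hlt
  rcases heq with h | ⟨i, hi, h⟩
  · have h1 : r' ^ (g.natDegree - 1) < r ^ (g.natDegree - 1) :=
      pow_lt_pow_left₀ hlt hr'.pos.le (by omega)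
    have h2 : ‖g.leadingCoeff‖ * r' ^ (g.natDegree - 1) <
        ‖g.leadingCoeff‖ * r ^ (g.natDegree - 1) := by gcongr
    have := hr'.one_le
    linarith
  · have h1 : r' ^ (g.natDegree - i) < r ^ (g.natDegree - i) :=
      pow_lt_pow_left₀ hlt hr'.pos.le (by omega)
    have h2 : ‖g.leadingCoeff‖ * r' ^ (g.natDegree - i) <
        ‖g.leadingCoeff‖ * r ^ (g.natDegree - i) := by gcongr
    have := hr'.coeff_le i hi
    linarith

section zpow

lemma le_of_one_lt_zpow {q : ℝ} (hq : 1 < q) {k : ℤ} (h : 1 < q ^ k) : q ≤ q ^ k := by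
  have hk : 0 < k := by
    by_contra hk
    push Not at hk
    have := zpow_le_one_of_nonpos₀ hq.le hk
    linarith
  calc q = q ^ (1 : ℤ) := (zpow_one q).symm
    _ ≤ q ^ k := zpow_le_zpow_right₀ hq.le (by omega)

end zpow

section finite

variable {K : Type} [Field K] [NumberField K]

/-- Pairs of preperiodic points at a finite place. -/
lemma pair_bound {L : Type} [NormedField L] [IsUltrametricDist L] {ι : K →+* L}
    {v : FinitePlace K} (hι : ∀ x, ‖ι x‖ = v x) {f : K[X]} (hd2 : 2 ≤ f.natDegree) {s : K}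
    (hs : s ≠ 0) (t : K) {r : ℝ} (hr : IsRadius ((conjPoly f s t).map ι) r) {x y : K}
    (hx : Preper (fun z => f.eval z) x) (hy : Preper (fun z => f.eval z) y) :
    v s * v (x - y) ≤ r := by
  have hd : 2 ≤ ((conjPoly f s t).map ι).natDegree := by rw [map_natDegree hs]; exact hd2
  have h1 := hr.preper_le hd (hx.transport (ι := ι) hs t)
  have h2 := hr.preper_le hd (hy.transport (ι := ι) hs t)
  rw [← sigma_sub (v := v) hι s t x y, sub_eq_add_neg]
  refine (IsUltrametricDist.norm_add_le_max _ _).trans (max_le h1 ?_)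
  rw [norm_neg]
  exact h2

open Classical in
/-- The estimates at an arbitrary finite place. -/
theorem exc_finite (v : FinitePlace K) {f : K[X]} {d : ℕ} (hd : f.natDegree = d) (hd2 : 2 ≤ d)
    (X : Finset K) (hX : ∀ x ∈ X, Preper (fun z => f.eval z) x) {x0 : K} (hx0 : x0 ∈ X) :
    ∃ r : ℝ, EscapeDisc v f x0 r ∧ (∀ r', EscapeDisc v f x0 r' → r ≤ r') ∧
    1 ≤ r * Aof v f ∧
    ((r * Aof v f = 1 ∧ ∀ x ∈ X, ∀ y ∈ X, v (x - y) * Aof v f ≤ 1) ∨
    (Real.log 2 / d ^ 2 ≤ Real.log (r * Aof v f) ∧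
      (∀ Y ⊆ X, logEnergy v (Aof v f) Y ≤
        4 * d * Real.log (r * Aof v f) * (Y.card * (1 + Real.log Y.card))) ∧
      ∃ XA XB : Finset K, XA ∪ XB = X ∧ ∀ Y, (Y ⊆ XA ∨ Y ⊆ XB) →
        logEnergy v (Aof v f) Y ≤ Real.log (r * Aof v f) *
          (- (Y.card : ℝ) ^ 2 / (4 * d ^ 2) + 7 * d * Y.card))) := by
  obtain ⟨L, _, _, _, ι, hι⟩ := exists_ultra_field v
  obtain ⟨c, hc⟩ := exists_one_lt v
  have hc0 : 1 < ‖ι c‖ := by rw [hι]; exact hc
  have hf0 : f ≠ 0 := by
    rintro rfl
    rw [natDegree_zero] at hd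
    omega
  have hlcpos : 0 < v f.leadingCoeff := v_pos hι (leadingCoeff_ne_zero.mpr hf0)
  set A : ℝ := Aof v f with hA
  have hApos : 0 < A := Aof_pos hlcpos
  have hApow : A ^ (d - 1) = v f.leadingCoeff := by
    rw [← hd]
    exact Aof_pow hlcpos (by omega)
  set g : L[X] := (conjPoly f 1 x0).map ι with hg
  have hgd : g.natDegree = d := by rw [hg, map_natDegree one_ne_zero, hd]
  have hglc : ‖g.leadingCoeff‖ = v f.leadingCoeff := by
    rw [hg, map_leadingCoeff_norm hι (by omega) one_ne_zero]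
    simp
  obtain ⟨r, hr, hr'⟩ := exists_min_radius g (by omega)
  refine ⟨r, (escapeDisc_iff hι (by omega) _ _).mpr hr, fun r' h =>
    radius_le_of_eq (by omega) hr hr' ((escapeDisc_iff hι (by omega) _ _).mp h), ?_⟩
  rw [hgd] at hr'
  have hrpos := hr.pos
  have hAa : A ^ (g.natDegree - 1) = ‖g.leadingCoeff‖ := by rw [hgd, hApow, hglc]
  have hrA1 : 1 ≤ r * A := by
    have h1 := hr.one_le
    rw [← hAa, ← mul_pow, hgd] at h1
    by_contra hlt
    push Not at hlt
    have h2 : (A * r) ^ (d - 1) < 1 := by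
      rw [mul_comm]
      exact pow_lt_one₀ (by positivity) hlt (by omega)
    linarith
  have hpair : ∀ x ∈ X, ∀ y ∈ X, v (x - y) ≤ r := by
    intro x hx y hy
    have := pair_bound hι (f := f) (by omega) one_ne_zero x0 hr (hX x hx) (hX y hy)
    simpa using this
  refine ⟨hrA1, ?_⟩
  rcases eq_or_lt_of_le hrA1 with heq | hrA
  · left
    refine ⟨heq.symm, ?_⟩
    intro x hx y hy
    calc v (x - y) * A ≤ r * A := by
          have := hpair x hx y hy
          gcongr
      _ = 1 := heq.symm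
  right
  -- the equality case
  obtain ⟨i, hi, hieq⟩ : ∃ i < d, ‖g.coeff i‖ = ‖g.leadingCoeff‖ * r ^ (d - i) := by
    rcases hr' with h | h
    · exfalso
      rw [← hAa, hgd, ← mul_pow, mul_comm] at h
      have := one_lt_pow₀ hrA (show d - 1 ≠ 0 by omega)
      linarith
    · exact h
  have hlampos : 0 < Real.log (r * A) := Real.log_pos hrA
  -- transported finite sets
  set σ : K → L := fun x => ι (1 * (x - x0)) with hσ
  have hσinj : Function.Injective σ := sigma_injective one_ne_zero x0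
  have hσd : ∀ x y, ‖σ x - σ y‖ = 1 * v (x - y) := by
    intro x y
    rw [hσ]
    simp only
    rw [sigma_sub (v := v) hι]
    simp
  have hen : ∀ Y : Finset K, logEnergy (fun x => ‖x‖) A (Y.image σ) = logEnergy v A Y := by
    intro Y
    rw [logEnergy_image hσd hσinj, one_mul]
  have hcardσ : ∀ Y : Finset K, (Y.image σ).card = Y.card := fun Y =>
    Finset.card_image_of_injective Y hσinj
  have hpre : ∀ x ∈ X, Preper (fun z => g.eval z) (σ x) := fun x hx =>
    (hX x hx).transport one_ne_zero x0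
  have horb : ∀ x ∈ X, ∀ j, ‖(fun z => g.eval z)^[j] (σ x)‖ ≤ r := fun x hx j =>
    hr.preper_le (by omega) ((hpre x hx).iterate j)
  refine ⟨?_, ?_, ?_⟩
  · -- discreteness
    have hcne : (conjPoly f 1 x0).coeff i ≠ 0 := by
      intro h
      rw [hg, map_coeff_norm hι, h, map_zero, ← hg] at hieq
      have : 0 < ‖g.leadingCoeff‖ * r ^ (d - i) := by
        have := hr.lc_pos
        positivity
      linarith
    obtain ⟨k, hk⟩ := exists_zpow v hcne
    obtain ⟨l, hl⟩ := exists_zpow v (leadingCoeff_ne_zero.mpr hf0)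
    have hq := one_lt_qv v
    have hq0 := qv_pos v
    have h1 : (r * A) ^ ((d - i) * (d - 1)) =
        (qv v : ℝ) ^ ((k - l) * ((d - 1 : ℕ) : ℤ) + l * ((d - i : ℕ) : ℤ)) := by
      have e1 : r ^ (d - i) = (qv v : ℝ) ^ (k - l) := by
        rw [zpow_sub₀ hq0.ne', ← hk, ← hl, eq_div_iff hlcpos.ne']
        rw [hg, map_coeff_norm hι, ← hg, hglc] at hieq
        rw [hieq, mul_comm]
      have e2 : A ^ (d - 1) = (qv v : ℝ) ^ l := by rw [hApow, hl]
      rw [mul_pow, pow_mul, e1, mul_comm (d - i) (d - 1), pow_mul, e2, zpow_add₀ hq0.ne',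
        zpow_mul, zpow_mul, zpow_natCast, zpow_natCast]
    have h2 : 1 < (r * A) ^ ((d - i) * (d - 1)) := by
      apply one_lt_pow₀ hrA
      have h3 : 0 < (d - i) * (d - 1) := Nat.mul_pos (by omega) (by omega)
      omega
    rw [h1] at h2
    have h3 := le_of_one_lt_zpow hq h2
    rw [← h1] at h3
    have h4 : (2 : ℝ) ≤ (r * A) ^ ((d - i) * (d - 1)) := by
      refine le_trans ?_ h3
      exact_mod_cast two_le_qv v
    have h5 := Real.log_le_log (by norm_num) h4
    rw [Real.log_pow] at h5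
    have h6 : (((d - i) * (d - 1) : ℕ) : ℝ) ≤ (d : ℝ) ^ 2 := by
      rw [sq]
      exact_mod_cast Nat.mul_le_mul (Nat.sub_le d i) (Nat.sub_le d 1)
    have hd0 : (0 : ℝ) < d := by exact_mod_cast (by omega : 0 < d)
    rw [div_le_iff₀ (by positivity)]
    calc Real.log 2 ≤ (((d - i) * (d - 1) : ℕ) : ℝ) * Real.log (r * A) := h5
      _ ≤ (d : ℝ) ^ 2 * Real.log (r * A) := by gcongr
      _ = Real.log (r * A) * (d : ℝ) ^ 2 := mul_comm _ _
  · intro Y hYX
    have h1 := baseline_ultra (f := g) hgd hd2 hApos (by rw [hApow, hglc]) hlampos.le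
      (Y.image σ) (fun x hx j => by
        obtain ⟨y, hy, rfl⟩ := Finset.mem_image.mp hx
        rw [Real.exp_log (by positivity)]
        have := horb y (hYX hy) j
        gcongr)
    rw [hen, hcardσ] at h1
    exact h1
  · -- a root of maximal size
    obtain ⟨α, hα0, hαr⟩ : ∃ α : L, g.eval α = 0 ∧ r ≤ ‖α‖ := by
      by_contra hcon
      push Not at hcon
      have hg0 : g ≠ 0 := by
        rintro h
        rw [h, natDegree_zero] at hgd
        omega
      have hroots : ∀ b ∈ g.roots, ‖b‖ < r := by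
        intro b hb
        rw [mem_roots hg0, IsRoot] at hb
        exact hcon b hb
      have hcard : g.roots.card = g.natDegree := IsAlgClosed.card_roots_eq_natDegree
      obtain ⟨ρ, hρ0, hρlt, hρ⟩ : ∃ ρ : ℝ, 0 ≤ ρ ∧ ρ < r ∧ ∀ b ∈ g.roots, ‖b‖ ≤ ρ := by
        have hne : g.roots.toFinset.Nonempty := by
          rw [Multiset.toFinset_nonempty]
          intro h0
          rw [h0, Multiset.card_zero] at hcard
          omega
        refine ⟨g.roots.toFinset.sup' hne (fun b => ‖b‖), ?_, ?_, ?_⟩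
        · obtain ⟨b, hb⟩ := hne
          exact (norm_nonneg b).trans (Finset.le_sup' (fun b => ‖b‖) hb)
        · rw [Finset.sup'_lt_iff]
          intro b hb
          exact hroots b (Multiset.mem_toFinset.mp hb)
        · intro b hb
          exact Finset.le_sup' (fun b => ‖b‖) (Multiset.mem_toFinset.mpr hb)
      have h1 := coeff_le_of_forall_root_le hρ0 hρ (e := i) (by omega)
      rw [hieq, hgd] at h1
      have h2 : ρ ^ (d - i) < r ^ (d - i) := pow_lt_pow_left₀ hρlt hρ0 (by omega)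
      have h3 : ‖g.leadingCoeff‖ * ρ ^ (d - i) < ‖g.leadingCoeff‖ * r ^ (d - i) := by
        have := hr.lc_pos
        gcongr
      linarith
    refine ⟨X.filter (fun x => ‖σ x - α‖ < r), X.filter (fun x => ¬ ‖σ x - α‖ < r),
      Finset.filter_union_filter_not_eq _ _, ?_⟩
    rintro Y (hY | hY)
    · have hYX : Y ⊆ X := hY.trans (Finset.filter_subset _ _)
      have hz0 : ‖g.eval 0‖ ≤ r := by
        have h1 := horb x0 hx0 1
        have h2 : σ x0 = 0 := by rw [hσ]; simp
        rw [h2] at h1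
        exact h1
      have h1 := ultra_gap hc0 (g := g) (by omega) hApos hAa hr hrA (Y.image σ) (fun x hx j => by
        obtain ⟨y, hy, rfl⟩ := Finset.mem_image.mp hx
        exact horb y (hYX hy) j) hz0 (fun x hx => by
        obtain ⟨y, hy, rfl⟩ := Finset.mem_image.mp hx
        have h2 := (Finset.mem_filter.mp (hY hy)).2
        rw [sub_zero]
        by_contra hlt
        push Not at hlt
        have h3 : α = σ y - (σ y - α) := by ring
        have h4 : ‖α‖ < r := by
          rw [h3, sub_eq_add_neg]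
          refine (IsUltrametricDist.norm_add_le_max _ _).trans_lt (max_lt hlt ?_)
          rw [norm_neg]
          exact h2
        linarith)
      rw [hen, hcardσ, hgd] at h1
      exact h1
    · have hYX : Y ⊆ X := hY.trans (Finset.filter_subset _ _)
      have h1 := ultra_gap hc0 (g := g) (by omega) hApos hAa hr hrA (Y.image σ) (fun x hx j => by
        obtain ⟨y, hy, rfl⟩ := Finset.mem_image.mp hx
        exact horb y (hYX hy) j) (z := α) (by rw [hα0, norm_zero]; exact hrpos.le) (fun x hx => by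
        obtain ⟨y, hy, rfl⟩ := Finset.mem_image.mp hx
        have h2 := (Finset.mem_filter.mp (hY hy)).2
        push Not at h2
        exact h2)
      rw [hen, hcardσ, hgd] at h1
      exact h1

end finite

end Pool.Agent.UBC90787a
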