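import Pool.Agent.Lib.MP_90787a_nt.LocalWeight

set_option autoImplicit false
set_option linter.unusedSectionVars false

/-!
The estimates at the places of nonsplit reduction.
-/

namespace Pool.Agent.UBC90787a

open Polynomial Finset NumberField

section products

variable {L : Type*} [NormedField L] [IsUltrametricDist L]

/-- Coefficients of products of linear factors with close roots are close. -/
lemma coeff_prod_close {r : ℝ} (hr : 0 < r) : ∀ (n : ℕ) (α β : Fin n → L),
    (∀ j, ‖α j‖ ≤ r) → (∀ j, ‖β j‖ ≤ r) → (∀ j, ‖α j - β j‖ < r) →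
    (∀ i ≤ n, ‖(∏ j, (X - C (α j))).coeff i‖ ≤ r ^ (n - i)) ∧
    (∀ i < n, ‖(∏ j, (X - C (α j))).coeff i - (∏ j, (X - C (β j))).coeff i‖ < r ^ (n - i)) := by
  intro n
  induction n with
  | zero =>
    intro α β _ _ _
    refine ⟨fun i hi => ?_, fun i hi => absurd hi (Nat.not_lt_zero i)⟩
    have : i = 0 := by omega
    subst this
    simp
  | succ n ih =>
    intro α β hα hβ hαβ
    obtain ⟨ih1, ih2⟩ := ih (fun j => α j.succ) (fun j => β j.succ) (fun j => hα _)
      (fun j => hβ _) (fun j => hαβ _)
    set P : L[X] := ∏ j : Fin n, (X - C (α j.succ)) with hP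
    set Q : L[X] := ∏ j : Fin n, (X - C (β j.succ)) with hQ
    have hPm : P.Monic := monic_prod_of_monic _ _ (fun j _ => monic_X_sub_C _)
    have hQm : Q.Monic := monic_prod_of_monic _ _ (fun j _ => monic_X_sub_C _)
    have hPd : P.natDegree = n := by
      rw [hP, natDegree_prod_of_monic _ _ (fun j _ => monic_X_sub_C _)]
      simp
    have hQd : Q.natDegree = n := by
      rw [hQ, natDegree_prod_of_monic _ _ (fun j _ => monic_X_sub_C _)]
      simp
    have hPn : P.coeff n = 1 := by rw [← hPd]; exact hPm.coeff_natDegree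
    have hQn : Q.coeff n = 1 := by rw [← hQd]; exact hQm.coeff_natDegree
    have hPn1 : P.coeff (n + 1) = 0 := coeff_eq_zero_of_natDegree_lt (by omega)
    have hQn1 : Q.coeff (n + 1) = 0 := coeff_eq_zero_of_natDegree_lt (by omega)
    rw [Fin.prod_univ_succ, Fin.prod_univ_succ, ← hP, ← hQ]
    have hc0 : ∀ (a : L) (R : L[X]), ((X - C a) * R).coeff 0 = - (a * R.coeff 0) := by
      intro a R
      rw [sub_mul, coeff_sub, coeff_C_mul, mul_coeff_zero, coeff_X_zero, zero_mul, zero_sub]
    have hcs : ∀ (a : L) (R : L[X]) (i : ℕ), ((X - C a) * R).coeff (i + 1) =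
        R.coeff i - a * R.coeff (i + 1) := by
      intro a R i
      rw [sub_mul, coeff_sub, coeff_C_mul, coeff_X_mul]
    constructor
    · intro i hi
      rcases i with _ | i
      · rw [hc0, norm_neg, norm_mul]
        have h1 := ih1 0 (by omega)
        calc ‖α 0‖ * ‖P.coeff 0‖ ≤ r * r ^ (n - 0) := by
              have := hα 0
              gcongr
          _ = r ^ (n + 1 - 0) := by rw [Nat.sub_zero, Nat.sub_zero, pow_succ]; ring
      · rw [hcs, sub_eq_add_neg]
        refine (IsUltrametricDist.norm_add_le_max _ _).trans (max_le ?_ ?_)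
        · have := ih1 i (by omega)
          rwa [show n + 1 - (i + 1) = n - i by omega]
        · rw [norm_neg, norm_mul]
          rcases Nat.lt_or_ge i n with h | h
          · have h1 := ih1 (i + 1) (by omega)
            calc ‖α 0‖ * ‖P.coeff (i + 1)‖ ≤ r * r ^ (n - (i + 1)) := by
                  have := hα 0
                  gcongr
              _ = r ^ (n + 1 - (i + 1)) := by
                  rw [← pow_succ']
                  congr 1
                  omega
          · have : i = n := by omega
            subst this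
            rw [hPn1, norm_zero, mul_zero]
            positivity
    · intro i hi
      -- the common estimate
      have hterm : ∀ k ≤ n, ‖α 0 * P.coeff k - β 0 * Q.coeff k‖ < r ^ (n + 1 - k) := by
        intro k hk
        have e : α 0 * P.coeff k - β 0 * Q.coeff k =
            (α 0 - β 0) * P.coeff k + β 0 * (P.coeff k - Q.coeff k) := by ring
        rw [e]
        refine (IsUltrametricDist.norm_add_le_max _ _).trans_lt (max_lt ?_ ?_)
        · rw [norm_mul]
          have h1 := ih1 k hk
          calc ‖α 0 - β 0‖ * ‖P.coeff k‖ ≤ ‖α 0 - β 0‖ * r ^ (n - k) := by gcongr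
            _ < r * r ^ (n - k) := by
                have := hαβ 0
                gcongr
            _ = r ^ (n + 1 - k) := by
                rw [← pow_succ']
                congr 1
                omega
        · rw [norm_mul]
          rcases Nat.lt_or_ge k n with h | h
          · have h1 := ih2 k h
            calc ‖β 0‖ * ‖P.coeff k - Q.coeff k‖ ≤ r * ‖P.coeff k - Q.coeff k‖ := by
                  have := hβ 0
                  gcongr
              _ < r * r ^ (n - k) := by gcongr
              _ = r ^ (n + 1 - k) := by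
                  rw [← pow_succ']
                  congr 1
                  omega
          · have : k = n := by omega
            subst this
            rw [hPn, hQn, sub_self, norm_zero, mul_zero]
            positivity
      rcases i with _ | i
      · rw [hc0, hc0]
        have := hterm 0 (Nat.zero_le _)
        rw [← norm_neg]
        have e : -(-(α 0 * P.coeff 0) - -(β 0 * Q.coeff 0)) = α 0 * P.coeff 0 - β 0 * Q.coeff 0 := by
          ring
        rw [e]
        exact this
      · rw [hcs, hcs]
        have e : P.coeff i - α 0 * P.coeff (i + 1) - (Q.coeff i - β 0 * Q.coeff (i + 1)) =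
            (P.coeff i - Q.coeff i) - (α 0 * P.coeff (i + 1) - β 0 * Q.coeff (i + 1)) := by ring
        rw [e, sub_eq_add_neg]
        refine (IsUltrametricDist.norm_add_le_max _ _).trans_lt (max_lt ?_ ?_)
        · have := ih2 i (by omega)
          rwa [show n + 1 - (i + 1) = n - i by omega]
        · rw [norm_neg]
          exact hterm (i + 1) (by omega)

end products

section local_nonsplit

variable {K : Type} [Field K] [NumberField K]

/-- Discreteness of the local invariant. -/
lemma log_two_le {v : FinitePlace K} {f : K[X]} {d : ℕ} (hd : f.natDegree = d) (hd2 : 2 ≤ d)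
    {t : K} {r : ℝ} (hr : 0 < r) (hrA : 1 < r * Aof v f) {i : ℕ} (hi : i < d)
    (hieq : v ((conjPoly f 1 t).coeff i) = v f.leadingCoeff * r ^ (d - i)) :
    Real.log 2 / d ^ 2 ≤ Real.log (r * Aof v f) := by
  have hf0 : f ≠ 0 := by
    rintro rfl
    rw [natDegree_zero] at hd
    omega
  have hlcpos : 0 < v f.leadingCoeff := FinitePlace.pos_iff.mpr (leadingCoeff_ne_zero.mpr hf0)
  set A : ℝ := Aof v f with hA
  have hApos : 0 < A := Aof_pos hlcpos
  have hApow : A ^ (d - 1) = v f.leadingCoeff := by
    rw [← hd]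
    exact Aof_pow hlcpos (by omega)
  have hcne : (conjPoly f 1 t).coeff i ≠ 0 := by
    intro h
    rw [h, map_zero] at hieq
    have : 0 < v f.leadingCoeff * r ^ (d - i) := by positivity
    linarith
  obtain ⟨k, hk⟩ := exists_zpow v hcne
  obtain ⟨l, hl⟩ := exists_zpow v (leadingCoeff_ne_zero.mpr hf0)
  have hq := one_lt_qv v
  have hq0 := qv_pos v
  have h1 : (r * A) ^ ((d - i) * (d - 1)) =
      (qv v : ℝ) ^ ((k - l) * ((d - 1 : ℕ) : ℤ) + l * ((d - i : ℕ) : ℤ)) := by
    have e1 : r ^ (d - i) = (qv v : ℝ) ^ (k - l) := by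
      rw [zpow_sub₀ hq0.ne', ← hk, ← hl, eq_div_iff hlcpos.ne']
      rw [hieq, mul_comm]
    have e2 : A ^ (d - 1) = (qv v : ℝ) ^ l := by rw [hApow, hl]
    rw [mul_pow, pow_mul, e1, mul_comm (d - i) (d - 1), pow_mul, e2, zpow_add₀ hq0.ne',
      zpow_mul, zpow_mul, zpow_natCast, zpow_natCast]
  have h2 : 1 < (r * A) ^ ((d - i) * (d - 1)) := by
    apply one_lt_pow₀ hrA
    have h3 : 0 < (d - i) * (d - 1) := Nat.mul_pos (by omega) (by omega)
    omega
  rw [h1] at h2
  have h3 := le_of_one_lt_zpow hq h2
  rw [← h1] at h3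
  have h4 : (2 : ℝ) ≤ (r * A) ^ ((d - i) * (d - 1)) := by
    refine le_trans ?_ h3
    exact_mod_cast two_le_qv v
  have h5 := Real.log_le_log (by norm_num) h4
  rw [Real.log_pow] at h5
  have h6 : (((d - i) * (d - 1) : ℕ) : ℝ) ≤ (d : ℝ) ^ 2 := by
    rw [sq]
    exact_mod_cast Nat.mul_le_mul (Nat.sub_le d i) (Nat.sub_le d 1)
  have hd0 : (0 : ℝ) < d := by exact_mod_cast (by omega : 0 < d)
  have hlog : 0 < Real.log (r * A) := Real.log_pos hrA
  rw [div_le_iff₀ (by positivity)]
  calc Real.log 2 ≤ (((d - i) * (d - 1) : ℕ) : ℝ) * Real.log (r * A) := h5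
    _ ≤ (d : ℝ) ^ 2 * Real.log (r * A) := by gcongr
    _ = Real.log (r * A) * (d : ℝ) ^ 2 := mul_comm _ _

open Classical in
/-- Energy gain at a place of nonsplit reduction. -/
theorem nonsplit_gain (v : FinitePlace K) {f : K[X]} {d : ℕ} (hd : f.natDegree = d)
    (hd2 : 2 ≤ d) (hns : Nonsplit v f) (Z : Finset K)
    (hX : ∀ x ∈ Z, Preper (fun z => f.eval z) x) :
    ∃ h : ℝ, Real.log 2 / d ^ 2 ≤ h ∧ localWeight v f ≤ ((d - 1 : ℕ) : ℝ) * h ∧
      ∀ Y ⊆ Z, logEnergy v (Aof v f) Y ≤ h *
          (- (Y.card : ℝ) ^ 2 / (4 * d ^ 2) + 7 * d * Y.card) := by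
  obtain ⟨t, r, hE, hE1, hE2⟩ := hns
  obtain ⟨L, _, _, _, ι, hι⟩ := exists_ultra_field v
  obtain ⟨c, hc⟩ := exists_one_lt v
  have hc0 : 1 < ‖ι c‖ := by rw [hι]; exact hc
  have hf0 : f ≠ 0 := by
    rintro rfl
    rw [natDegree_zero] at hd
    omega
  have hlcpos : 0 < v f.leadingCoeff := v_pos hι (leadingCoeff_ne_zero.mpr hf0)
  set A : ℝ := Aof v f with hA
  have hApos : 0 < A := Aof_pos hlcpos
  have hApow : A ^ (d - 1) = v f.leadingCoeff := by
    rw [← hd]
    exact Aof_pow hlcpos (by omega)
  set g : L[X] := (conjPoly f 1 t).map ι with hg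
  have hgd : g.natDegree = d := by rw [hg, map_natDegree one_ne_zero, hd]
  have hglc : ‖g.leadingCoeff‖ = v f.leadingCoeff := by
    rw [hg, map_leadingCoeff_norm hι (by omega) one_ne_zero]
    simp
  have hglc' : g.leadingCoeff = ι f.leadingCoeff := by
    rw [hg, leadingCoeff_map, leadingCoeff_conjPoly (by omega) one_ne_zero]
    simp
  have hr : IsRadius g r := (escapeDisc_iff hι (by omega) t r).mp hE
  have hrpos := hr.pos
  have hAa : A ^ (g.natDegree - 1) = ‖g.leadingCoeff‖ := by rw [hgd, hApow, hglc]
  have hrA : 1 < r * A := by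
    by_contra hle
    push Not at hle
    have h1 : (r * A) ^ (d - 1) ≤ 1 := pow_le_one₀ (by positivity) hle
    rw [mul_pow, hApow, mul_comm, ← hd] at h1
    linarith
  -- exactness
  obtain ⟨i, hi, hieq⟩ : ∃ i < d, v ((conjPoly f 1 t).coeff i) =
      v f.leadingCoeff * r ^ (d - i) := by
    by_contra hcon
    push Not at hcon
    apply hE2
    refine ⟨fun _ => 0, fun i hi => ?_⟩
    have h1 : (∏ _j : Fin f.natDegree, (X - C (0 : K))).coeff i = 0 := by
      rw [C_0, sub_zero, Finset.prod_const, Finset.card_univ, Fintype.card_fin, coeff_X_pow,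
        if_neg (by omega)]
    rw [h1, sub_zero, map_div₀, div_lt_iff₀ hlcpos]
    have h2 := hE.2.2 i hi
    have h3 := hcon i (by omega)
    rw [← hd] at h3
    rw [mul_comm]
    exact lt_of_le_of_ne h2 h3
  -- a root far away from `K`
  obtain ⟨α, hα0, hαK⟩ : ∃ α : L, g.eval α = 0 ∧ ∀ x : K, r ≤ ‖ι x - α‖ := by
    by_contra hcon
    push Not at hcon
    have hg0 : g ≠ 0 := by
      rintro h
      rw [h, natDegree_zero] at hgd
      omega
    have hcard : g.roots.card = g.natDegree := IsAlgClosed.card_roots_eq_natDegree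
    obtain ⟨l, hl⟩ := Quot.exists_rep g.roots
    have hl' : (l : Multiset L) = g.roots := hl
    have hll : l.length = f.natDegree := by
      rw [← Multiset.coe_card, hl', hcard, hgd, hd]
    have hroot : ∀ j : Fin f.natDegree, g.eval (l.get (j.cast hll.symm)) = 0 := by
      intro j
      have h1 : l.get (j.cast hll.symm) ∈ g.roots := by
        rw [← hl', Multiset.mem_coe]
        exact List.get_mem _ _
      rw [mem_roots hg0] at h1
      exact h1
    choose x hx using fun j => hcon _ (hroot j)
    apply hE2
    refine ⟨x, fun i hi => ?_⟩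
    set a : Fin f.natDegree → L := fun j => l.get (j.cast hll.symm) with ha
    have ha0 : ∀ j, ‖a j‖ ≤ r := by
      intro j
      by_contra hlt
      push Not at hlt
      have h1 := hr.lt_norm_eval (by omega) hlt
      rw [ha] at h1
      simp only at h1
      rw [hroot j, norm_zero] at h1
      have := norm_nonneg (l.get (j.cast hll.symm))
      linarith
    have hxa : ∀ j, ‖a j - ι (x j)‖ < r := by
      intro j
      rw [norm_sub_rev]
      exact hx j
    have hx0 : ∀ j, ‖ι (x j)‖ ≤ r := by
      intro j
      have : ι (x j) = a j - (a j - ι (x j)) := by ring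
      rw [this, sub_eq_add_neg]
      refine (IsUltrametricDist.norm_add_le_max _ _).trans (max_le (ha0 j) ?_)
      rw [norm_neg]
      exact (hxa j).le
    have h2 := (coeff_prod_close hrpos f.natDegree a (fun j => ι (x j)) ha0 hx0 hxa).2 i hi
    have h3 : (∏ j, (X - C (a j))) = (g.roots.map (fun b => X - C b)).prod := by
      rw [← hl', Multiset.map_coe, Multiset.prod_coe, ← List.prod_ofFn]
      congr 1
      apply List.ext_get
      · simp [hll]
      · intro n h1 h2
        simp [ha]
    have h4 : g = C g.leadingCoeff * (g.roots.map (fun b => X - C b)).prod :=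
      (C_leadingCoeff_mul_prod_multiset_X_sub_C hcard).symm
    have h5 : ι ((conjPoly f 1 t).coeff i / f.leadingCoeff) = (∏ j, (X - C (a j))).coeff i := by
      rw [h3, map_div₀, ← coeff_map, ← hg]
      conv_lhs => rw [h4]
      rw [coeff_C_mul, hglc', mul_div_cancel_left₀]
      simpa using hf0
    have h6 : ι ((∏ j, (X - C (x j))).coeff i) = (∏ j, (X - C (ι (x j)))).coeff i := by
      rw [← coeff_map, Polynomial.map_prod]
      simp
    rw [← hι, map_sub, h5, h6]
    exact h2
  refine ⟨Real.log (r * A), log_two_le hd hd2 hrpos hrA hi hieq, ?_, ?_⟩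
  · have h1 := localWeight_le hE
    rw [log_weight_eq hlcpos (by omega), hd] at h1
    exact h1
  intro Y hYX
  set σ : K → L := fun x => ι (1 * (x - t)) with hσ
  have hσinj : Function.Injective σ := sigma_injective one_ne_zero t
  have hσd : ∀ x y, ‖σ x - σ y‖ = 1 * v (x - y) := by
    intro x y
    rw [hσ]
    simp only
    rw [sigma_sub (v := v) hι]
    simp
  have hen : logEnergy (fun x => ‖x‖) A (Y.image σ) = logEnergy v A Y := by
    rw [logEnergy_image hσd hσinj, one_mul]
  have h1 := ultra_gap hc0 (g := g) (by omega) hApos hAa hr hrA (Y.image σ) (fun x hx j => by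
    obtain ⟨y, hy, rfl⟩ := Finset.mem_image.mp hx
    exact hr.preper_le (by omega) (((hX y (hYX hy)).transport one_ne_zero t).iterate j))
    (z := α) (by rw [hα0, norm_zero]; exact hrpos.le) (fun x hx => by
    obtain ⟨y, hy, rfl⟩ := Finset.mem_image.mp hx
    exact hαK _)
  rw [hen, Finset.card_image_of_injective Y hσinj, hgd] at h1
  exact h1

end local_nonsplit

end Pool.Agent.UBC90787a
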