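import Pool.Agent.Lib.MP_90787a_nt.Engine
import Pool.Agent.Lib.MP_90787a_nt.LocalNonsplit

set_option autoImplicit false
set_option linter.unusedSectionVars false

/-!
The three main theorems.
-/

namespace Pool.Agent.UBC90787a

open Polynomial Finset NumberField

section good

variable {K : Type} [Field K] [NumberField K]

/-- Potentially good reduction makes the local weight vanish. -/
lemma localWeight_of_potGood {v : FinitePlace K} {f : K[X]} {d : ℕ} (hd : f.natDegree = d)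
    (hd2 : 2 ≤ d) (hgood : PotGood v f) : localWeight v f ≤ 0 := by
  have hf0 : f ≠ 0 := by
    rintro rfl
    rw [natDegree_zero] at hd
    omega
  have hlcpos : 0 < v f.leadingCoeff := FinitePlace.pos_iff.mpr (leadingCoeff_ne_zero.mpr hf0)
  set A : ℝ := Aof v f with hA
  have hApos : 0 < A := Aof_pos hlcpos
  have hApow : A ^ (d - 1) = v f.leadingCoeff := by
    rw [← hd]
    exact Aof_pow hlcpos (by omega)
  obtain ⟨t, ht⟩ := hgood
  have hE : EscapeDisc v f t A⁻¹ := by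
    refine ⟨by positivity, ?_, ?_⟩
    · rw [← hApow, hd, ← mul_pow, mul_inv_cancel₀ hApos.ne', one_pow]
    · intro i hi
      have h1 := ht i hi
      rw [hd, ← hApow] at h1
      rw [hd, ← hApow]
      have h2 : (v ((conjPoly f 1 t).coeff i) * A) ^ (d - 1) ≤ (A ^ i) ^ (d - 1) := by
        rw [mul_pow, ← pow_mul, mul_comm i, pow_mul]
        exact h1
      have h3 : v ((conjPoly f 1 t).coeff i) * A ≤ A ^ i :=
        le_of_pow_le_pow_left₀ (by omega) (by positivity) h2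
      have h4 : A ^ (d - 1) * (A⁻¹) ^ (d - i) * A = A ^ i := by
        have e1 : d - 1 + 1 = (d - i) + i := by omega
        calc A ^ (d - 1) * (A⁻¹) ^ (d - i) * A = A ^ (d - 1 + 1) * (A⁻¹) ^ (d - i) := by
              rw [pow_succ]; ring
          _ = A ^ i * (A ^ (d - i) * (A⁻¹) ^ (d - i)) := by rw [e1, pow_add]; ring
          _ = A ^ i := by rw [← mul_pow, mul_inv_cancel₀ hApos.ne', one_pow, mul_one]
      rw [← h4] at h3
      exact le_of_mul_le_mul_right h3 hApos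
  have h1 := localWeight_le hE
  rw [hd, ← hApow, ← mul_pow, mul_inv_cancel₀ hApos.ne', one_pow, Real.log_one] at h1
  exact h1

lemma log_qv_ge (v : FinitePlace K) {d : ℕ} (hd2 : 2 ≤ d) :
    Real.log 2 / (d : ℝ) ^ 2 ≤ Real.log (qv v) := by
  have h1 : (2 : ℝ) ≤ qv v := by exact_mod_cast two_le_qv v
  have h2 : Real.log 2 ≤ Real.log (qv v) := Real.log_le_log (by norm_num) h1
  have h3 : (2 : ℝ) ≤ d := by exact_mod_cast hd2
  have h4 : (1 : ℝ) ≤ (d : ℝ) ^ 2 := by nlinarith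
  have h5 : 0 ≤ Real.log 2 := Real.log_nonneg (by norm_num)
  exact (div_le_self h5 h4).trans h2

end good

lemma log_card_mono {D C : ℝ} (_hC : 0 ≤ C) {s t : ℕ} (hst : s ≤ t)
    (h : D ≤ C * (s + 1) * Real.log (s + 2)) : D ≤ C * (t + 1) * Real.log (t + 2) := by
  refine h.trans ?_
  have h1 : (s : ℝ) ≤ t := by exact_mod_cast hst
  have h2 : (0 : ℝ) ≤ s := Nat.cast_nonneg s
  have h3 : Real.log ((s : ℝ) + 2) ≤ Real.log ((t : ℝ) + 2) :=
    Real.log_le_log (by positivity) (by linarith)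
  have h4 : 0 ≤ Real.log ((s : ℝ) + 2) := Real.log_nonneg (by linarith)
  gcongr

open Classical in
/-- Effective support. -/
theorem main_support (D d : ℕ) (hD : 1 ≤ D) (hd2 : 2 ≤ d) (σ : ℝ) : ∃ C : ℝ,
    ∀ (K : Type) [Field K] [NumberField K], Module.finrank ℚ K = D →
      ∀ f : K[X], f.natDegree = d → ∀ S : Finset (FinitePlace K),
      (∀ U : Finset (FinitePlace K), Disjoint U S →
        ∑ v ∈ U, localWeight v f ≤ σ * (1 + ∑ v ∈ S, localWeight v f +
          ∑ w : InfinitePlace K, (w.mult : ℝ) * localWeight w f)) →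
      ∀ Z : Finset K, (∀ x ∈ Z, Preper (fun z => f.eval z) x) →
      (Z.card : ℝ) ≤ C * (S.card + 1) * Real.log (S.card + 2) := by
  obtain ⟨C, _, hC⟩ := engine D d hD hd2 (δ := 1) (C0 := 0) (κ := |σ|) one_pos le_rfl
    (abs_nonneg σ)
  refine ⟨C, ?_⟩
  intro K _ _ hK f hf S hU Z hZ
  refine hC K hK f hf S ∅ (Finset.disjoint_empty_right S) Z hZ (fun _ => 0)
    (fun v hv => absurd hv (Finset.notMem_empty _))
    (fun v hv => absurd hv (Finset.notMem_empty _)) ?_
  intro U hUS _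
  refine (hU U hUS).trans ?_
  rw [Finset.sum_empty, add_zero]
  have h1 : 0 ≤ ∑ v ∈ S, localWeight v f := Finset.sum_nonneg (fun _ _ => localWeight_nonneg)
  have h2 : 0 ≤ ∑ w : InfinitePlace K, (w.mult : ℝ) * localWeight w f :=
    Finset.sum_nonneg (fun w _ => by
      have h3 : 0 ≤ localWeight w f := localWeight_nonneg
      positivity)
  have h4 := le_abs_self σ
  gcongr

open Classical in
/-- Integral models. -/
theorem main_integral (D d m : ℕ) (hD : 1 ≤ D) (hd2 : 2 ≤ d) (σ : ℝ) : ∃ C : ℝ,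
    ∀ (K : Type) [Field K] [NumberField K], Module.finrank ℚ K = D →
      ∀ f : K[X], f.natDegree = d → ∀ S T : Finset (FinitePlace K),
      (∀ v ∈ T, 0 < localWeight v f ∧ IntegralModel v f m) →
      (∀ U : Finset (FinitePlace K), Disjoint U S → Disjoint U T →
        ∑ v ∈ U, localWeight v f ≤ σ * (1 + ∑ v ∈ T, Real.log (qv v))) →
      ∀ Z : Finset K, (∀ x ∈ Z, Preper (fun z => f.eval z) x) →
      (Z.card : ℝ) ≤ C * (S.card + 1) * Real.log (S.card + 2) := by
  obtain ⟨δ, C0, hδ, hC0, hgain⟩ := int_gain d m hd2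
  obtain ⟨C, hCn, hC⟩ := engine D d hD hd2 (δ := δ) (C0 := C0) (κ := |σ|) hδ hC0
    (abs_nonneg σ)
  refine ⟨C, ?_⟩
  intro K _ _ hK f hf S T hT hU Z hZ
  have hcard : (S \ T).card ≤ S.card := Finset.card_le_card Finset.sdiff_subset
  refine log_card_mono hCn hcard ?_
  refine hC K hK f hf (S \ T) T Finset.sdiff_disjoint Z hZ (fun v => Real.log (qv v))
    (fun v _ => log_qv_ge v hd2) ?_ ?_
  · intro v hv Y hY
    obtain ⟨h1, s, t, hs, h2, h3⟩ := hT v hv
    rcases hgain K v hf Z hZ hs h2 h3 with ⟨r, hr1, hr2, hr3⟩ | h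
    · exfalso
      have h4 := localWeight_of_potGood hf hd2 (potGood_of_radius hf hd2 hs hr1 hr2 hr3)
      linarith
    · exact h Y hY
  · intro U h1 h2
    have h3 : Disjoint U S := by
      rw [Finset.disjoint_left] at h1 h2 ⊢
      intro v hv hvS
      exact h1 hv (Finset.mem_sdiff.mpr ⟨hvS, h2 hv⟩)
    refine (hU U h3 h2).trans ?_
    have h4 : 0 ≤ ∑ v ∈ S \ T, localWeight v f :=
      Finset.sum_nonneg (fun _ _ => localWeight_nonneg)
    have h5 : 0 ≤ ∑ w : InfinitePlace K, (w.mult : ℝ) * localWeight w f :=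
      Finset.sum_nonneg (fun w _ => by
        have h3 : 0 ≤ localWeight w f := localWeight_nonneg
        positivity)
    have h6 := le_abs_self σ
    have h7 : 0 ≤ ∑ v ∈ T, Real.log (qv v) := Finset.sum_nonneg (fun v _ =>
      Real.log_natCast_nonneg _)
    calc σ * (1 + ∑ v ∈ T, Real.log (qv v)) ≤ |σ| * (1 + ∑ v ∈ T, Real.log (qv v)) := by gcongr
      _ ≤ |σ| * (1 + ∑ v ∈ T, Real.log (qv v) + ∑ v ∈ S \ T, localWeight v f +
          ∑ w : InfinitePlace K, (w.mult : ℝ) * localWeight w f) := by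
          apply mul_le_mul_of_nonneg_left _ (abs_nonneg σ)
          linarith

open Classical in
/-- Nonsplit reduction. -/
theorem main_nonsplit (D d : ℕ) (hD : 1 ≤ D) (hd2 : 2 ≤ d) (σ : ℝ) : ∃ C : ℝ,
    ∀ (K : Type) [Field K] [NumberField K], Module.finrank ℚ K = D →
      ∀ f : K[X], f.natDegree = d → ∀ S T : Finset (FinitePlace K),
      (∀ v ∈ T, Nonsplit v f) →
      (∀ U : Finset (FinitePlace K), Disjoint U S → Disjoint U T →
        ∑ v ∈ U, localWeight v f ≤ σ * (1 + ∑ v ∈ T, localWeight v f)) →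
      ∀ Z : Finset K, (∀ x ∈ Z, Preper (fun z => f.eval z) x) →
      (Z.card : ℝ) ≤ C * (S.card + 1) * Real.log (S.card + 2) := by
  have hd0 : (0 : ℝ) < d := by exact_mod_cast (by omega : 0 < d)
  have hd1 : (1 : ℝ) ≤ ((d - 1 : ℕ) : ℝ) := by exact_mod_cast (by omega : 1 ≤ d - 1)
  obtain ⟨C, hCn, hC⟩ := engine D d hD hd2 (δ := 1 / (4 * (d : ℝ) ^ 2)) (C0 := 7 * d)
    (κ := |σ| * ((d - 1 : ℕ) : ℝ)) (by positivity) (by positivity) (by positivity)
  refine ⟨C, ?_⟩
  intro K _ _ hK f hf S T hT hU Z hZ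
  have hcard : (S \ T).card ≤ S.card := Finset.card_le_card Finset.sdiff_subset
  refine log_card_mono hCn hcard ?_
  have hex : ∀ v : FinitePlace K, ∃ h : ℝ, v ∈ T → (Real.log 2 / d ^ 2 ≤ h ∧
      localWeight v f ≤ ((d - 1 : ℕ) : ℝ) * h ∧
      ∀ Y ⊆ Z, logEnergy v (Aof v f) Y ≤ h *
          (- (Y.card : ℝ) ^ 2 / (4 * d ^ 2) + 7 * d * Y.card)) := by
    intro v
    by_cases hv : v ∈ T
    · obtain ⟨h, h1⟩ := nonsplit_gain v hf hd2 (hT v hv) Z hZ
      exact ⟨h, fun _ => h1⟩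
    · exact ⟨0, fun h => absurd h hv⟩
  choose h hh using hex
  refine hC K hK f hf (S \ T) T Finset.sdiff_disjoint Z hZ h
    (fun v hv => (hh v hv).1) ?_ ?_
  · intro v hv Y hY
    refine ((hh v hv).2.2 Y hY).trans (le_of_eq ?_)
    ring
  · intro U h1 h2
    have h3 : Disjoint U S := by
      rw [Finset.disjoint_left] at h1 h2 ⊢
      intro v hv hvS
      exact h1 hv (Finset.mem_sdiff.mpr ⟨hvS, h2 hv⟩)
    refine (hU U h3 h2).trans ?_
    have h4 : 0 ≤ ∑ v ∈ S \ T, localWeight v f :=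
      Finset.sum_nonneg (fun _ _ => localWeight_nonneg)
    have h5 : 0 ≤ ∑ w : InfinitePlace K, (w.mult : ℝ) * localWeight w f :=
      Finset.sum_nonneg (fun w _ => by
        have h3 : 0 ≤ localWeight w f := localWeight_nonneg
        positivity)
    have h6 := le_abs_self σ
    have h7 : 0 ≤ ∑ v ∈ T, localWeight v f := Finset.sum_nonneg (fun _ _ => localWeight_nonneg)
    have h8 : ∑ v ∈ T, localWeight v f ≤ ((d - 1 : ℕ) : ℝ) * ∑ v ∈ T, h v := by
      rw [Finset.mul_sum]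
      exact Finset.sum_le_sum (fun v hv => (hh v hv).2.1)
    have h9 : 1 + ∑ v ∈ T, localWeight v f ≤ ((d - 1 : ℕ) : ℝ) * (1 + ∑ v ∈ T, h v) := by
      linarith
    have h10 : 0 ≤ |σ| * ((d - 1 : ℕ) : ℝ) := by positivity
    calc σ * (1 + ∑ v ∈ T, localWeight v f) ≤ |σ| * (1 + ∑ v ∈ T, localWeight v f) := by gcongr
      _ ≤ |σ| * (((d - 1 : ℕ) : ℝ) * (1 + ∑ v ∈ T, h v)) := by
          have := abs_nonneg σ
          gcongr
      _ = |σ| * ((d - 1 : ℕ) : ℝ) * (1 + ∑ v ∈ T, h v) := by ring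
      _ ≤ |σ| * ((d - 1 : ℕ) : ℝ) * (1 + ∑ v ∈ T, h v + ∑ v ∈ S \ T, localWeight v f +
          ∑ w : InfinitePlace K, (w.mult : ℝ) * localWeight w f) := by
          apply mul_le_mul_of_nonneg_left _ h10
          linarith

end Pool.Agent.UBC90787a
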