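import Pool.Agent.Lib.MP_90787a_nt.LocalEnergy

set_option autoImplicit false
set_option linter.unusedSectionVars false

/-!
Auxiliary points of prescribed size, location of preimages, and the gap estimate.
-/

namespace Pool.Agent.UBC90787a

open Polynomial Finset

section points

variable {L : Type*} [NormedField L] [IsUltrametricDist L] [IsAlgClosed L]

lemma exists_points {c0 : L} (hc0 : 1 < ‖c0‖) {r κ : ℝ} (hr : 0 < r) (hκ : 1 < κ) (T : ℕ) :
    ∃ w : Fin T → L, (∀ k, r < ‖w k‖) ∧ (∀ k, ‖w k‖ ≤ r * κ) ∧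
      ∀ k l, k ≠ l → r ≤ ‖w k - w l‖ := by
  obtain ⟨n0, hn0⟩ := (pow_unbounded_of_one_lt (‖c0‖ ^ T) hκ)
  obtain ⟨u, hu⟩ := IsAlgClosed.exists_pow_nat_eq c0 (Nat.succ_pos n0)
  have hun : ‖u‖ ^ (n0 + 1) = ‖c0‖ := by rw [← norm_pow, hu]
  have hu1 : 1 < ‖u‖ := by
    by_contra h
    push Not at h
    have : ‖u‖ ^ (n0 + 1) ≤ 1 := pow_le_one₀ (norm_nonneg _) h
    rw [hun] at this
    linarith
  have huT : ‖u‖ ^ T ≤ κ := by
    have h1 : (‖u‖ ^ T) ^ (n0 + 1) ≤ κ ^ (n0 + 1) := by
      rw [← pow_mul, mul_comm, pow_mul, hun]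
      refine hn0.le.trans ?_
      exact pow_le_pow_right₀ hκ.le (Nat.le_succ _)
    exact le_of_pow_le_pow_left₀ (Nat.succ_ne_zero n0) (by linarith) h1
  obtain ⟨j, hj1, hj2⟩ := exists_mem_Ico_zpow hr hu1
  have hu0 : u ≠ 0 := by
    rintro rfl
    simp at hu1
    linarith
  have hunpos : 0 < ‖u‖ := by linarith
  have hnorm : ∀ k : Fin T, ‖u ^ (j + 1 + (k : ℕ))‖ = ‖u‖ ^ (j + 1) * ‖u‖ ^ (k : ℕ) := by
    intro k
    rw [norm_zpow, zpow_add₀ hunpos.ne', zpow_natCast]
  refine ⟨fun k => u ^ (j + 1 + (k : ℕ)), ?_, ?_, ?_⟩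
  · intro k
    rw [hnorm]
    exact hj2.trans_le (le_mul_of_one_le_right (by positivity) (one_le_pow₀ hu1.le))
  · intro k
    rw [hnorm, zpow_add₀ hunpos.ne', zpow_one, mul_assoc, ← pow_succ']
    have h1 : ‖u‖ ^ ((k : ℕ) + 1) ≤ ‖u‖ ^ T := pow_le_pow_right₀ hu1.le k.2
    exact mul_le_mul hj1 (h1.trans huT) (by positivity) hr.le
  · intro k l hkl
    have hne : ‖u ^ (j + 1 + (k : ℕ))‖ ≠ ‖u ^ (j + 1 + (l : ℕ))‖ := by
      rw [hnorm, hnorm]
      intro h
      have h2 := mul_left_cancel₀ (by positivity) h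
      have h3 := pow_right_injective₀ hunpos hu1.ne' h2
      exact hkl (Fin.ext h3)
    have h4 : ‖u ^ (j + 1 + (k : ℕ)) - u ^ (j + 1 + (l : ℕ))‖ =
        max ‖u ^ (j + 1 + (k : ℕ))‖ ‖u ^ (j + 1 + (l : ℕ))‖ := by
      rw [sub_eq_add_neg, IsUltrametricDist.norm_add_eq_max_of_norm_ne_norm, norm_neg]
      rwa [norm_neg]
    show r ≤ ‖u ^ (j + 1 + (k : ℕ)) - u ^ (j + 1 + (l : ℕ))‖
    rw [h4, hnorm]
    refine le_max_of_le_left ?_
    exact hj2.le.trans (le_mul_of_one_le_right (by positivity) (one_le_pow₀ hu1.le))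

/-- All preimages of a moderately large point are in the disc of radius `r`. -/
lemma norm_preim_le {g : L[X]} (hd2 : 2 ≤ g.natDegree) {A r : ℝ} (hA : 0 < A)
    (hAa : A ^ (g.natDegree - 1) = ‖g.leadingCoeff‖) (hr : IsRadius g r) {w : L}
    (hw : ‖w‖ * A ≤ (r * A) ^ g.natDegree) (n : ℕ) :
    ∀ y ∈ preim g w (n + 1), ‖y‖ ≤ r := by
  have hrpos := hr.pos
  induction n with
  | zero =>
    intro y hy
    rw [preim_succ, preim_zero, Multiset.singleton_bind] at hy
    have h1 := eval_of_mem_roots (by omega) hy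
    by_contra hlt
    push Not at hlt
    have h2 := hr.norm_eval_eq hlt
    rw [h1] at h2
    rw [h2, ← hAa] at hw
    have h3 : A ^ (g.natDegree - 1) * ‖y‖ ^ g.natDegree * A = (‖y‖ * A) ^ g.natDegree := by
      obtain ⟨e, he⟩ : ∃ e, g.natDegree = e + 1 := ⟨g.natDegree - 1, by omega⟩
      rw [he]
      simp only [Nat.add_sub_cancel]
      ring
    rw [h3] at hw
    have h4 : (r * A) ^ g.natDegree < (‖y‖ * A) ^ g.natDegree :=
      pow_lt_pow_left₀ (by gcongr) (by positivity) (by omega)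
    linarith
  | succ n ih =>
    intro y hy
    rw [preim_succ, Multiset.mem_bind] at hy
    obtain ⟨z, hz, hyz⟩ := hy
    have h1 := eval_of_mem_roots (by omega) hyz
    have h2 := ih z hz
    by_contra hlt
    push Not at hlt
    have h3 := hr.lt_norm_eval hd2 hlt
    rw [h1] at h3
    linarith

open Classical in
/-- Discs around any point mapped into the big disc catch a fixed proportion of preimages. -/
lemma count_preim_ge {g : L[X]} (hd2 : 2 ≤ g.natDegree) {A r : ℝ} (hA : 0 < A)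
    (hAa : A ^ (g.natDegree - 1) = ‖g.leadingCoeff‖) (hr : IsRadius g r) {w : L}
    (hw : ‖w‖ * A ≤ (r * A) ^ g.natDegree) {z : L} (hz : ‖g.eval z‖ ≤ r) {ρ : ℝ} (hρ : 0 < ρ)
    (hρA : r * A ≤ (ρ * A) ^ g.natDegree) (n : ℕ) :
    g.natDegree ^ (n + 1) ≤ Multiset.countP (fun b => ‖b - z‖ ≤ ρ) (preim g w (n + 2)) := by
  have hrpos := hr.pos
  rw [countP_preim_succ]
  have hcard : g.natDegree ^ (n + 1) =
      Multiset.countP (fun _ => True) (preim g w (n + 1)) := by
    rw [Multiset.countP_True, card_preim]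
  rw [hcard]
  refine countP_le_sum_map _ _ _ (fun y hy _ => ?_)
  rw [Nat.one_le_iff_ne_zero, Ne, Multiset.countP_eq_zero]
  push Not
  by_contra hcon
  push Not at hcon
  have h1 := norm_eval_sub_eq (g := g) (by omega) z y
  have h2 : ‖g.eval z - y‖ ≤ r := by
    rw [sub_eq_add_neg]
    refine (IsUltrametricDist.norm_add_le_max _ _).trans (max_le hz ?_)
    rw [norm_neg]
    exact norm_preim_le hd2 hA hAa hr hw n y hy
  have h3 : ρ ^ g.natDegree < ((g - C y).roots.map (fun b => ‖z - b‖)).prod := by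
    rw [← roots_sub_card g y]
    have hne : (g - C y).roots.card ≠ 0 := by
      rw [roots_sub_card]; omega
    revert hcon hne
    generalize (g - C y).roots = s
    induction s using Multiset.induction_on with
    | empty => intro _ h; simp at h
    | cons a s ih =>
      intro hs _
      rw [Multiset.card_cons, pow_succ, Multiset.map_cons, Multiset.prod_cons, mul_comm]
      have ha : ρ < ‖z - a‖ := by
        rw [norm_sub_rev]
        exact hs a (Multiset.mem_cons_self a s)
      rcases eq_or_ne s.card 0 with h0 | h0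
      · rw [Multiset.card_eq_zero] at h0
        subst h0
        simpa using ha
      · have ih' := ih (fun b hb => hs b (Multiset.mem_cons_of_mem hb)) h0
        have : 0 < ρ ^ s.card := by positivity
        exact mul_lt_mul ha ih'.le this (by positivity)
  have h4 : r < ‖g.eval z - y‖ := by
    rw [h1, ← hAa]
    have h5 : A ^ (g.natDegree - 1) * ρ ^ g.natDegree = (ρ * A) ^ g.natDegree / A := by
      obtain ⟨e, he⟩ : ∃ e, g.natDegree = e + 1 := ⟨g.natDegree - 1, by omega⟩
      rw [he]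
      simp only [Nat.add_sub_cancel]
      field_simp
      ring
    calc r = (r * A) / A := by field_simp
      _ ≤ (ρ * A) ^ g.natDegree / A := by gcongr
      _ = A ^ (g.natDegree - 1) * ρ ^ g.natDegree := h5.symm
      _ < A ^ (g.natDegree - 1) * ((g - C y).roots.map (fun b => ‖z - b‖)).prod := by gcongr
  linarith

open Classical in
/-- Energy gain when a set avoids an open disc of radius `r` around a point of the big disc that
is mapped into the big disc. -/
theorem ultra_gap {c0 : L} (hc0 : 1 < ‖c0‖) {g : L[X]} (hd2 : 2 ≤ g.natDegree) {A r : ℝ}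
    (hA : 0 < A) (hAa : A ^ (g.natDegree - 1) = ‖g.leadingCoeff‖) (hr : IsRadius g r)
    (hrA : 1 < r * A) (Y : Finset L) (hY : ∀ x ∈ Y, ∀ j, ‖(fun z => g.eval z)^[j] x‖ ≤ r)
    {z : L} (hz : ‖g.eval z‖ ≤ r) (hgap : ∀ x ∈ Y, r ≤ ‖x - z‖) :
    logEnergy (fun x => ‖x‖) A Y ≤ Real.log (r * A) *
      (- (Y.card : ℝ) ^ 2 / (4 * g.natDegree ^ 2) + 7 * g.natDegree * Y.card) := by
  rcases Finset.eq_empty_or_nonempty Y with rfl | hYne
  · simp [logEnergy]
  have hrpos := hr.pos
  set d : ℕ := g.natDegree with hd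
  set lam : ℝ := Real.log (r * A) with hlam
  have hlampos : 0 < lam := Real.log_pos hrA
  have hexplam : Real.exp lam = r * A := Real.exp_log (by positivity)
  have hdR : (2 : ℝ) ≤ d := by exact_mod_cast hd2
  obtain ⟨w, hw1, hw2, hw3⟩ := exists_points hc0 hrpos hrA (56 * d ^ 3)
  have hT1 : 1 ≤ 56 * d ^ 3 := by
    have : 1 ≤ d ^ 3 := Nat.one_le_pow _ _ (by omega)
    omega
  have hwA : ∀ k, ‖w k‖ * A ≤ (r * A) ^ 2 := by
    intro k
    have := hw2 k
    calc ‖w k‖ * A ≤ (r * (r * A)) * A := by gcongr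
      _ = (r * A) ^ 2 := by ring
  have hwAd : ∀ k, ‖w k‖ * A ≤ (r * A) ^ d := fun k =>
    (hwA k).trans (pow_le_pow_right₀ hrA.le hd2)
  have main := local_energy hd2 hA hAa hr Y hYne hY (E := (d - 1 : ℕ) * 7 * lam) (Λ := 2 * lam)
    7 (56 * d ^ 3) hT1 w hw1 ?_ hw3 ?_ z (a := Real.log r - lam / 2) (b := Real.log r)
    (η := 1 / d) ?_ ?_ ?_ ?_
  · refine main.trans ?_
    have hN : (0 : ℝ) < Y.card := by exact_mod_cast hYne.card_pos
    have e1 : (((d - 1 : ℕ) : ℝ)) = d - 1 := by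
      rw [Nat.cast_sub (by omega)]
      simp
    rw [e1]
    push_cast
    have hd0 : (0 : ℝ) < d := by linarith
    have i1 : 2 * (2 * lam) / (d : ℝ) ^ 7 ≤ lam / (8 * d ^ 2) := by
      rw [div_le_div_iff₀ (by positivity) (by positivity)]
      have h5 : (32 : ℝ) ≤ d ^ 5 := by
        calc (32 : ℝ) = 2 ^ 5 := by norm_num
          _ ≤ d ^ 5 := by gcongr
      calc 2 * (2 * lam) * (8 * (d : ℝ) ^ 2) = lam * d ^ 2 * 32 := by ring
        _ ≤ lam * d ^ 2 * d ^ 5 := by gcongr
        _ = lam * d ^ 7 := by ring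
    have i2 : ((d : ℝ) - 1) * 7 * lam / (56 * d ^ 3) ≤ lam / (8 * d ^ 2) := by
      rw [div_le_div_iff₀ (by positivity) (by positivity)]
      calc ((d : ℝ) - 1) * 7 * lam * (8 * d ^ 2) ≤ d * 7 * lam * (8 * d ^ 2) := by
            gcongr
            linarith
        _ = lam * (56 * d ^ 3) := by ring
    have i3 : (1 / (d : ℝ)) ^ 2 * (Real.log r - (Real.log r - lam / 2)) =
        4 * (lam / (8 * d ^ 2)) := by
      field_simp
      ring
    rw [i3]
    have i4 : 2 * (lam / (8 * (d : ℝ) ^ 2)) ≤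
        4 * (lam / (8 * (d : ℝ) ^ 2)) - 2 * (2 * lam) / (d : ℝ) ^ 7 -
          ((d : ℝ) - 1) * 7 * lam / (56 * d ^ 3) := by
      linarith
    calc -(Y.card : ℝ) ^ 2 * (4 * (lam / (8 * (d : ℝ) ^ 2)) - 2 * (2 * lam) / (d : ℝ) ^ 7 -
          ((d : ℝ) - 1) * 7 * lam / (56 * d ^ 3)) + Y.card * (((d : ℝ) - 1) * 7 * lam)
        ≤ -(Y.card : ℝ) ^ 2 * (2 * (lam / (8 * (d : ℝ) ^ 2))) +
          Y.card * (((d : ℝ)) * 7 * lam) := by
          have := mul_le_mul_of_nonneg_left i4 (sq_nonneg (Y.card : ℝ))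
          have h2 : (Y.card : ℝ) * (((d : ℝ) - 1) * 7 * lam) ≤ Y.card * (((d : ℝ)) * 7 * lam) := by
            gcongr
            linarith
          linarith
      _ = lam * (- (Y.card : ℝ) ^ 2 / (4 * d ^ 2) + 7 * d * Y.card) := by
          field_simp
          ring
  · intro k
    have hwk : 0 < ‖w k‖ := hrpos.trans (hw1 k)
    calc Real.log (‖w k‖ * A) ≤ Real.log ((r * A) ^ 2) :=
          Real.log_le_log (by positivity) (hwA k)
      _ = 2 * lam := by rw [Real.log_pow]; push_cast; rfl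
  · have : Real.exp (-(((d - 1 : ℕ) : ℝ) * 7 * lam)) * (r * A) ^ ((d - 1) * 7) = 1 := by
      rw [← hexplam, ← Real.exp_nat_mul, ← Real.exp_add]
      push_cast
      rw [Real.exp_eq_one_iff]
      ring
    rw [this]
    exact hrA.le
  · linarith
  · positivity
  · have h1 : Real.log r + Real.log A = lam := by
      rw [hlam, Real.log_mul hrpos.ne' hA.ne']
    have h2 : (0 : ℝ) ≤ ((d - 1 : ℕ) : ℝ) * 7 * lam := by positivity
    linarith
  · intro t ht
    have he : Real.exp t < r := by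
      rw [← Real.exp_log hrpos]
      exact Real.exp_lt_exp.mpr ht.2
    have hempty : Y.filter (fun x => ‖x - z‖ ≤ Real.exp t) = ∅ := by
      rw [Finset.filter_eq_empty_iff]
      intro x hx h
      have := hgap x hx
      linarith
    rw [hempty, Finset.card_empty, Nat.cast_zero, zero_div, zero_sub, abs_neg]
    have hρA : r * A ≤ (Real.exp t * A) ^ d := by
      have h1 : Real.exp (lam / 2) ≤ Real.exp t * A := by
        have : Real.exp t * A = Real.exp (t + Real.log A) := by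
          rw [Real.exp_add, Real.exp_log hA]
        rw [this]
        apply Real.exp_le_exp.mpr
        have h2 : Real.log r + Real.log A = lam := by
          rw [hlam, Real.log_mul hrpos.ne' hA.ne']
        linarith [ht.1]
      calc r * A = Real.exp lam := hexplam.symm
        _ = Real.exp (lam / 2) ^ 2 := by
            rw [← Real.exp_nat_mul]
            congr 1
            push_cast
            ring
        _ ≤ Real.exp (lam / 2) ^ d := pow_le_pow_right₀ (Real.one_le_exp (by positivity)) hd2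
        _ ≤ (Real.exp t * A) ^ d := by gcongr
    have hcnt : ∀ k, ((d : ℝ) ^ 6) ≤
        (Multiset.countP (fun b => ‖b - z‖ ≤ Real.exp t) (preim g (w k) 7) : ℝ) := by
      intro k
      have := count_preim_ge hd2 hA hAa hr (hwAd k) hz (Real.exp_pos t) hρA 5
      exact_mod_cast this
    have hsum : (((56 * d ^ 3 : ℕ) : ℝ)) * (d : ℝ) ^ 6 ≤
        ∑ k, (Multiset.countP (fun b => ‖b - z‖ ≤ Real.exp t) (preim g (w k) 7) : ℝ) := by
      have := Finset.sum_le_sum (s := (univ : Finset (Fin (56 * d ^ 3)))) (fun k _ => hcnt k)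
      rwa [Finset.sum_const, Finset.card_univ, Fintype.card_fin, nsmul_eq_mul] at this
    refine le_trans ?_ (le_abs_self _)
    have hd0 : (0 : ℝ) < d := by linarith
    have hT0 : (0 : ℝ) < ((56 * d ^ 3 : ℕ) : ℝ) := by exact_mod_cast hT1
    rw [div_le_div_iff₀ hd0 (by positivity), one_mul]
    calc (((56 * d ^ 3 : ℕ) : ℝ)) * (d : ℝ) ^ 7 = (((56 * d ^ 3 : ℕ) : ℝ)) * (d : ℝ) ^ 6 * d := by
          ring
      _ ≤ _ := by gcongr

end points

end Pool.Agent.UBC90787a
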