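import Pool.Agent.Lib.MP_90787a_nt.LocalEnergy
import Pool.Agent.Lib.MP_90787a_nt.Defs

set_option autoImplicit false
set_option linter.unusedSectionVars false

/-!
Affine changes of coordinates and embeddings.
-/

namespace Pool.Agent.UBC90787a

open Polynomial Finset

section conj

variable {K : Type*} [Field K]

lemma natDegree_affine {s : K} (hs : s ≠ 0) (t : K) :
    (C s⁻¹ * X + C t : K[X]).natDegree = 1 := by
  rw [natDegree_add_C, natDegree_C_mul (inv_ne_zero hs), natDegree_X]

lemma leadingCoeff_affine {s : K} (hs : s ≠ 0) (t : K) :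
    (C s⁻¹ * X + C t : K[X]).leadingCoeff = s⁻¹ := by
  rw [leadingCoeff, natDegree_affine hs, coeff_add, coeff_C_mul, coeff_X_one, coeff_C]
  simp

lemma natDegree_conjPoly {f : K[X]} {s : K} (hs : s ≠ 0) (t : K) :
    (conjPoly f s t).natDegree = f.natDegree := by
  unfold conjPoly
  rw [natDegree_C_mul hs, natDegree_sub_C, natDegree_comp, natDegree_affine hs, mul_one]

lemma leadingCoeff_conjPoly {f : K[X]} (hf : 1 ≤ f.natDegree) {s : K} (hs : s ≠ 0) (t : K) :
    (conjPoly f s t).leadingCoeff = f.leadingCoeff * (s⁻¹) ^ (f.natDegree - 1) := by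
  unfold conjPoly
  rw [leadingCoeff_mul, leadingCoeff_C]
  have h1 : (f.comp (C s⁻¹ * X + C t)).natDegree = f.natDegree := by
    rw [natDegree_comp, natDegree_affine hs, mul_one]
  have h2 : (f.comp (C s⁻¹ * X + C t) - C t).leadingCoeff =
      (f.comp (C s⁻¹ * X + C t)).leadingCoeff := by
    unfold leadingCoeff
    rw [natDegree_sub_C, coeff_sub, coeff_C, if_neg (by omega), sub_zero]
  rw [h2, leadingCoeff_comp (by rw [natDegree_affine hs]; omega), leadingCoeff_affine hs]
  obtain ⟨e, he⟩ : ∃ e, f.natDegree = e + 1 := ⟨f.natDegree - 1, by omega⟩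
  rw [he, Nat.add_sub_cancel, pow_succ]
  field_simp

lemma eval_conjPoly {f : K[X]} {s : K} (hs : s ≠ 0) (t x : K) :
    (conjPoly f s t).eval (s * (x - t)) = s * (f.eval x - t) := by
  unfold conjPoly
  rw [eval_mul, eval_C, eval_sub, eval_C, eval_comp, eval_add, eval_mul, eval_C, eval_X, eval_C]
  congr 3
  field_simp
  ring

lemma iterate_conjPoly {f : K[X]} {s : K} (hs : s ≠ 0) (t : K) (j : ℕ) :
    ∀ x, (fun z => (conjPoly f s t).eval z)^[j] (s * (x - t)) =
      s * ((fun z => f.eval z)^[j] x - t) := by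
  induction j with
  | zero => intro x; rfl
  | succ j ih =>
    intro x
    rw [Function.iterate_succ_apply, Function.iterate_succ_apply, eval_conjPoly hs, ih]

end conj

section embed

variable {K : Type*} [Field K] {L : Type*} [NormedField L]

lemma iterate_map (ι : K →+* L) (g : K[X]) (j : ℕ) :
    ∀ x, (fun z => (g.map ι).eval z)^[j] (ι x) = ι ((fun z => g.eval z)^[j] x) := by
  induction j with
  | zero => intro x; rfl
  | succ j ih =>
    intro x
    rw [Function.iterate_succ_apply, Function.iterate_succ_apply, eval_map_apply, ih]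

/-- Preperiodicity is preserved under the affine change of coordinates and the embedding. -/
lemma Preper.transport {ι : K →+* L} {f : K[X]} {s : K} (hs : s ≠ 0) (t : K) {x : K}
    (hx : Preper (fun z => f.eval z) x) :
    Preper (fun z => ((conjPoly f s t).map ι).eval z) (ι (s * (x - t))) := by
  obtain ⟨i, j, hij, he⟩ := hx
  refine ⟨i, j, hij, ?_⟩
  rw [iterate_map, iterate_map, iterate_conjPoly hs, iterate_conjPoly hs, he]

open Classical in
/-- Transport of the logarithmic energy. -/
lemma logEnergy_image {v : K → ℝ} {σ : K → L} {c : ℝ}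
    (hσ : ∀ x y, ‖σ x - σ y‖ = c * v (x - y)) (hinj : Function.Injective σ) (A : ℝ)
    (Y : Finset K) :
    logEnergy (fun x => ‖x‖) A (Y.image σ) = logEnergy v (c * A) Y := by
  unfold logEnergy
  symm
  refine Finset.sum_bij (fun q _ => (σ q.1, σ q.2)) ?_ ?_ ?_ ?_
  · intro q hq
    rw [Finset.mem_offDiag] at hq ⊢
    exact ⟨Finset.mem_image_of_mem _ hq.1, Finset.mem_image_of_mem _ hq.2.1,
      fun h => hq.2.2 (hinj h)⟩
  · intro q _ q' _ h
    rw [Prod.mk.injEq] at h
    exact Prod.ext (hinj h.1) (hinj h.2)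
  · intro p hp
    rw [Finset.mem_offDiag] at hp
    obtain ⟨hp1, hp2, hp3⟩ := hp
    obtain ⟨x, hx, hx'⟩ := Finset.mem_image.mp hp1
    obtain ⟨y, hy, hy'⟩ := Finset.mem_image.mp hp2
    refine ⟨(x, y), ?_, Prod.ext hx' hy'⟩
    rw [Finset.mem_offDiag]
    refine ⟨hx, hy, ?_⟩
    rintro (rfl : x = y)
    exact hp3 (hx'.symm.trans hy')
  · intro q _
    show Real.log (v (q.1 - q.2) * (c * A)) = Real.log (‖σ q.1 - σ q.2‖ * A)
    rw [hσ]
    congr 1
    ring

end embed

end Pool.Agent.UBC90787a
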