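import Mathlib

set_option autoImplicit false

/-!
Upper bounds for Vandermonde determinants from small monic polynomials.
-/

namespace Pool.Agent.UBC90787a

open Polynomial Finset

/-- The monic polynomials of degree `n` built from a monic polynomial `P` of degree `M`. -/
noncomputable def basisPoly {L : Type*} [Field L] (P : L[X]) (M n : ℕ) : L[X] :=
  P ^ (n / M) * X ^ (n % M)

lemma basisPoly_monic {L : Type*} [Field L] {P : L[X]} (hP : P.Monic) (M n : ℕ) :
    (basisPoly P M n).Monic :=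
  (hP.pow _).mul (monic_X_pow _)

lemma basisPoly_natDegree {L : Type*} [Field L] {P : L[X]} (hP : P.Monic) (n : ℕ) :
    (basisPoly P P.natDegree n).natDegree = n := by
  unfold basisPoly
  rw [(hP.pow _).natDegree_mul (monic_X_pow _), hP.natDegree_pow, natDegree_X_pow, mul_comm]
  exact Nat.div_add_mod n _

lemma norm_det_le {L : Type*} [NormedField L] {N : ℕ} (A : Matrix (Fin N) (Fin N) L)
    (B : Fin N → ℝ) (hB : ∀ i j, ‖A i j‖ ≤ B j) :
    ‖A.det‖ ≤ N.factorial * ∏ j, B j := by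
  rw [Matrix.det_apply]
  refine (norm_sum_le _ _).trans ?_
  have h : ∀ σ ∈ (univ : Finset (Equiv.Perm (Fin N))),
      ‖Equiv.Perm.sign σ • ∏ i, A (σ i) i‖ ≤ ∏ j, B j := by
    intro σ _
    have h1 : ‖Equiv.Perm.sign σ • ∏ i, A (σ i) i‖ = ∏ i, ‖A (σ i) i‖ := by
      rw [← norm_prod]
      rcases Int.units_eq_one_or (Equiv.Perm.sign σ) with h | h <;> simp [h]
    rw [h1]
    exact Finset.prod_le_prod (fun i _ => norm_nonneg _) (fun i _ => hB _ _)
  refine (Finset.sum_le_sum h).trans ?_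
  rw [Finset.sum_const, Finset.card_univ, Fintype.card_perm, Fintype.card_fin, nsmul_eq_mul]

lemma norm_det_le_of_ultra {L : Type*} [NormedField L] [IsUltrametricDist L] {N : ℕ}
    (A : Matrix (Fin N) (Fin N) L) (B : Fin N → ℝ) (hB : ∀ i j, ‖A i j‖ ≤ B j) :
    ‖A.det‖ ≤ ∏ j, B j := by
  rw [Matrix.det_apply]
  refine IsUltrametricDist.norm_sum_le_of_forall_le_of_nonempty ?_ ?_
  · exact ⟨1, mem_univ _⟩
  · intro σ _
    have h1 : ‖Equiv.Perm.sign σ • ∏ i, A (σ i) i‖ = ∏ i, ‖A (σ i) i‖ := by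
      rw [← norm_prod]
      rcases Int.units_eq_one_or (Equiv.Perm.sign σ) with h | h <;> simp [h]
    rw [h1]
    exact Finset.prod_le_prod (fun i _ => norm_nonneg _) (fun i _ => hB _ _)


lemma eval_basisPoly_norm_le {L : Type*} [NormedField L] {P : L[X]} {A β γ : ℝ} (hA : 0 < A)
    {y : L} (h1 : ‖P.eval y‖ * A ^ P.natDegree ≤ Real.exp β) (h2 : ‖y‖ * A ≤ Real.exp γ)
    (n : ℕ) :
    ‖(basisPoly P P.natDegree n).eval y‖ ≤
      Real.exp (β * (n / P.natDegree : ℕ) + γ * (n % P.natDegree : ℕ) - n * Real.log A) := by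
  have hn : (n : ℝ) = (P.natDegree : ℝ) * (n / P.natDegree : ℕ) + (n % P.natDegree : ℕ) := by
    have := Nat.div_add_mod n P.natDegree
    exact_mod_cast this.symm
  have e1 : ‖P.eval y‖ ≤ Real.exp (β - P.natDegree * Real.log A) := by
    rw [Real.exp_sub, Real.exp_nat_mul, Real.exp_log hA, le_div_iff₀ (pow_pos hA _)]
    exact h1
  have e2 : ‖y‖ ≤ Real.exp (γ - Real.log A) := by
    rw [Real.exp_sub, Real.exp_log hA, le_div_iff₀ hA]
    exact h2
  unfold basisPoly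
  rw [eval_mul, eval_pow, eval_pow, eval_X, norm_mul, norm_pow, norm_pow]
  calc ‖P.eval y‖ ^ (n / P.natDegree) * ‖y‖ ^ (n % P.natDegree)
      ≤ Real.exp (β - P.natDegree * Real.log A) ^ (n / P.natDegree) *
          Real.exp (γ - Real.log A) ^ (n % P.natDegree) := by gcongr
    _ = Real.exp (β * (n / P.natDegree : ℕ) + γ * (n % P.natDegree : ℕ) - n * Real.log A) := by
        rw [← Real.exp_nat_mul, ← Real.exp_nat_mul, ← Real.exp_add]
        congr 1
        rw [hn]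
        ring

/-- Nonarchimedean upper bound for the Vandermonde determinant. -/
theorem log_vandermonde_le_ultra {L : Type*} [NormedField L] [IsUltrametricDist L]
    {N : ℕ} (x : Fin N → L) {P : L[X]} (hP : P.Monic) {A β γ : ℝ} (hA : 0 < A)
    (h1 : ∀ i, ‖P.eval (x i)‖ * A ^ P.natDegree ≤ Real.exp β)
    (h2 : ∀ i, ‖x i‖ * A ≤ Real.exp γ)
    (hV : (Matrix.vandermonde x).det ≠ 0) :
    Real.log ‖(Matrix.vandermonde x).det‖ + (∑ j : Fin N, (j : ℝ)) * Real.log A ≤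
      β * (∑ j : Fin N, ((j / P.natDegree : ℕ) : ℝ)) +
        γ * (∑ j : Fin N, ((j % P.natDegree : ℕ) : ℝ)) := by
  have hdet := Matrix.det_eval_matrixOfPolynomials_eq_det_vandermonde x
    (fun j : Fin N => basisPoly P P.natDegree j)
    (fun j => basisPoly_natDegree hP j) (fun j => basisPoly_monic hP _ _)
  have hle : ‖(Matrix.vandermonde x).det‖ ≤ ∏ j : Fin N,
      Real.exp (β * ((j : ℕ) / P.natDegree : ℕ) + γ * ((j : ℕ) % P.natDegree : ℕ)
        - (j : ℕ) * Real.log A) := by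
    rw [hdet]
    refine norm_det_le_of_ultra _ _ (fun i j => ?_)
    rw [Matrix.of_apply]
    exact eval_basisPoly_norm_le hA (h1 i) (h2 i) j
  rw [← Real.exp_sum] at hle
  have hlog := Real.log_le_log (norm_pos_iff.mpr hV) hle
  rw [Real.log_exp, Finset.sum_sub_distrib, Finset.sum_add_distrib, ← Finset.mul_sum,
    ← Finset.mul_sum, ← Finset.sum_mul] at hlog
  linarith

/-- Archimedean upper bound for the Vandermonde determinant. -/
theorem log_vandermonde_le {L : Type*} [NormedField L]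
    {N : ℕ} (x : Fin N → L) {P : L[X]} (hP : P.Monic) {A β γ : ℝ} (hA : 0 < A)
    (h1 : ∀ i, ‖P.eval (x i)‖ * A ^ P.natDegree ≤ Real.exp β)
    (h2 : ∀ i, ‖x i‖ * A ≤ Real.exp γ)
    (hV : (Matrix.vandermonde x).det ≠ 0) :
    Real.log ‖(Matrix.vandermonde x).det‖ + (∑ j : Fin N, (j : ℝ)) * Real.log A ≤
      β * (∑ j : Fin N, ((j / P.natDegree : ℕ) : ℝ)) +
        γ * (∑ j : Fin N, ((j % P.natDegree : ℕ) : ℝ)) + Real.log N.factorial := by
  have hdet := Matrix.det_eval_matrixOfPolynomials_eq_det_vandermonde x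
    (fun j : Fin N => basisPoly P P.natDegree j)
    (fun j => basisPoly_natDegree hP j) (fun j => basisPoly_monic hP _ _)
  have hle : ‖(Matrix.vandermonde x).det‖ ≤ N.factorial * ∏ j : Fin N,
      Real.exp (β * ((j : ℕ) / P.natDegree : ℕ) + γ * ((j : ℕ) % P.natDegree : ℕ)
        - (j : ℕ) * Real.log A) := by
    rw [hdet]
    refine norm_det_le _ _ (fun i j => ?_)
    rw [Matrix.of_apply]
    exact eval_basisPoly_norm_le hA (h1 i) (h2 i) j
  rw [← Real.exp_sum] at hle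
  have hlog := Real.log_le_log (norm_pos_iff.mpr hV) hle
  have hf : (0 : ℝ) < N.factorial := by exact_mod_cast N.factorial_pos
  rw [Real.log_mul hf.ne' (Real.exp_pos _).ne', Real.log_exp, Finset.sum_sub_distrib,
    Finset.sum_add_distrib, ← Finset.mul_sum,
    ← Finset.mul_sum, ← Finset.sum_mul] at hlog
  linarith

lemma sum_fin_id (N : ℕ) : ∑ j : Fin N, ((j : ℕ) : ℝ) = (N : ℝ) * (N - 1) / 2 := by
  rw [Fin.sum_univ_eq_sum_range (fun i => (i : ℝ)) N]
  induction N with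
  | zero => simp
  | succ n ih =>
    rw [Finset.sum_range_succ, ih]
    push_cast
    ring

lemma sum_div_le (N M : ℕ) (hM : 1 ≤ M) :
    ∑ j : Fin N, ((j / M : ℕ) : ℝ) ≤ (N : ℝ) * N / (2 * M) := by
  have hM0 : (0 : ℝ) < M := by exact_mod_cast hM
  have h1 : ∀ j : Fin N, (((j : ℕ) / M : ℕ) : ℝ) ≤ ((j : ℕ) : ℝ) / M := by
    intro j
    rw [le_div_iff₀ hM0]
    exact_mod_cast Nat.div_mul_le_self (j : ℕ) M
  refine (Finset.sum_le_sum (fun j _ => h1 j)).trans ?_
  rw [← Finset.sum_div, sum_fin_id, div_div]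
  gcongr
  linarith

lemma sum_div_nonneg (N M : ℕ) : 0 ≤ ∑ j : Fin N, ((j / M : ℕ) : ℝ) :=
  Finset.sum_nonneg (fun _ _ => Nat.cast_nonneg _)

lemma sum_mod_nonneg (N M : ℕ) : 0 ≤ ∑ j : Fin N, ((j % M : ℕ) : ℝ) :=
  Finset.sum_nonneg (fun _ _ => Nat.cast_nonneg _)

lemma sum_mod_le (N M : ℕ) (hM : 1 ≤ M) :
    ∑ j : Fin N, ((j % M : ℕ) : ℝ) ≤ (N : ℝ) * M := by
  have h1 : ∀ j : Fin N, (((j : ℕ) % M : ℕ) : ℝ) ≤ M := by
    intro j
    exact_mod_cast (Nat.mod_lt _ hM).le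
  refine (Finset.sum_le_sum (fun j _ => h1 j)).trans ?_
  simp

lemma sum_div_ge (N M : ℕ) (hM : 1 ≤ M) :
    (N : ℝ) * (N - 1) / (2 * M) - N ≤ ∑ j : Fin N, ((j / M : ℕ) : ℝ) := by
  have hM0 : (0 : ℝ) < M := by exact_mod_cast hM
  have h1 : ∀ j : Fin N, ((j : ℕ) : ℝ) / M - 1 ≤ (((j : ℕ) / M : ℕ) : ℝ) := by
    intro j
    have h2 := Nat.lt_div_mul_add (a := (j : ℕ)) (b := M) (by omega)
    rw [sub_le_iff_le_add, div_le_iff₀ hM0]
    have h3 : ((j : ℕ) : ℝ) ≤ (((j : ℕ) / M * M + M : ℕ) : ℝ) := by exact_mod_cast h2.le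
    push_cast at h3
    linarith
  have h2 : ∑ j : Fin N, (((j : ℕ) : ℝ) / M - 1) = (N : ℝ) * (N - 1) / (2 * M) - N := by
    rw [Finset.sum_sub_distrib, ← Finset.sum_div]
    rw [sum_fin_id]
    simp
    field_simp
  rw [← h2]
  exact Finset.sum_le_sum (fun j _ => h1 j)

end Pool.Agent.UBC90787a
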